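import Pool.Agent.TH951.P.Comp

/-!
# Uniform boundedness in positive characteristic
-/

namespace Pool.Agent.TH951.P

open Pool.Agent.TH951.W.UB Pool.Agent.TH951.W.UG Pool.Agent.TH951.W.UH Finset Polynomial
open IntermediateField

universe u v

theorem ubp_p (d : ℕ) (hd : 2 ≤ d) : ∃ N : ℕ → ℕ, ∀ (k : Type v) (K : Type u) [Field k] [Field K]
    [Algebra k K] (p : ℕ) [Fact p.Prime] [CharP k p] (Q : PlaceData.{u} (EE k K) (LL k K)),
    (∀ x, Q.D x = 0 → ∃ y, y ^ p = x) →
    ∀ f g : K[X], IsCoprime f g → max f.natDegree g.natDegree = d →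
    ¬ IsoBar k (f.map (algebraMap K (AlgebraicClosure K)))
      (g.map (algebraMap K (AlgebraicClosure K))) d →
    {z : Option K | (Set.range fun m : ℕ => (ratP1 f g d)^[m] z).Finite}.encard ≤
      (N Q.lossT.toNat : ℕ∞) := by
  classical
  obtain ⟨N, hN⟩ := card_stable_p.{u, u, u} d hd
  refine ⟨N, ?_⟩
  intro k K _ _ _ p hpf _ Q hker f g hco hmax hiso
  haveI : CharP (EE k K) p := (RingHom.charP_iff (algebraMap k (EE k K))
    (algebraMap k (EE k K)).injective p).mp inferInstance
  haveI : CharP (LL k K) p := (RingHom.charP_iff (algebraMap (EE k K) (LL k K))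
    (algebraMap (EE k K) (LL k K)).injective p).mp inferInstance
  haveI : IsAlgClosed (EE k K) := IsAlgClosure.isAlgClosed k
  haveI : Infinite (EE k K) := IsAlgClosed.instInfinite
  haveI : Infinite (LL k K) := Infinite.of_injective _ (algebraMap (EE k K) (LL k K)).injective
  apply prePer_of_stable
  intro P hP
  set φ := phi k K with hφ
  have hco' : IsCoprime (f.map φ) (g.map φ) := (Polynomial.isCoprime_map φ).mpr hco
  have hmax' : max (f.map φ).natDegree (g.map φ).natDegree = d := by
    rw [natDegree_map, natDegree_map, hmax]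
  obtain ⟨f', g', P', h1, h2, h3, h4, h5, h6⟩ := stableP_reduce (k := EE k K) d hd (f.map φ)
    (g.map φ) hmax' hco' (P.image (Option.map φ)) (by
      intro z hz
      obtain ⟨y, hy, rfl⟩ := Finset.mem_image.mp hz
      rw [ratP1_map]
      exact Finset.mem_image_of_mem _ (hP y hy))
  have h7 := hN (EE k K) (LL k K) p Q hker f' g' h1 h2 h3 P' h4 (fun h => hiso
    (isoBar_of_conj k K f g d (h6 h)))
  rw [h5, Finset.card_image_of_injective _ (Option.map_injective φ.injective)] at h7
  exact h7

end Pool.Agent.TH951.P
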