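import Mathlib
import Pool.Agent.TH951.W.UB.Rat

/-!
# The kernel of the derivation in characteristic `p`
-/

namespace Pool.Agent.TH951.P

open Pool.Agent.TH951.W.UB Polynomial

variable {k K : Type*} [Field k] [Field K] [Algebra k K]

lemma D_pow_char (p : ℕ) [CharP K p] (D : Derivation k K K) (y : K) : D (y ^ p) = 0 := by
  rw [Derivation.leibniz_pow, nsmul_eq_mul, CharP.cast_eq_zero, zero_mul]

/-- a derivation on polynomial expressions with coefficients in the kernel -/
lemma D_aeval {E : Subfield K} (D : Derivation k K K) (hE : ∀ e ∈ E, D e = 0) (t : K)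
    (ht : D t = 1) (g : E[X]) : D (aeval t g) = aeval t (derivative g) := by
  induction g using Polynomial.induction_on' with
  | add p q hp hq => rw [map_add, map_add, hp, hq, derivative_add, map_add]
  | monomial n a =>
    rw [aeval_monomial, derivative_monomial, aeval_monomial, Derivation.leibniz,
      Derivation.leibniz_pow, ht]
    have : D (algebraMap E K a) = 0 := hE _ a.2
    rw [this, map_mul, map_natCast]
    simp only [smul_eq_mul, nsmul_eq_mul, mul_one, mul_zero, add_zero]
    ring

lemma D_aeval_iter {E : Subfield K} (D : Derivation k K K) (hE : ∀ e ∈ E, D e = 0) (t : K)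
    (ht : D t = 1) (g : E[X]) (n : ℕ) : D^[n] (aeval t g) = aeval t (derivative^[n] g) := by
  induction n with
  | zero => rfl
  | succ n ih => rw [Function.iterate_succ_apply', ih, D_aeval D hE t ht,
      Function.iterate_succ_apply']

/-- The kernel of the derivation consists of `p`-th powers. -/
theorem ker_pow (p : ℕ) [hp : Fact p.Prime] [CharP K p] (hk : ∀ c : k, ∃ c' : k, c' ^ p = c)
    [Algebra (RatFunc k) K] [IsScalarTower k (RatFunc k) K] [Algebra.IsSeparable (RatFunc k) K]
    (D : Derivation k K K)
    (hD : ∀ x : RatFunc k, D (algebraMap (RatFunc k) K x) = algebraMap (RatFunc k) K (ratD k x))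
    (x : K) (hx : D x = 0) : ∃ y, y ^ p = x := by
  let E : Subfield K := (frobenius K p).fieldRange
  have hEm : ∀ e, e ∈ E ↔ ∃ y, y ^ p = e := fun e => Iff.rfl
  have hE : ∀ e ∈ E, D e = 0 := by
    rintro e ⟨y, rfl⟩
    exact D_pow_char p D y
  set t : K := algebraMap (RatFunc k) K RatFunc.X with ht
  have hDt : D t = 1 := by
    rw [ht, hD]
    have h1 : (RatFunc.X : RatFunc k) = algebraMap k[X] (RatFunc k) X := by
      rw [RatFunc.algebraMap_X]
    rw [h1, ratD_alg, derivative_X, map_one, map_one]
  let M : IntermediateField E K := IntermediateField.adjoin E {t}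
  have htM : t ∈ M := IntermediateField.mem_adjoin_simple_self E t
  have hEM : ∀ y : K, y ^ p ∈ M := fun y => M.algebraMap_mem ⟨y ^ p, y, rfl⟩
  have hkM : ∀ c : k, algebraMap k K c ∈ M := by
    intro c
    obtain ⟨c', rfl⟩ := hk c
    rw [map_pow]
    exact hEM _
  have hpoly : ∀ g : k[X], algebraMap (RatFunc k) K (algebraMap k[X] (RatFunc k) g) ∈ M := by
    intro g
    induction g using Polynomial.induction_on' with
    | add p q hp hq =>
      rw [map_add, map_add]
      exact add_mem hp hq
    | monomial n a =>
      rw [← C_mul_X_pow_eq_monomial, map_mul, map_mul, map_pow, map_pow, RatFunc.algebraMap_X,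
        RatFunc.algebraMap_C]
      refine mul_mem ?_ (pow_mem htM n)
      have : RatFunc.C a = algebraMap k (RatFunc k) a := rfl
      rw [this, ← IsScalarTower.algebraMap_apply]
      exact hkM a
  have hF : ∀ r : RatFunc k, algebraMap (RatFunc k) K r ∈ M := by
    intro r
    obtain ⟨a, b, hb, rfl⟩ := exists_mk r
    rw [map_div₀]
    exact div_mem (hpoly a) (hpoly b)
  let M' : IntermediateField (RatFunc k) K := { M.toSubfield with algebraMap_mem' := hF }
  haveI : CharP (RatFunc k) p := (RingHom.charP_iff (algebraMap (RatFunc k) K)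
    (algebraMap (RatFunc k) K).injective p).mpr inferInstance
  haveI : ExpChar (RatFunc k) p := ExpChar.prime hp.out
  have hxM : x ∈ M := by
    have h1 := IntermediateField.mem_adjoin_simple_self (RatFunc k) x
    rw [IntermediateField.adjoin_simple_eq_adjoin_pow_expChar_of_isSeparable _ _
      (Algebra.IsSeparable.isSeparable (RatFunc k) x) p] at h1
    have h2 : IntermediateField.adjoin (RatFunc k) {x ^ p} ≤ M' := by
      rw [IntermediateField.adjoin_le_iff]
      rintro y hy
      rw [Set.mem_singleton_iff] at hy
      subst hy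
      exact hEM x
    exact h2 h1
  -- polynomial in `t`
  have hq : (X ^ p - C (⟨t ^ p, t, rfl⟩ : E) : E[X]).Monic :=
    monic_X_pow_sub_C _ hp.out.ne_zero
  set q : E[X] := X ^ p - C (⟨t ^ p, t, rfl⟩ : E) with hqdef
  have hqt : aeval t q = 0 := by
    rw [hqdef, map_sub, map_pow, aeval_X, aeval_C]
    exact sub_self _
  have hint : IsIntegral E t := ⟨q, hq, hqt⟩
  have hx2 : x ∈ Algebra.adjoin E {t} := by
    rw [← IntermediateField.adjoin_simple_toSubalgebra_of_isAlgebraic hint.isAlgebraic]
    exact hxM
  rw [Algebra.adjoin_singleton_eq_range_aeval] at hx2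
  obtain ⟨g₀, hg₀⟩ := hx2
  set g := g₀ %ₘ q with hg
  have hgx : aeval t g = x := by
    have h1 := congrArg (aeval t) (modByMonic_add_div g₀ q)
    rw [map_add, map_mul, hqt, zero_mul, add_zero] at h1
    rw [hg, h1]
    exact hg₀
  have hgd : g.natDegree < p := by
    have hne : q.natDegree ≠ 0 := by
      rw [hqdef, natDegree_X_pow_sub_C]
      exact hp.out.ne_zero
    have h1 := natDegree_modByMonic_lt g₀ hq (by
      intro h
      rw [h, natDegree_one] at hne
      exact hne rfl)
    rwa [hqdef, natDegree_X_pow_sub_C] at h1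
  set m := g.natDegree with hm
  by_cases hm0 : m = 0
  · obtain ⟨c, hc⟩ := natDegree_eq_zero.mp (hm ▸ hm0 : g.natDegree = 0)
    rw [← hc, aeval_C] at hgx
    obtain ⟨y, hy⟩ := c.2
    exact ⟨y, hy.trans hgx⟩
  · exfalso
    have h1 : D^[m] x = 0 := by
      obtain ⟨j, hj⟩ := Nat.exists_eq_succ_of_ne_zero hm0
      rw [hj, Function.iterate_succ_apply, hx]
      induction j with
      | zero => rfl
      | succ j _ =>
        have : ∀ n : ℕ, D^[n] (0 : K) = 0 := by
          intro n
          induction n with
          | zero => rfl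
          | succ n ih => rw [Function.iterate_succ_apply', ih, map_zero]
        exact this _
    rw [← hgx, D_aeval_iter D hE t hDt] at h1
    have h2 : (derivative^[m] g).natDegree = 0 := by
      have := natDegree_iterate_derivative g m
      omega
    obtain ⟨c, hc⟩ := natDegree_eq_zero.mp h2
    rw [← hc, aeval_C] at h1
    have hc0 : c = 0 := (map_eq_zero_iff _ (algebraMap E K).injective).mp h1
    have h3 := coeff_iterate_derivative (k := m) g 0
    rw [← hc, hc0, C_0, coeff_zero, zero_add, Nat.descFactorial_self, nsmul_eq_mul] at h3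
    haveI : CharP E p := (RingHom.charP_iff (algebraMap E K) (algebraMap E K).injective p).mpr
      inferInstance
    rcases mul_eq_zero.mp h3.symm with h4 | h4
    · rw [CharP.cast_eq_zero_iff E p] at h4
      exact absurd ((hp.out.dvd_factorial).mp h4) (by omega)
    · have h5 : g = 0 := leadingCoeff_eq_zero.mp h4
      rw [h5, natDegree_zero] at hm
      exact hm0 hm

end Pool.Agent.TH951.P
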