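import Mathlib

/-!
# Extending derivations along separable extensions
-/

namespace Pool.Agent.TH951.P

open TensorProduct KaehlerDifferential

/-- A derivation extends to a separable algebraic extension. -/
theorem exists_ext_der (k F K : Type*) [Field k] [Field F] [Field K] [Algebra k F] [Algebra F K]
    [Algebra k K] [IsScalarTower k F K] [Algebra.IsSeparable F K] (D₀ : Derivation k F F) :
    ∃ D : Derivation k K K, ∀ x : F, D (algebraMap F K x) = algebraMap F K (D₀ x) := by
  have : Algebra.FormallyEtale F K := Algebra.FormallyEtale.of_isSeparable F K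
  let e := KaehlerDifferential.tensorKaehlerEquivOfFormallyEtale k F K
  let g : Ω[F⁄k] →ₗ[F] K := (Algebra.linearMap F K) ∘ₗ D₀.liftKaehlerDifferential
  let h : K ⊗[F] Ω[F⁄k] →ₗ[K] K := LinearMap.liftBaseChange K g
  let L : Ω[K⁄k] →ₗ[K] K := h ∘ₗ e.symm.toLinearMap
  refine ⟨L.compDer (KaehlerDifferential.D k K), fun x => ?_⟩
  show h (e.symm (KaehlerDifferential.D k K (algebraMap F K x))) = _
  rw [KaehlerDifferential.tensorKaehlerEquivOfFormallyEtale_symm_D_algebraMap,
    LinearMap.liftBaseChange_tmul, one_smul]
  show algebraMap F K (D₀.liftKaehlerDifferential (KaehlerDifferential.D k F x)) = _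
  rw [Derivation.liftKaehlerDifferential_comp_D]

end Pool.Agent.TH951.P
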