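import Mathlib
import Pool.Agent.TH951.W.UB.Gen
import Pool.Agent.TH951.P.Ker

/-!
# Place data of function fields over algebraically closed fields of positive characteristic
-/

namespace Pool.Agent.TH951.P

open Pool.Agent.TH951.W.UB Polynomial IntermediateField

universe u

/-- The rational function field. -/
theorem exists_pd_rat (p : ℕ) [Fact p.Prime] (E L : Type u) [Field E] [IsAlgClosed E] [Field L]
    [Algebra E L] [CharP L p] (t : L) (ht : Transcendental E t)
    (htop : IntermediateField.adjoin E {t} = ⊤) :
    ∃ Q : PlaceData.{u} E L, (∀ x, Q.D x = 0 → ∃ y, y ^ p = x) ∧ Q.lossT = 0 := by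
  let σ : RatFunc E ≃ₐ[E] L :=
    (RatFunc.algEquivOfTranscendental t ht).trans
      ((IntermediateField.equivOfEq htop).trans IntermediateField.topEquiv)
  let Q0 := ratPlaces E
  haveI : CharP (RatFunc E) p := (RingHom.charP_iff (σ : RatFunc E →+* L)
    (σ : RatFunc E →+* L).injective p).mpr inferInstance
  haveI : CharP E p := (RingHom.charP_iff (algebraMap E L) (algebraMap E L).injective p).mpr
    inferInstance
  have hk : ∀ c : E, ∃ c' : E, c' ^ p = c := fun c =>
    IsAlgClosed.exists_pow_nat_eq c (Fact.out : p.Prime).pos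
  have hker0 : ∀ x : RatFunc E, ratD E x = 0 → ∃ y, y ^ p = x := fun x hx =>
    ker_pow p hk (ratDer E) (fun x => rfl) x hx
  let D : Derivation E L L := Derivation.mk' (σ.toLinearMap ∘ₗ
    ((ratDer E : Derivation E (RatFunc E) (RatFunc E)) : RatFunc E →ₗ[E] RatFunc E) ∘ₗ
    σ.symm.toLinearMap) (by
      intro a b
      simp only [LinearMap.comp_apply, AlgEquiv.toLinearMap_apply, map_mul, Derivation.coeFn_coe,
        Derivation.leibniz, smul_eq_mul, map_add, AlgEquiv.apply_symm_apply])
  have hD : ∀ x, σ.symm (D x) = ratDer E (σ.symm x) := by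
    intro x
    change σ.symm (σ (ratDer E (σ.symm x))) = _
    rw [AlgEquiv.symm_apply_apply]
  have hDit : ∀ (j : ℕ) (x : L), σ.symm (D^[j] x) = (ratDer E)^[j] (σ.symm x) := by
    intro j x
    exact (Function.Semiconj.iterate_right hD j) x
  have hne : ∀ x : L, x ≠ 0 → σ.symm x ≠ 0 := fun x hx => (map_ne_zero_iff _ σ.symm.injective).mpr hx
  refine ⟨{
    Pl := Q0.Pl
    ord := fun v x => Q0.ord v (σ.symm x)
    wt := Q0.wt
    wt_nonneg := Q0.wt_nonneg
    wt_one := Q0.wt_one
    ord_mul := by
      intro v x y hx hy
      rw [map_mul]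
      exact Q0.ord_mul v _ _ (hne x hx) (hne y hy)
    ord_add := by
      intro v x y m hx hy hxy h1 h2
      rw [map_add]
      refine Q0.ord_add v _ _ m (hne x hx) (hne y hy) ?_ h1 h2
      rw [← map_add]
      exact hne _ hxy
    ord_alg := by
      intro v c hc
      rw [AlgEquiv.commutes]
      exact Q0.ord_alg v _ hc
    fin := fun x hx => Q0.fin _ (hne x hx)
    prod_formula := fun x hx S hS => Q0.prod_formula _ (hne x hx) S hS
    const := by
      intro x hx h
      obtain ⟨c, hc⟩ := Q0.const _ (hne x hx) h
      refine ⟨c, ?_⟩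
      have h1 := congrArg σ hc
      rwa [AlgEquiv.commutes, AlgEquiv.apply_symm_apply] at h1
    D := D
    loss := Q0.loss
    loss_nonneg := Q0.loss_nonneg
    lossS := Q0.lossS
    loss_supp := Q0.loss_supp
    lossT := Q0.lossT
    loss_sum := Q0.loss_sum
    D_ord := by
      intro v x j m hx hj hm
      rw [hDit]
      refine Q0.D_ord v _ j m (hne x hx) ?_ hm
      have := hne _ hj
      rw [hDit] at this
      exact this
    D_ord' := by
      intro v x j hx hj hm
      rw [hDit]
      refine Q0.D_ord' v _ j (hne x hx) ?_ hm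
      have := hne _ hj
      rw [hDit] at this
      exact this }, ?_, rfl⟩
  intro x hx
  have hx' : D x = 0 := hx
  have h1 : ratD E (σ.symm x) = 0 := by
    have h2 := hD x
    rw [hx', map_zero] at h2
    exact h2.symm
  obtain ⟨y, hy⟩ := hker0 _ h1
  refine ⟨σ y, ?_⟩
  rw [← map_pow, hy, AlgEquiv.apply_symm_apply]

/-- General function fields. -/
theorem exists_pd_sep (p : ℕ) [Fact p.Prime] (E L : Type u) [Field E] [IsAlgClosed E] [Field L]
    [Algebra E L] [CharP L p] (t : L) (ht : Transcendental E t)
    [Algebra.IsSeparable (IntermediateField.adjoin E {t}) L]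
    (hFG : (⊤ : IntermediateField E L).FG) :
    ∃ Q : PlaceData.{u} E L, ∀ x, Q.D x = 0 → ∃ y, y ^ p = x := by
  let σ : RatFunc E ≃ₐ[E] IntermediateField.adjoin E {t} := RatFunc.algEquivOfTranscendental t ht
  let φ : RatFunc E →+* L := (algebraMap (IntermediateField.adjoin E {t}) L).comp
    (σ : RatFunc E →+* IntermediateField.adjoin E {t})
  letI : Algebra (RatFunc E) L := φ.toAlgebra
  have hφ' : ∀ y, algebraMap (RatFunc E) L y = φ y := fun _ => rfl
  have : IsScalarTower E (RatFunc E) L := by
    apply IsScalarTower.of_algebraMap_eq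
    intro c
    rw [hφ']
    show _ = algebraMap (IntermediateField.adjoin E {t}) L (σ (algebraMap E (RatFunc E) c))
    rw [AlgEquiv.commutes]
    rfl
  have hcomp : (algebraMap (RatFunc E) L).comp
      (σ.symm.toRingEquiv : IntermediateField.adjoin E {t} →+* RatFunc E) =
      ((RingEquiv.refl L : L ≃+* L) : L →+* L).comp
        (algebraMap (IntermediateField.adjoin E {t}) L) := by
    apply RingHom.ext
    intro y
    obtain ⟨z, rfl⟩ := σ.surjective y
    have h1 : σ.symm (σ z) = z := AlgEquiv.symm_apply_apply σ z
    calc algebraMap (RatFunc E) L (σ.symm (σ z)) = φ z := by rw [h1]; rfl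
      _ = _ := rfl
  haveI : Algebra.IsSeparable (RatFunc E) L :=
    Algebra.IsSeparable.of_equiv_equiv σ.symm.toRingEquiv (RingEquiv.refl L) hcomp
  haveI : FiniteDimensional (RatFunc E) L := by
    obtain ⟨T, hT⟩ := hFG
    have h1 : IntermediateField.adjoin (RatFunc E) (T : Set L) = ⊤ := by
      rw [eq_top_iff]
      intro z _
      have h2 : z ∈ IntermediateField.adjoin E (T : Set L) := by
        rw [hT]
        trivial
      have h3 : IntermediateField.adjoin E (T : Set L) ≤
          ({ (IntermediateField.adjoin (RatFunc E) (T : Set L)).toSubfield with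
              algebraMap_mem' := by
                intro c
                rw [IsScalarTower.algebraMap_apply E (RatFunc E) L]
                exact (IntermediateField.adjoin (RatFunc E) (T : Set L)).algebraMap_mem _ } :
            IntermediateField E L) := by
        rw [IntermediateField.adjoin_le_iff]
        intro y hy
        exact IntermediateField.subset_adjoin (RatFunc E) (T : Set L) hy
      exact h3 h2
    have h2 : FiniteDimensional (RatFunc E) (IntermediateField.adjoin (RatFunc E) (T : Set L)) :=
      IntermediateField.finiteDimensional_adjoin fun z _ =>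
        (Algebra.IsSeparable.isSeparable (RatFunc E) z).isIntegral
    rw [h1] at h2
    exact Module.Finite.equiv (IntermediateField.topEquiv (F := RatFunc E) (E := L)).toLinearEquiv
  haveI : CharP E p := (RingHom.charP_iff (algebraMap E L) (algebraMap E L).injective p).mpr
    inferInstance
  have hk : ∀ c : E, ∃ c' : E, c' ^ p = c := fun c =>
    IsAlgClosed.exists_pow_nat_eq c (Fact.out : p.Prime).pos
  obtain ⟨Q, hQ⟩ := exists_placeData E L (fun x hx => by
    haveI := IntermediateField.isAlgebraic_adjoin_simple hx.isIntegral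
    have h1 := IntermediateField.eq_bot_of_isAlgClosed_of_isAlgebraic
      (IntermediateField.adjoin E {x})
    have h2 := IntermediateField.mem_adjoin_simple_self E x
    rw [h1, IntermediateField.mem_bot] at h2
    exact h2)
  exact ⟨Q, fun x hx => ker_pow p hk Q.D hQ x hx⟩

/-- General function fields. -/
theorem exists_pd_ff (p : ℕ) [Fact p.Prime] (E L : Type u) [Field E] [IsAlgClosed E] [Field L]
    [Algebra E L] [CharP L p] (hFG : (⊤ : IntermediateField E L).FG)
    (hx : ∃ x : L, Transcendental E x ∧ Algebra.IsAlgebraic (IntermediateField.adjoin E {x}) L) :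
    ∃ Q : PlaceData.{u} E L, (∀ x, Q.D x = 0 → ∃ y, y ^ p = x) ∧
      ((∃ t : L, IntermediateField.adjoin E {t} = ⊤) → Q.lossT = 0) := by
  obtain ⟨x, hxt, hxa⟩ := hx
  by_cases hrat : ∃ t : L, IntermediateField.adjoin E {t} = ⊤
  · obtain ⟨t, htop⟩ := hrat
    have ht : Transcendental E t := by
      intro hta
      apply hxt
      have h1 : x ∈ IntermediateField.adjoin E {t} := by
        rw [htop]
        exact IntermediateField.mem_top
      have h2 : Algebra.IsAlgebraic E (IntermediateField.adjoin E {t}) :=
        IntermediateField.isAlgebraic_adjoin_simple hta.isIntegral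
      exact (IntermediateField.isAlgebraic_iff.mp (h2.isAlgebraic ⟨x, h1⟩))
    obtain ⟨Q, hQ, hQ0⟩ := exists_pd_rat p E L t ht htop
    exact ⟨Q, hQ, fun _ => hQ0⟩
  · haveI : Algebra.EssFiniteType E L := by
      rw [← IntermediateField.fg_top_iff]
      exact hFG
    obtain ⟨s, hs, hsep⟩ := exists_isTranscendenceBasis_and_isSeparable_of_perfectField E L
    have hbasis : IsTranscendenceBasis E (fun _ : PUnit.{u + 1} => x) := by
      rw [isTranscendenceBasis_iff_algebraicIndependent_isAlgebraic]
      refine ⟨algebraicIndependent_unique_type_iff.mpr hxt, ?_⟩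
      rw [← IntermediateField.isAlgebraic_adjoin_iff_top, Set.range_const]
      exact hxa
    have hcard : s.card = 1 := by
      have h1 := hs.cardinalMk_eq hbasis
      simpa using h1
    obtain ⟨t, rfl⟩ := Finset.card_eq_one.mp hcard
    have ht : Transcendental E t := by
      have h1 := hs.1.transcendental ⟨t, Finset.mem_singleton_self t⟩
      exact h1
    rw [Finset.coe_singleton] at hsep
    obtain ⟨Q, hQ⟩ := exists_pd_sep p E L t ht hFG
    exact ⟨Q, hQ, fun h => absurd h hrat⟩

end Pool.Agent.TH951.P
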