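import Pool.Agent.TH951.P.FinP
import Pool.Agent.TH951.P.FF

/-!
# Assembly in positive characteristic
-/

namespace Pool.Agent.TH951.P

open Pool.Agent.TH951.W.UB Pool.Agent.TH951.W.UG Pool.Agent.TH951.W.UH Finset Polynomial

universe u v w

/-- moving infinity out of a stable set -/
theorem stableP_reduce {k : Type v} {K : Type u} [Field k] [Field K] [Infinite K] [Algebra k K]
    (d : ℕ) (hd : 2 ≤ d)
    (p q : Polynomial K) (hmax : max p.natDegree q.natDegree = d) (hco : IsCoprime p q)
    (P : Finset (Option K)) (hP : ∀ z ∈ P, ratP1 p q d z ∈ P) :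
    ∃ (p' q' : Polynomial K) (P' : Finset K), p'.natDegree ≤ d ∧ q'.natDegree = d ∧
      IsCoprime p' q' ∧ (∀ z ∈ P', q'.eval z ≠ 0 ∧ p'.eval z / q'.eval z ∈ P') ∧
      P'.card = P.card ∧ (ConjConst k p' q' d → ConjConst k p q d) := by
  classical
  have hp : p.natDegree ≤ d := by rw [← hmax]; exact le_max_left _ _
  have hq : q.natDegree ≤ d := by rw [← hmax]; exact le_max_right _ _
  have hlead : p.coeff d ≠ 0 ∨ q.coeff d ≠ 0 := by
    rcases le_total p.natDegree q.natDegree with h | h
    · right
      rw [max_eq_right h] at hmax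
      rw [← hmax]
      apply leadingCoeff_ne_zero.mpr
      rintro rfl
      rw [natDegree_zero] at hmax
      omega
    · left
      rw [max_eq_left h] at hmax
      rw [← hmax]
      apply leadingCoeff_ne_zero.mpr
      rintro rfl
      rw [natDegree_zero] at hmax
      omega
  have hX : p - X * q ≠ 0 := by
    intro h0
    have h1 : p = X * q := sub_eq_zero.mp h0
    have h2 : IsUnit q := by
      obtain ⟨a, b, hab⟩ := hco
      rw [h1] at hab
      apply IsUnit.of_mul_eq_one (a * X + b)
      rw [← hab]
      ring
    have h3 := natDegree_eq_zero_of_isUnit h2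
    have h4 : p.natDegree ≤ 1 := by
      rw [h1]
      refine natDegree_mul_le.trans ?_
      rw [h3, add_zero]
      exact natDegree_X_le
    rw [h3] at hmax
    omega
  obtain ⟨c, hc⟩ := Infinite.exists_notMem_finset
    ((P.image fun z => z.getD 0) ∪ (p - X * q).roots.toFinset)
  rw [Finset.mem_union, not_or] at hc
  have hcP : some c ∉ P := by
    intro h
    apply hc.1
    exact Finset.mem_image.mpr ⟨some c, h, rfl⟩
  have hcr : p.eval c - c * q.eval c ≠ 0 := by
    intro h
    apply hc.2
    rw [Multiset.mem_toFinset, mem_roots hX, IsRoot.def, eval_sub, eval_mul, eval_X]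
    exact h
  have hpq : (p - C c * q).natDegree ≤ d :=
    (natDegree_sub_le _ _).trans (max_le hp ((natDegree_C_mul_le _ _).trans hq))
  have hq'd : (pc d (p - C c * q) c).natDegree = d := by
    apply le_antisymm (pc_degree _ _ _)
    apply le_natDegree_of_ne_zero
    rw [pc_coeff d _ hpq, eval_sub, eval_mul, eval_C]
    exact hcr
  have hco' := pc_coprime d (by omega) p q hp hq hco hlead c
  have hinj : Set.InjOn (phc c) (P : Set (Option K)) := by
    intro z hz z' hz' h
    rcases z with _ | x
    · rcases z' with _ | x'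
      · rfl
      · exfalso
        have hx' : x' ≠ c := by
          rintro rfl
          exact hcP hz'
        have h1 : (0 : K) = (x' - c)⁻¹ := h
        exact inv_ne_zero (sub_ne_zero.mpr hx') h1.symm
    · rcases z' with _ | x'
      · exfalso
        have hx : x ≠ c := by
          rintro rfl
          exact hcP hz
        have h1 : (x - c)⁻¹ = (0 : K) := h
        exact inv_ne_zero (sub_ne_zero.mpr hx) h1
      · have h1 : (x - c)⁻¹ = (x' - c)⁻¹ := h
        have h2 := inv_injective h1
        have h3 : x = x' := sub_left_injective h2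
        rw [h3]
  have hst : ∀ y ∈ P.image (phc c), (pc d (p - C c * q) c).eval y ≠ 0 ∧
      (pc d q c).eval y / (pc d (p - C c * q) c).eval y ∈ P.image (phc c) := by
    intro y hy
    obtain ⟨z, hz, rfl⟩ := Finset.mem_image.mp hy
    have hFz := hP z hz
    rcases z with _ | x
    · have hval : phc c (none : Option K) = 0 := rfl
      rw [hval, pc_eval_zero, pc_eval_zero, coeff_sub, coeff_C_mul]
      by_cases hqd : q.coeff d = 0
      · have hpd : p.coeff d ≠ 0 := hlead.resolve_right (fun h => h hqd)
        rw [hqd, mul_zero, sub_zero, zero_div]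
        rw [ratP1_none0 p q d hqd] at hFz
        exact ⟨hpd, Finset.mem_image.mpr ⟨none, hFz, rfl⟩⟩
      · rw [ratP1_none p q d hqd] at hFz
        have h1 : p.coeff d / q.coeff d ≠ c := by
          intro h
          rw [h] at hFz
          exact hcP hFz
        have h2 : p.coeff d - c * q.coeff d ≠ 0 := by
          intro h
          apply h1
          rw [div_eq_iff hqd]
          exact sub_eq_zero.mp h
        refine ⟨h2, Finset.mem_image.mpr ⟨_, hFz, ?_⟩⟩
        show (p.coeff d / q.coeff d - c)⁻¹ = _
        rw [div_sub' hqd, inv_div, mul_comm (q.coeff d) c]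
    · have hxc : x ≠ c := by
        rintro rfl
        exact hcP hz
      have h0 : x - c ≠ 0 := sub_ne_zero.mpr hxc
      have hval : phc c (some x) = (x - c)⁻¹ := rfl
      have e1 := pc_eval_inv d q hq c x hxc
      have e2 := pc_eval_inv d (p - C c * q) hpq c x hxc
      rw [eval_sub, eval_mul, eval_C] at e2
      rw [hval]
      have hpow : (x - c) ^ d ≠ 0 := pow_ne_zero _ h0
      have hratio : (pc d q c).eval (x - c)⁻¹ / (pc d (p - C c * q) c).eval (x - c)⁻¹ =
          q.eval x / (p.eval x - c * q.eval x) := by
        have h9 : (pc d q c).eval (x - c)⁻¹ / (pc d (p - C c * q) c).eval (x - c)⁻¹ =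
            ((x - c) ^ d * (pc d q c).eval (x - c)⁻¹) /
              ((x - c) ^ d * (pc d (p - C c * q) c).eval (x - c)⁻¹) :=
          (mul_div_mul_left _ _ hpow).symm
        rw [h9, e1, e2]
      rw [hratio]
      have hne' : p.eval x - c * q.eval x ≠ 0 →
          (pc d (p - C c * q) c).eval (x - c)⁻¹ ≠ 0 := by
        intro h h'
        rw [h', mul_zero] at e2
        exact h e2.symm
      by_cases hqx : q.eval x = 0
      · have hpx : p.eval x ≠ 0 := by
          intro hpx
          obtain ⟨a, b, hab⟩ := hco
          have := congrArg (eval x) hab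
          rw [eval_add, eval_mul, eval_mul, hpx, hqx, mul_zero, mul_zero, add_zero,
            eval_one] at this
          exact zero_ne_one this
        rw [ratP1_some0 p q d x hqx] at hFz
        refine ⟨hne' (by rw [hqx, mul_zero, sub_zero]; exact hpx),
          Finset.mem_image.mpr ⟨none, hFz, ?_⟩⟩
        rw [hqx, zero_div]
        rfl
      · rw [ratP1_some p q d x hqx] at hFz
        have h1 : p.eval x / q.eval x ≠ c := by
          intro h
          rw [h] at hFz
          exact hcP hFz
        have h2 : p.eval x - c * q.eval x ≠ 0 := by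
          intro h
          apply h1
          rw [div_eq_iff hqx]
          exact sub_eq_zero.mp h
        refine ⟨hne' h2, Finset.mem_image.mpr ⟨_, hFz, ?_⟩⟩
        show (p.eval x / q.eval x - c)⁻¹ = _
        rw [div_sub' hqx, inv_div, mul_comm (q.eval x) c]
  exact ⟨_, _, P.image (phc c), pc_degree _ _ _, hq'd, hco', hst,
    Finset.card_image_of_injOn hinj, fun h => conj_transfer d p q hp hq c h⟩

/-- preperiodic points lie in finite stable sets -/
theorem prePer_of_stable {A : Type u} (F : A → A) (B : ℕ)
    (h : ∀ P : Finset A, (∀ z ∈ P, F z ∈ P) → P.card ≤ B) :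
    {z : A | (Set.range fun m : ℕ => F^[m] z).Finite}.encard ≤ (B : ℕ∞) := by
  classical
  by_contra hcon
  push Not at hcon
  obtain ⟨T, hTs, hT⟩ := Set.exists_subset_encard_eq (Order.add_one_le_of_lt hcon)
  have hTf : T.Finite := by
    apply Set.finite_of_encard_eq_coe (k := B + 1)
    rw [hT]
    norm_cast
  have h1 : (⋃ z ∈ T, Set.range fun m : ℕ => F^[m] z).Finite :=
    hTf.biUnion fun z hz => hTs hz
  have h2 := h h1.toFinset (by
    intro z hz
    rw [Set.Finite.mem_toFinset, Set.mem_iUnion₂] at hz ⊢
    obtain ⟨w, hw, m, hm⟩ := hz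
    refine ⟨w, hw, m + 1, ?_⟩
    simp only at hm ⊢
    rw [Function.iterate_succ_apply', hm])
  have h3 : hTf.toFinset ⊆ h1.toFinset := by
    intro z hz
    rw [Set.Finite.mem_toFinset] at hz ⊢
    rw [Set.mem_iUnion₂]
    exact ⟨z, hz, 0, rfl⟩
  have h4 := Finset.card_le_card h3
  have h5 : (hTf.toFinset.card : ℕ∞) = B + 1 := by
    rw [← hT, hTf.encard_eq_coe_toFinset_card]
  have h6 : hTf.toFinset.card = B + 1 := by exact_mod_cast h5
  omega

lemma ratP1_map {K L : Type*} [Field K] [Field L] (φ : K →+* L) (p q : Polynomial K) (d : ℕ)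
    (z : Option K) : ratP1 (p.map φ) (q.map φ) d (z.map φ) = (ratP1 p q d z).map φ := by
  rcases z with _ | x
  · by_cases h : q.coeff d = 0
    · rw [ratP1_none0 p q d h]
      exact ratP1_none0 _ _ d (by rw [coeff_map, h, map_zero])
    · rw [ratP1_none p q d h]
      have h1 : (q.map φ).coeff d ≠ 0 := by
        rw [coeff_map]
        exact (map_ne_zero φ).mpr h
      have h2 := ratP1_none (p.map φ) (q.map φ) d h1
      rw [coeff_map, coeff_map, ← map_div₀] at h2
      exact h2
  · by_cases h : q.eval x = 0
    · rw [ratP1_some0 p q d x h]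
      exact ratP1_some0 _ _ d _ (by rw [eval_map_apply, h, map_zero])
    · rw [ratP1_some p q d x h]
      have h1 : (q.map φ).eval (φ x) ≠ 0 := by
        rw [eval_map_apply]
        exact (map_ne_zero φ).mpr h
      have h2 := ratP1_some (p.map φ) (q.map φ) d (φ x) h1
      rw [eval_map_apply, eval_map_apply, ← map_div₀] at h2
      exact h2

end Pool.Agent.TH951.P
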