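import Pool.Agent.TH951.P.Lev1

/-!
# Few levels
-/

namespace Pool.Agent.TH951.P

open Pool.Agent.TH951.W.UB Pool.Agent.TH951.W.UG Pool.Agent.TH951.W.UH Finset Polynomial

universe u

variable {k : Type*} {K : Type u} [Field k] [Field K] [Algebra k K] [DecidableEq K]

/-- the iteration depth in the energy bound -/
noncomputable def NN (d : ℕ) : ℕ := (2 * nn d + 2) * (128 * d * (d + 1) * q₀ d)

/-- the size needed in the last level -/
noncomputable def N₃ (d : ℕ) : ℕ := 2 * q₀ d + d ^ (2 * NN d) + (3 * d + 4)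

variable (p : ℕ) [hp : Fact p.Prime] [CharP K p] [ExpChar K p]

theorem chain_conj [Infinite k] (Q : PlaceData k K) (d : ℕ) (hd : 2 ≤ d) (e a₀ : ℕ)
    (ha₀ : nn d * (Q.lossT.toNat + 1) < p ^ a₀)
    (p₁ q₁' : Polynomial K) (hp₁ : p₁.natDegree ≤ d) (hq₁ : q₁'.natDegree = d)
    (hco : IsCoprime p₁ q₁') (P P₁ : Finset K)
    (hP : ∀ z ∈ P, (q₁'.map (iterateFrobenius K p e)).eval z ≠ 0 ∧
      (p₁.map (iterateFrobenius K p e)).eval z / (q₁'.map (iterateFrobenius K p e)).eval z ∈ P)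
    (hP₁ : ∀ z ∈ P₁, q₁'.eval z ≠ 0 ∧ p₁.eval z / q₁'.eval z ∈ P₁)
    (hPP : ∀ y ∈ P₁, iterateFrobenius K p e y ∈ P) (hcard : N₃ d ≤ P₁.card)
    (i : Fin (nn d) → ℕ) (x' : Fin (nn d) → K) (hi : ∀ j, i j + a₀ ≤ e)
    (hij : ∀ j j', j' < j → i j < i j') (hx' : ∀ j, Q.D (x' j) ≠ 0)
    (hxP : ∀ j, x' j ^ p ^ i j ∈ P) : ConjConst k p₁ q₁' d := by
  classical
  set φ := iterateFrobenius K p e with hφ
  set pp := p₁.map φ with hpp
  set qq := q₁'.map φ with hqq
  have hordφ : ∀ v x, x ≠ 0 → Q.ord v (φ x) = (p ^ e : ℕ) * Q.ord v x := fun v x hx =>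
    ord_frob p Q v e x hx
  have hdR : (2 : ℝ) ≤ d := by exact_mod_cast hd
  have hd0 : (0 : ℝ) < d := by linarith
  have hpp' : pp.natDegree ≤ d := natDegree_map_le.trans hp₁
  have hqq' : qq.natDegree = d := by rw [hqq, natDegree_map, hq₁]
  have hco' : IsCoprime pp qq := by
    obtain ⟨u, w, h⟩ := hco
    refine ⟨u.map φ, w.map φ, ?_⟩
    rw [hpp, hqq, ← Polynomial.map_mul, ← Polynomial.map_mul, ← Polynomial.map_add, h,
      Polynomial.map_one]
  have hres := res_ne d pp qq hpp' hqq' (by omega) hco'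
  set r := resultant qq pp d d with hr
  set fz : K → K := fun z => pp.eval z / qq.eval z with hfz
  have hf : ∀ z ∈ P, fz z ∈ P := fun z hz => (hP z hz).2
  have hq0 : 1 ≤ q₀ d := by
    unfold q₀
    have : 0 < d ^ 6 := by positivity
    apply Nat.one_le_iff_ne_zero.mpr
    positivity
  have hq0R : (1 : ℝ) ≤ q₀ d := by exact_mod_cast hq0
  have hc1 : 2 * q₀ d ≤ P₁.card := by
    unfold N₃ at hcard
    omega
  have hc2 : (d : ℝ) ^ (2 * NN d) ≤ P₁.card := by
    unfold N₃ at hcard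
    have : d ^ (2 * NN d) ≤ P₁.card := by omega
    exact_mod_cast this
  set E : Finset K := insert r (P.image qq.eval ∪ (P.offDiag.image fun w => w.1 - w.2) ∪
    Finset.univ.image fun j => Q.D (x' j)) with hE
  set S : Finset Q.Pl := Q.lossS ∪ E.biUnion (fun x => if h : x ≠ 0 then (Q.fin x h).toFinset
    else ∅) with hS
  have hSE : ∀ v, v ∉ S → ∀ x ∈ E, x ≠ 0 → Q.ord v x = 0 := by
    intro v hv x hx hx0
    by_contra h
    apply hv
    rw [hS, Finset.mem_union]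
    right
    rw [Finset.mem_biUnion]
    refine ⟨x, hx, ?_⟩
    rw [dif_pos hx0, Set.Finite.mem_toFinset]
    exact h
  have hrE : r ∈ E := Finset.mem_insert_self _ _
  have hqE : ∀ z ∈ P, qq.eval z ∈ E := fun z hz => Finset.mem_insert_of_mem
    (Finset.mem_union_left _ (Finset.mem_union_left _ (Finset.mem_image_of_mem _ hz)))
  have hxE : ∀ x ∈ P, ∀ y ∈ P, x ≠ y → x - y ∈ E := fun x hx y hy hxy =>
    Finset.mem_insert_of_mem (Finset.mem_union_left _ (Finset.mem_union_right _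
      (Finset.mem_image.mpr ⟨(x, y), Finset.mem_offDiag.mpr ⟨hx, hy, hxy⟩, rfl⟩)))
  have hDE : ∀ j, Q.D (x' j) ∈ E := fun j => Finset.mem_insert_of_mem (Finset.mem_union_right _
      (Finset.mem_image.mpr ⟨j, Finset.mem_univ _, rfl⟩))
  choose a ha using fun v => exists_a d hd P fz hf (fun z => (Q.ord v (qq.eval z) : ℝ))
  set ρ : Q.Pl → ℝ := fun v => (Q.ord v r : ℝ) / (d * ((d : ℝ) - 1)) with hρ
  have hL : ∀ v, Nonempty (LD2 Q v φ (p ^ e) d P P₁ (a v) (ρ v)) := fun v =>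
    exists_LD2 Q v φ (p ^ e) (hordφ v) d hd p₁ q₁' hp₁ hq₁ hco P P₁ hP hP₁ hPP (a v) (ha v) (ρ v)
      rfl
  let L : ∀ v, LD2 Q v φ (p ^ e) d P P₁ (a v) (ρ v) := fun v => Classical.choice (hL v)
  have hS1 : ∀ v, v ∉ S → ∀ x ∈ P, ∀ y ∈ P, x ≠ y → Q.ord v (x - y) = 0 :=
    fun v hv x hx y hy hxy => hSE v hv _ (hxE x hx y hy hxy) (sub_ne_zero.mpr hxy)
  have hS2 : ∀ v, v ∉ S → (∀ x ∈ P, a v x = 0) ∧ ρ v = 0 := by
    intro v hv
    constructor
    · apply stable_zero d hd P fz hf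
      intro z hz
      rw [ha v z hz, hSE v hv _ (hqE z hz) (hP z hz).1]
      simp
    · simp only [hρ]
      rw [hSE v hv r hrE hres]
      simp
  have hS3 : Q.lossS ⊆ S := Finset.subset_union_left
  have hwa : ∀ x ∈ P, ∑ v ∈ S, (Q.wt v : ℝ) * a v x = 0 := by
    apply stable_zero d hd P fz hf (fun x => ∑ v ∈ S, (Q.wt v : ℝ) * a v x)
    intro z hz
    have h1 := prod_zero Q S (qq.eval z) (hP z hz).1
      (fun v hv => hSE v hv _ (hqE z hz) (hP z hz).1)
    have h2 : ∑ v ∈ S, (Q.wt v : ℝ) * (Q.ord v (qq.eval z) : ℝ) = 0 := by exact_mod_cast h1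
    have h3 : (d : ℝ) * ∑ v ∈ S, (Q.wt v : ℝ) * a v z =
        ∑ v ∈ S, (Q.wt v : ℝ) * (Q.ord v (qq.eval z) : ℝ) +
          ∑ v ∈ S, (Q.wt v : ℝ) * a v (fz z) := by
      rw [Finset.mul_sum, ← Finset.sum_add_distrib]
      apply Finset.sum_congr rfl
      intro v _
      have := ha v z hz
      linear_combination (Q.wt v : ℝ) * this
    rw [h3, h2, zero_add]
  have hwρ : ∑ v ∈ S, (Q.wt v : ℝ) * ρ v = 0 := by
    have h1 := prod_zero Q S r hres (fun v hv => hSE v hv _ hrE hres)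
    have h2 : ∑ v ∈ S, (Q.wt v : ℝ) * (Q.ord v r : ℝ) = 0 := by exact_mod_cast h1
    have h3 : ∑ v ∈ S, (Q.wt v : ℝ) * ρ v =
        (∑ v ∈ S, (Q.wt v : ℝ) * (Q.ord v r : ℝ)) / (d * ((d : ℝ) - 1)) := by
      rw [Finset.sum_div]
      apply Finset.sum_congr rfl
      intro v _
      simp only [hρ]
      ring
    rw [h3, h2, zero_div]
  have hwt : ∀ v, (0 : ℝ) ≤ Q.wt v := fun v => by exact_mod_cast Q.wt_nonneg v
  have hwt1 : ∀ v, (1 : ℝ) ≤ Q.wt v := fun v => by exact_mod_cast Q.wt_one v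
  have hpair : ∀ x ∈ P, ∀ y ∈ P, x ≠ y → ∑ v ∈ S, (Q.wt v : ℝ) * GG Q v (a v) (ρ v) x y = 0 := by
    intro x hx y hy hxy
    have h1 := prod_zero Q S (x - y) (sub_ne_zero.mpr hxy) fun v hv => hS1 v hv x hx y hy hxy
    have h2 : ∑ v ∈ S, (Q.wt v : ℝ) * (Q.ord v (x - y) : ℝ) = 0 := by exact_mod_cast h1
    have h3 : ∀ v, (Q.wt v : ℝ) * GG Q v (a v) (ρ v) x y = (Q.wt v : ℝ) * (Q.ord v (x - y) : ℝ) -
        (Q.wt v : ℝ) * a v x - (Q.wt v : ℝ) * a v y + (Q.wt v : ℝ) * ρ v := by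
      intro v
      unfold GG
      ring
    simp_rw [h3]
    rw [Finset.sum_add_distrib, Finset.sum_sub_distrib, Finset.sum_sub_distrib, h2, hwa x hx,
      hwa y hy, hwρ]
    ring
  have hGG0 : ∀ v, v ∉ S → ∀ x ∈ P, ∀ y ∈ P, x ≠ y → GG Q v (a v) (ρ v) x y = 0 := by
    intro v hv x hx y hy hxy
    unfold GG
    rw [hS1 v hv x hx y hy hxy, (hS2 v hv).1 x hx, (hS2 v hv).1 y hy, (hS2 v hv).2]
    simp
  have hφne : ∀ y y' : K, y ≠ y' → φ y ≠ φ y' := fun y y' h h' => h (φ.injective h')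
  -- resultants vanish outside S
  have hR0S : ∀ v, v ∉ S → (L v).R = 0 := by
    intro v hv
    by_contra hne
    have hR1 : 1 ≤ (L v).R := Nat.one_le_iff_ne_zero.mpr hne
    obtain ⟨χ, hχ⟩ := (L v).hC0 hR1
    obtain ⟨x, hx, y, hy, hxy, hc⟩ := Finset.exists_ne_map_eq_of_card_lt_of_maps_to
      (s := P₁) (t := (Finset.univ : Finset (Fin (q₀ d)))) (f := χ) (by
        rw [Finset.card_univ, Fintype.card_fin]
        omega) (fun _ _ => Finset.mem_univ _)
    have h1 := hχ x hx y hy hxy hc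
    rw [hGG0 v hv _ (hPP x hx) _ (hPP y hy) (hφne x y hxy)] at h1
    have h2 : (0 : ℝ) < ((L v).R : ℝ) / (8 * d * (d + 1)) := by
      have : (0 : ℝ) < (L v).R := by exact_mod_cast hR1
      positivity
    linarith
  -- the total resultant
  set H : ℝ := ∑ v ∈ S, (Q.wt v : ℝ) * (L v).R with hH
  have hH0 : 0 ≤ H := Finset.sum_nonneg fun v _ => mul_nonneg (hwt v) (Nat.cast_nonneg _)
  by_cases hHz : H = 0
  · -- everywhere good
    have hR0 : ∀ v, (L v).R = 0 := by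
      intro v
      by_cases hv : v ∈ S
      · have h1 := (Finset.sum_eq_zero_iff_of_nonneg (fun v _ => mul_nonneg (hwt v)
          (Nat.cast_nonneg _))).mp hHz v hv
        rcases mul_eq_zero.mp h1 with h2 | h2
        · have := hwt1 v
          linarith
        · exact_mod_cast h2
      · exact hR0S v hv
    have hGGz : ∀ v, ∀ x ∈ P, ∀ y ∈ P, x ≠ y → GG Q v (a v) (ρ v) x y = 0 := by
      intro v x hx y hy hxy
      by_cases hv : v ∈ S
      · have h1 := (Finset.sum_eq_zero_iff_of_nonneg (fun v _ => mul_nonneg (hwt v)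
          ((L v).GG_good (hordφ v) (hR0 v) hx hy hxy))).mp (hpair x hx y hy hxy) v hv
        rcases mul_eq_zero.mp h1 with h2 | h2
        · have := hwt1 v
          linarith
        · exact h2
      · exact hGG0 v hv x hx y hy hxy
    apply conj_of_cross p₁ q₁' d hp₁ hq₁ hd hco P₁ hP₁ P₁ (Finset.Subset.refl _)
    · intro x0 h0 x1 h1 x2 h2 x hx h01 h02 h12 hx2 hx0
      have n1 := sub_ne_zero.mpr hx0
      have n2 := sub_ne_zero.mpr h12
      have n3 := sub_ne_zero.mpr hx2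
      have n4 := sub_ne_zero.mpr h01.symm
      apply Q.const _ (div_ne_zero (mul_ne_zero n1 n2) (mul_ne_zero n3 n4))
      intro v
      rw [PlaceData.ord_div (mul_ne_zero n1 n2) (mul_ne_zero n3 n4), Q.ord_mul v _ _ n1 n2,
        Q.ord_mul v _ _ n3 n4]
      have g1 := hGGz v _ (hPP x hx) _ (hPP x0 h0) (hφne _ _ hx0)
      have g2 := hGGz v _ (hPP x1 h1) _ (hPP x2 h2) (hφne _ _ h12)
      have g3 := hGGz v _ (hPP x hx) _ (hPP x2 h2) (hφne _ _ hx2)
      have g4 := hGGz v _ (hPP x1 h1) _ (hPP x0 h0) (hφne _ _ h01.symm)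
      unfold GG at g1 g2 g3 g4
      rw [← map_sub, hordφ v _ n1] at g1
      rw [← map_sub, hordφ v _ n2] at g2
      rw [← map_sub, hordφ v _ n3] at g3
      rw [← map_sub, hordφ v _ n4] at g4
      push_cast at g1 g2 g3 g4
      have hpe : (0 : ℝ) < (p : ℝ) ^ e := by
        have : (0 : ℝ) < p := by exact_mod_cast hp.out.pos
        positivity
      have g5 : (p : ℝ) ^ e * ((Q.ord v (x - x0) : ℝ) + Q.ord v (x1 - x2) -
          (Q.ord v (x - x2) + Q.ord v (x1 - x0))) = 0 := by linarith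
      have g5' := (mul_eq_zero.mp g5).resolve_left hpe.ne'
      have g6 : Q.ord v (x - x0) + Q.ord v (x1 - x2) -
          (Q.ord v (x - x2) + Q.ord v (x1 - x0)) = 0 := by exact_mod_cast g5'
      omega
    · rw [Finset.sdiff_self, Finset.card_empty, mul_zero, zero_add]
      unfold N₃ at hcard
      omega
  -- the main case
  exfalso
  have hHpos : 0 < H := lt_of_le_of_ne hH0 (Ne.symm hHz)
  set n : ℝ := (P₁.card : ℝ) with hn
  have hnpos : 0 < n := by
    have : 0 < P₁.card := by omega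
    rw [hn]
    exact_mod_cast this
  set En : Q.Pl → ℝ := fun v => ∑ y ∈ P₁, ∑ y' ∈ P₁, if y = y' then 0 else
      GG Q v (a v) (ρ v) (φ y) (φ y') with hEn
  have hEsum : ∑ v ∈ S, (Q.wt v : ℝ) * En v = 0 := by
    simp only [hEn, Finset.mul_sum]
    rw [Finset.sum_comm]
    apply Finset.sum_eq_zero
    intro y hy
    rw [Finset.sum_comm]
    apply Finset.sum_eq_zero
    intro y' hy'
    by_cases h : y = y'
    · simp [h]
    · simp only [if_neg h]
      exact hpair _ (hPP y hy) _ (hPP y' hy') (hφne _ _ h)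
  set κ : ℝ := 1 / (8 * d * (d + 1)) with hκdef
  have hκpos : 0 < κ := by positivity
  set Dis := S.filter fun v => ¬ (En v < (L v).R / (8 * d * (d + 1)) * n ^ 2 / (4 * q₀ d)) with hDis
  set Hd : ℝ := ∑ v ∈ Dis, (Q.wt v : ℝ) * (L v).R with hHd
  have hHd0 : 0 ≤ Hd := Finset.sum_nonneg fun v _ => mul_nonneg (hwt v) (Nat.cast_nonneg _)
  have hDN : (0 : ℝ) < (d : ℝ) ^ (NN d) := by positivity
  -- few dishonest places
  have hdis : κ / (4 * q₀ d) * Hd ≤ 4 / (d : ℝ) ^ (NN d) * H := by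
    have h1 : ∀ v ∈ S, (if v ∈ Dis then (Q.wt v : ℝ) * (κ / (4 * q₀ d) * n ^ 2 * (L v).R) else 0) -
        (Q.wt v : ℝ) * (4 / (d : ℝ) ^ (NN d) * n ^ 2 * (L v).R) ≤ (Q.wt v : ℝ) * En v := by
      intro v hv
      have h0 : 0 ≤ (Q.wt v : ℝ) * (4 / (d : ℝ) ^ (NN d) * n ^ 2 * (L v).R) :=
        mul_nonneg (hwt v) (by positivity)
      by_cases h : v ∈ Dis
      · rw [if_pos h]
        have h2 := not_lt.mp (Finset.mem_filter.mp h).2
        have h3 : ((L v).R : ℝ) / (8 * d * (d + 1)) * n ^ 2 / (4 * q₀ d) =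
            κ / (4 * q₀ d) * n ^ 2 * (L v).R := by
          rw [hκdef]
          ring
        rw [h3] at h2
        have h4 := mul_le_mul_of_nonneg_left h2 (hwt v)
        linarith
      · rw [if_neg h]
        have h2 := (L v).hE (NN d) hc2
        have h3 : -(4 * (P₁.card : ℝ) ^ 2 * (L v).R / (d : ℝ) ^ (NN d)) =
            -(4 / (d : ℝ) ^ (NN d) * n ^ 2 * (L v).R) := by
          rw [hn]
          ring
        rw [h3] at h2
        have h4 := mul_le_mul_of_nonneg_left h2 (hwt v)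
        have h5 : (Q.wt v : ℝ) * -(4 / (d : ℝ) ^ (NN d) * n ^ 2 * (L v).R) =
            -((Q.wt v : ℝ) * (4 / (d : ℝ) ^ (NN d) * n ^ 2 * (L v).R)) := by ring
        rw [h5] at h4
        linarith
    have h2 := Finset.sum_le_sum h1
    rw [hEsum, Finset.sum_sub_distrib] at h2
    have h3 : ∑ v ∈ S, (if v ∈ Dis then (Q.wt v : ℝ) * (κ / (4 * q₀ d) * n ^ 2 * (L v).R) else 0) =
        κ / (4 * q₀ d) * n ^ 2 * Hd := by
      rw [← Finset.sum_filter, hHd, Finset.mul_sum]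
      have h4 : S.filter (fun v => v ∈ Dis) = Dis := by
        ext v
        rw [Finset.mem_filter]
        constructor
        · exact fun h => h.2
        · exact fun h => ⟨(Finset.mem_filter.mp h).1, h⟩
      rw [h4]
      apply Finset.sum_congr rfl
      intro v _
      ring
    have h4 : ∑ v ∈ S, (Q.wt v : ℝ) * (4 / (d : ℝ) ^ (NN d) * n ^ 2 * (L v).R) =
        4 / (d : ℝ) ^ (NN d) * n ^ 2 * H := by
      rw [hH, Finset.mul_sum]
      apply Finset.sum_congr rfl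
      intro v _
      ring
    rw [h3, h4] at h2
    have h5 : (κ / (4 * q₀ d) * Hd) * n ^ 2 ≤ (4 / (d : ℝ) ^ (NN d) * H) * n ^ 2 := by linarith
    exact le_of_mul_le_mul_right h5 (by positivity)
  have hdis2 : (2 * (nn d : ℝ) + 2) * Hd ≤ H := by
    have h1 : (NN d : ℝ) ≤ (d : ℝ) ^ (NN d) := by
      have h2 : NN d < d ^ (NN d) := Nat.lt_pow_self (by omega)
      exact_mod_cast h2.le
    have h2 : (NN d : ℝ) = (2 * nn d + 2) * (128 * d * (d + 1) * q₀ d) := by
      unfold NN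
      push_cast
      rfl
    have h3 : Hd ≤ (128 * d * (d + 1) * q₀ d) / (d : ℝ) ^ (NN d) * H := by
      have h4 : κ / (4 * q₀ d) * Hd = Hd / (32 * d * (d + 1) * q₀ d) := by
        rw [hκdef]
        field_simp
        ring
      rw [h4, div_le_iff₀ (by positivity)] at hdis
      refine hdis.trans (le_of_eq ?_)
      ring
    have h4 : (2 * (nn d : ℝ) + 2) * Hd ≤
        (2 * (nn d : ℝ) + 2) * ((128 * d * (d + 1) * q₀ d) / (d : ℝ) ^ (NN d) * H) :=
      mul_le_mul_of_nonneg_left h3 (by positivity)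
    refine h4.trans ?_
    have h5 : (2 * (nn d : ℝ) + 2) * ((128 * d * (d + 1) * q₀ d) / (d : ℝ) ^ (NN d) * H) =
        (NN d : ℝ) / (d : ℝ) ^ (NN d) * H := by
      rw [h2]
      ring
    rw [h5]
    have h6 : (NN d : ℝ) / (d : ℝ) ^ (NN d) ≤ 1 := by
      rw [div_le_one hDN]
      exact h1
    nlinarith
  -- sum over the chain
  have hie : ∀ j, i j < e := by
    intro j
    have h1 := hi j
    have h2 : a₀ ≠ 0 := by
      rintro rfl
      rw [pow_zero] at ha₀
      have h3 : 0 < nn d := by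
        have := j.2
        omega
      have h4 : 0 < nn d * (Q.lossT.toNat + 1) := Nat.mul_pos h3 (by omega)
      omega
    omega
  have hp0 : (0 : ℝ) < p := by exact_mod_cast hp.out.pos
  have hp1 : (1 : ℝ) ≤ p := by exact_mod_cast hp.out.one_le
  set B : ℝ := (p : ℝ) ^ e / (p : ℝ) ^ a₀ with hB
  have hB0 : 0 < B := by positivity
  have hBi : ∀ j, ((p ^ i j : ℕ) : ℝ) ≤ B := by
    intro j
    rw [hB, le_div_iff₀ (by positivity)]
    push_cast
    rw [← pow_add]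
    exact pow_le_pow_right₀ hp1 (hi j)
  have hEv0 : ∀ j, ∑ v ∈ S, (Q.wt v : ℝ) * Ev Q v (a v) (ρ v) p (i j) (x' j) = 0 := by
    intro j
    have h1 := prod_zero Q S (Q.D (x' j)) (hx' j) fun v hv => hSE v hv _ (hDE j) (hx' j)
    have h2 : ∑ v ∈ S, (Q.wt v : ℝ) * (Q.ord v (Q.D (x' j)) : ℝ) = 0 := by exact_mod_cast h1
    have h3 : ∀ v, (Q.wt v : ℝ) * Ev Q v (a v) (ρ v) p (i j) (x' j) =
        (p ^ i j : ℕ) * ((Q.wt v : ℝ) * (Q.ord v (Q.D (x' j)) : ℝ)) -
        2 * ((Q.wt v : ℝ) * a v (x' j ^ p ^ i j)) + (Q.wt v : ℝ) * ρ v := by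
      intro v
      unfold Ev
      ring
    simp_rw [h3]
    rw [Finset.sum_add_distrib, Finset.sum_sub_distrib, ← Finset.mul_sum, ← Finset.mul_sum, h2,
      hwa _ (hxP j), hwρ]
    ring
  have hEvs : ∑ v ∈ S, (Q.wt v : ℝ) * ∑ j, Ev Q v (a v) (ρ v) p (i j) (x' j) = 0 := by
    simp only [Finset.mul_sum]
    rw [Finset.sum_comm]
    apply Finset.sum_eq_zero
    intro j _
    exact hEv0 j
  have hloss0 : ∀ v, (0 : ℝ) ≤ Q.loss v := fun v => by exact_mod_cast Q.loss_nonneg v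
  set Bd := S.filter fun v => 1 ≤ (L v).R with hBd
  have hplace : ∀ v ∈ S, 2 * ((Q.wt v : ℝ) * (L v).R) -
      (2 * nn d + 2) * (if v ∈ Dis then (Q.wt v : ℝ) * (L v).R else 0) -
      nn d * B * ((Q.wt v : ℝ) * Q.loss v + if v ∈ Bd then (Q.wt v : ℝ) else 0) ≤
      (Q.wt v : ℝ) * ∑ j, Ev Q v (a v) (ρ v) p (i j) (x' j) := by
    intro v hv
    have hRn : (0 : ℝ) ≤ (L v).R := Nat.cast_nonneg _
    have hnB : 0 ≤ nn d * B := by positivity
    have hgen : -(nn d * B * Q.loss v) - 2 * nn d * (L v).R ≤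
        ∑ j, Ev Q v (a v) (ρ v) p (i j) (x' j) := by
      have h1 : ∀ j ∈ (Finset.univ : Finset (Fin (nn d))), -(B * Q.loss v) - 2 * (L v).R ≤
          Ev Q v (a v) (ρ v) p (i j) (x' j) := by
        intro j _
        have h3 := Ev_lower1 p hd (L v) (i j) (hie j) (x' j) (hx' j) (hxP j)
        have h5 : ((p ^ i j : ℕ) : ℝ) * Q.loss v ≤ B * Q.loss v :=
          mul_le_mul_of_nonneg_right (hBi j) (hloss0 v)
        linarith
      have h2 := Finset.card_nsmul_le_sum _ _ _ h1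
      rw [Finset.card_univ, Fintype.card_fin, nsmul_eq_mul] at h2
      linarith
    by_cases hb : v ∈ Bd
    · rw [if_pos hb]
      have hR1 := (Finset.mem_filter.mp hb).2
      by_cases hds : v ∈ Dis
      · rw [if_pos hds]
        have h1 := mul_le_mul_of_nonneg_left hgen (hwt v)
        have h2 : 0 ≤ nn d * B * (Q.wt v : ℝ) := mul_nonneg hnB (hwt v)
        nlinarith
      · rw [if_neg hds]
        have hsm : En v < (L v).R / (8 * d * (d + 1)) * n ^ 2 / (4 * q₀ d) := by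
          by_contra hcon
          exact hds (Finset.mem_filter.mpr ⟨hv, hcon⟩)
        obtain ⟨χ, hχ⟩ := (L v).hC hR1 hc1 hsm
        have h1 := honest_ineq p hd (L v) χ hχ i x' B hBi hie hij hx' hxP
        have h2 := mul_le_mul_of_nonneg_left h1 (hwt v)
        linarith
    · rw [if_neg hb]
      have hR0 : (L v).R = 0 := by
        by_contra hne
        exact hb (Finset.mem_filter.mpr ⟨hv, Nat.one_le_iff_ne_zero.mpr hne⟩)
      have h1 := mul_le_mul_of_nonneg_left hgen (hwt v)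
      rw [hR0] at h1 ⊢
      simp only [Nat.cast_zero, mul_zero, ite_self, sub_zero, add_zero] at h1 ⊢
      linarith
  have hsum := Finset.sum_le_sum hplace
  rw [hEvs, Finset.sum_sub_distrib, Finset.sum_sub_distrib, ← Finset.mul_sum, ← Finset.mul_sum,
    ← Finset.mul_sum, Finset.sum_add_distrib, ← hH] at hsum
  have e1 : ∑ v ∈ S, (if v ∈ Dis then (Q.wt v : ℝ) * (L v).R else 0) = Hd := by
    rw [← Finset.sum_filter, hHd]
    congr 1
    ext v
    rw [Finset.mem_filter]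
    constructor
    · exact fun h => h.2
    · exact fun h => ⟨(Finset.mem_filter.mp h).1, h⟩
  have e2 : ∑ v ∈ S, (Q.wt v : ℝ) * Q.loss v ≤ Q.lossT.toNat := by
    have h1 : ∑ v ∈ S, Q.wt v * Q.loss v = ∑ v ∈ Q.lossS, Q.wt v * Q.loss v := by
      symm
      apply Finset.sum_subset hS3
      intro v _ hv
      rw [Q.loss_supp v hv, mul_zero]
    have h2 : ∑ v ∈ S, Q.wt v * Q.loss v ≤ Q.lossT.toNat :=
      (h1.le.trans Q.loss_sum).trans (Int.self_le_toNat _)
    exact_mod_cast h2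
  have e3 : ∑ v ∈ S, (if v ∈ Bd then (Q.wt v : ℝ) else 0) * (p : ℝ) ^ e ≤ H := by
    rw [hH]
    apply Finset.sum_le_sum
    intro v hv
    by_cases hb : v ∈ Bd
    · rw [if_pos hb]
      have hR1 := (Finset.mem_filter.mp hb).2
      have h1 : p ^ e ≤ (L v).R := Nat.le_of_dvd hR1 (L v).hdvd
      have h2 : (p : ℝ) ^ e ≤ (L v).R := by exact_mod_cast h1
      exact mul_le_mul_of_nonneg_left h2 (hwt v)
    · rw [if_neg hb, zero_mul]
      exact mul_nonneg (hwt v) (Nat.cast_nonneg _)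
  rw [← Finset.sum_mul] at e3
  have e4 : (p : ℝ) ^ e ≤ H := by
    -- there is a bad place
    obtain ⟨v, hv, hvne⟩ : ∃ v ∈ S, (L v).R ≠ 0 := by
      by_contra hcon
      push Not at hcon
      apply hHz
      rw [hH]
      apply Finset.sum_eq_zero
      intro v hv
      rw [hcon v hv]
      simp
    have h1 : p ^ e ≤ (L v).R := Nat.le_of_dvd (Nat.pos_of_ne_zero hvne) (L v).hdvd
    have h2 : (p : ℝ) ^ e ≤ (L v).R := by exact_mod_cast h1
    have h3 : (Q.wt v : ℝ) * (L v).R ≤ H := by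
      rw [hH]
      exact Finset.single_le_sum (f := fun v => (Q.wt v : ℝ) * (L v).R)
        (fun v _ => mul_nonneg (hwt v) (Nat.cast_nonneg _)) hv
    have h4 := hwt1 v
    have h5 : (0 : ℝ) ≤ (L v).R := Nat.cast_nonneg _
    nlinarith
  rw [e1] at hsum
  set WB : ℝ := ∑ v ∈ S, (if v ∈ Bd then (Q.wt v : ℝ) else 0) with hWB
  set WL : ℝ := ∑ v ∈ S, (Q.wt v : ℝ) * Q.loss v with hWL
  set lT : ℝ := (Q.lossT.toNat : ℝ) with hlT
  have hlT0 : 0 ≤ lT := Nat.cast_nonneg _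
  have e5 : H ≤ nn d * B * (WL + WB) := by linarith
  have hpe : (0 : ℝ) < (p : ℝ) ^ e := by positivity
  have hpa : (0 : ℝ) < (p : ℝ) ^ a₀ := by positivity
  have e6 : H * (p : ℝ) ^ a₀ ≤ nn d * (lT * H + H) := by
    have h1 : H * (p : ℝ) ^ a₀ ≤ nn d * B * (WL + WB) * (p : ℝ) ^ a₀ :=
      mul_le_mul_of_nonneg_right e5 hpa.le
    have h2 : nn d * B * (WL + WB) * (p : ℝ) ^ a₀ = nn d * (WL * (p : ℝ) ^ e + WB * (p : ℝ) ^ e) := by
      rw [hB]
      field_simp
    rw [h2] at h1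
    refine h1.trans ?_
    apply mul_le_mul_of_nonneg_left _ (Nat.cast_nonneg _)
    have h3 : WL * (p : ℝ) ^ e ≤ lT * H := by
      calc WL * (p : ℝ) ^ e ≤ lT * (p : ℝ) ^ e := mul_le_mul_of_nonneg_right e2 hpe.le
        _ ≤ lT * H := mul_le_mul_of_nonneg_left e4 hlT0
    linarith
  have e7 : (nn d : ℝ) * (lT + 1) < (p : ℝ) ^ a₀ := by
    rw [hlT]
    exact_mod_cast ha₀
  have e8 : nn d * (lT * H + H) = (nn d * (lT + 1)) * H := by ring
  rw [e8] at e6
  have e9 := mul_lt_mul_of_pos_right e7 hHpos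
  linarith

end Pool.Agent.TH951.P
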