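import Pool.Agent.TH951.W.UH.F1

/-!
# Conjugation by a Moebius map without pole on a stable set
-/

namespace Pool.Agent.TH951.P

open Pool.Agent.TH951.W.UB Pool.Agent.TH951.W.UG Pool.Agent.TH951.W.UH Finset Polynomial

section

variable {K : Type*} [Field K]

/-- the inverse affine map -/
noncomputable def La (lam ν : K) : Polynomial K := C lam⁻¹ * (X - C ν)

/-- the conjugate numerator -/
noncomputable def cP (d : ℕ) (s m lam ν : K) (p q : Polynomial K) : Polynomial K :=
  C s * (C lam * (pc d q m).comp (La lam ν) + C ν * (pc d (p - C m * q) m).comp (La lam ν))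

/-- the conjugate denominator -/
noncomputable def cQ (d : ℕ) (s m lam ν : K) (p q : Polynomial K) : Polynomial K :=
  C s * (pc d (p - C m * q) m).comp (La lam ν)

/-- the Moebius map -/
noncomputable def mb (m lam ν x : K) : K := ν + lam / (x - m)

lemma mb_inj {m lam ν x y : K} (hlam : lam ≠ 0) (hx : x ≠ m) (hy : y ≠ m)
    (h : mb m lam ν x = mb m lam ν y) : x = y := by
  unfold mb at h
  have h1 : lam / (x - m) = lam / (y - m) := add_left_cancel h
  have hx0 := sub_ne_zero.mpr hx
  have hy0 := sub_ne_zero.mpr hy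
  rw [div_eq_div_iff hx0 hy0] at h1
  have h2 := mul_left_cancel₀ hlam h1
  have h3 : y = x := sub_left_inj.mp h2
  exact h3.symm

lemma La_degree (lam ν : K) (hlam : lam ≠ 0) : (La lam ν).natDegree = 1 := by
  unfold La
  rw [natDegree_C_mul (inv_ne_zero hlam), natDegree_X_sub_C]

lemma La_eval (lam ν y : K) : (La lam ν).eval y = lam⁻¹ * (y - ν) := by
  unfold La
  simp

lemma pq_degree {d : ℕ} {p q : Polynomial K} (hp : p.natDegree ≤ d) (hq : q.natDegree ≤ d) (m : K) :
    (p - C m * q).natDegree ≤ d :=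
  (natDegree_sub_le _ _).trans (max_le hp ((natDegree_C_mul_le _ _).trans hq))

lemma den_degree {d : ℕ} {p q : Polynomial K} (hp : p.natDegree ≤ d)
    (hq : q.natDegree ≤ d) {m : K} (hm : p.eval m ≠ m * q.eval m) :
    (pc d (p - C m * q) m).natDegree = d := by
  apply le_antisymm (pc_degree _ _ _)
  apply le_natDegree_of_ne_zero
  rw [pc_coeff d _ (pq_degree hp hq m)]
  simp only [eval_sub, eval_mul, eval_C]
  exact sub_ne_zero.mpr hm

lemma cQ_degree {d : ℕ} {p q : Polynomial K} (hp : p.natDegree ≤ d)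
    (hq : q.natDegree ≤ d) {s m lam ν : K} (hs : s ≠ 0) (hlam : lam ≠ 0)
    (hm : p.eval m ≠ m * q.eval m) : (cQ d s m lam ν p q).natDegree = d := by
  unfold cQ
  rw [natDegree_C_mul hs, natDegree_comp, La_degree lam ν hlam, mul_one, den_degree hp hq hm]

lemma cP_degree {d : ℕ} {p q : Polynomial K} {s m lam ν : K} (hlam : lam ≠ 0) :
    (cP d s m lam ν p q).natDegree ≤ d := by
  unfold cP
  refine (natDegree_C_mul_le _ _).trans ((natDegree_add_le _ _).trans (max_le ?_ ?_))
  · refine (natDegree_C_mul_le _ _).trans ?_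
    rw [natDegree_comp, La_degree lam ν hlam, mul_one]
    exact pc_degree _ _ _
  · refine (natDegree_C_mul_le _ _).trans ?_
    rw [natDegree_comp, La_degree lam ν hlam, mul_one]
    exact pc_degree _ _ _

lemma c_coprime {d : ℕ} (hd : 1 ≤ d) {p q : Polynomial K} (hp : p.natDegree ≤ d)
    (hq : q.natDegree = d) (hco : IsCoprime p q) {s m lam ν : K} (hs : s ≠ 0) (hlam : lam ≠ 0) :
    IsCoprime (cP d s m lam ν p q) (cQ d s m lam ν p q) := by
  have hq0 : q ≠ 0 := by
    rintro rfl
    rw [natDegree_zero] at hq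
    omega
  have h1 := pc_coprime d hd p q hp hq.le hco (Or.inr (by
    rw [← hq]
    exact leadingCoeff_ne_zero.mpr hq0)) m
  have h2 : IsCoprime ((pc d q m).comp (La lam ν)) ((pc d (p - C m * q) m).comp (La lam ν)) := by
    have := h1.map (compRingHom (La lam ν))
    exact this
  unfold cP cQ
  have hsu : IsUnit (C s : Polynomial K) := isUnit_C.mpr (isUnit_iff_ne_zero.mpr hs)
  have hlu : IsUnit (C lam : Polynomial K) := isUnit_C.mpr (isUnit_iff_ne_zero.mpr hlam)
  rw [isCoprime_mul_unit_left_left hsu, isCoprime_mul_unit_left_right hsu]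
  apply IsCoprime.add_mul_right_left
  rw [isCoprime_mul_unit_left_left hlu]
  exact h2

lemma c_eval {d : ℕ} {p q : Polynomial K} (hp : p.natDegree ≤ d)
    (hq : q.natDegree ≤ d) {s m lam ν : K} (hs : s ≠ 0) (hlam : lam ≠ 0) {x : K} (hx : x ≠ m)
    (hqx : q.eval x ≠ 0) (hfx : p.eval x / q.eval x ≠ m) :
    (cQ d s m lam ν p q).eval (mb m lam ν x) ≠ 0 ∧
      (cP d s m lam ν p q).eval (mb m lam ν x) / (cQ d s m lam ν p q).eval (mb m lam ν x) =
        mb m lam ν (p.eval x / q.eval x) := by
  have hx0 : x - m ≠ 0 := sub_ne_zero.mpr hx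
  have hL : (La lam ν).eval (mb m lam ν x) = (x - m)⁻¹ := by
    rw [La_eval]
    unfold mb
    field_simp
    ring
  have e1 := pc_eval_inv d q hq m x hx
  have e2 := pc_eval_inv d (p - C m * q) (pq_degree hp hq m) m x hx
  rw [eval_sub, eval_mul, eval_C] at e2
  have hne : p.eval x - m * q.eval x ≠ 0 := by
    intro h
    apply hfx
    rw [div_eq_iff hqx]
    exact sub_eq_zero.mp h
  have hpc : (pc d (p - C m * q) m).eval (x - m)⁻¹ ≠ 0 := by
    intro h
    rw [h, mul_zero] at e2
    exact hne e2.symm
  have hQ : (cQ d s m lam ν p q).eval (mb m lam ν x) =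
      s * (pc d (p - C m * q) m).eval (x - m)⁻¹ := by
    unfold cQ
    rw [eval_mul, eval_C, eval_comp, hL]
  have hPe : (cP d s m lam ν p q).eval (mb m lam ν x) =
      s * (lam * (pc d q m).eval (x - m)⁻¹ + ν * (pc d (p - C m * q) m).eval (x - m)⁻¹) := by
    unfold cP
    simp only [eval_mul, eval_C, eval_comp, eval_add, hL]
  refine ⟨by rw [hQ]; exact mul_ne_zero hs hpc, ?_⟩
  rw [hQ, hPe]
  have hpow : (x - m) ^ d ≠ 0 := pow_ne_zero _ hx0
  have e3 : (pc d q m).eval (x - m)⁻¹ = q.eval x / (x - m) ^ d := by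
    rw [eq_div_iff hpow, mul_comm]
    exact e1
  have e4 : (pc d (p - C m * q) m).eval (x - m)⁻¹ = (p.eval x - m * q.eval x) / (x - m) ^ d := by
    rw [eq_div_iff hpow, mul_comm]
    exact e2
  rw [e3, e4]
  unfold mb
  have e5 : p.eval x / q.eval x - m = (p.eval x - m * q.eval x) / q.eval x := by
    field_simp
  rw [e5]
  have key : ∀ W A B D : K, W ≠ 0 → A ≠ 0 → D ≠ 0 →
      s * (lam * (B / D) + ν * (W / D)) / (s * (W / D)) = ν + lam / (W / B) := by
    intro W A B D h1 h2 h3
    by_cases hB : B = 0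
    · rw [hB]
      field_simp
      ring
    · field_simp
      ring
  exact key _ _ _ _ hne one_ne_zero hpow

lemma hev_map' {L : Type*} [Field L] (φ : K →+* L) (d : ℕ) (p : Polynomial K) (X : K × K) :
    hev d (p.map φ) (φ X.1, φ X.2) = φ (hev d p X) := by
  unfold hev
  rw [map_sum]
  apply Finset.sum_congr rfl
  intro i _
  simp

lemma hc_map {L : Type*} [Field L] (φ : K →+* L) (n : ℕ) (A p q : Polynomial K) :
    hc n (A.map φ) (p.map φ) (q.map φ) = (hc n A p q).map φ := by
  unfold hc hev
  rw [Polynomial.map_sum]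
  apply Finset.sum_congr rfl
  intro i _
  simp

lemma pc_map {L : Type*} [Field L] (φ : K →+* L) (d : ℕ) (q : Polynomial K) (c : K) :
    pc d (q.map φ) (φ c) = (pc d q c).map φ := by
  unfold pc
  rw [← hc_map]
  simp

lemma La_map {L : Type*} [Field L] (φ : K →+* L) (lam ν : K) :
    La (φ lam) (φ ν) = (La lam ν).map φ := by
  unfold La
  simp

lemma cQ_map {L : Type*} [Field L] (φ : K →+* L) (d : ℕ) (s m lam ν : K) (p q : Polynomial K) :
    cQ d (φ s) (φ m) (φ lam) (φ ν) (p.map φ) (q.map φ) = (cQ d s m lam ν p q).map φ := by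
  unfold cQ
  rw [La_map, Polynomial.map_mul, map_comp, ← pc_map]
  simp

lemma cP_map {L : Type*} [Field L] (φ : K →+* L) (d : ℕ) (s m lam ν : K) (p q : Polynomial K) :
    cP d (φ s) (φ m) (φ lam) (φ ν) (p.map φ) (q.map φ) = (cP d s m lam ν p q).map φ := by
  unfold cP
  rw [La_map]
  simp only [Polynomial.map_mul, Polynomial.map_add, map_comp, ← pc_map, Polynomial.map_sub,
    map_C]

end

variable {k K : Type*} [Field k] [Field K] [Algebra k K]

lemma hc_comp (d : ℕ) (A : Polynomial K) (u v w : Polynomial K) :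
    (hc d A u v).comp w = hc d A (u.comp w) (v.comp w) := by
  have h : ∀ g : Polynomial K, g.comp w = compRingHom w g := fun _ => rfl
  unfold hc hev
  rw [h, map_sum]
  apply Finset.sum_congr rfl
  intro i _
  simp [← h]

/-- **Transfer of isotriviality.** -/
lemma conj_back [Infinite K] {d : ℕ} {p q : Polynomial K} (hp : p.natDegree ≤ d)
    (hq : q.natDegree ≤ d) {s m lam ν : K} (hs : s ≠ 0) (hlam : lam ≠ 0)
    (h : ConjConst k (cP d s m lam ν p q) (cQ d s m lam ν p q) d) : ConjConst k p q d := by
  apply conj_transfer d p q hp hq m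
  obtain ⟨a, b, c, e, hdet, u, w, hne, hu, hw, hid⟩ := h
  refine ⟨a * lam, a * ν + b, c * lam, c * ν + e, ?_, u, w, hne, hu, hw, ?_⟩
  · intro h0
    have : lam * (a * e - b * c) = 0 := by linear_combination h0
    rcases mul_eq_zero.mp this with h1 | h1
    · exact hlam h1
    · exact hdet h1
  · have h1 := congrArg (fun g : Polynomial K => g.comp (C lam * X + C ν)) hid
    simp only [mul_comp] at h1
    rw [hc_comp, hc_comp] at h1
    have hLc : (La lam ν).comp (C lam * X + C ν) = X := by
      unfold La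
      simp only [mul_comp, C_comp, sub_comp, X_comp]
      have : C lam⁻¹ * (C lam * X + C ν - C ν) = C (lam⁻¹ * lam) * X := by
        rw [C_mul]
        ring
      rw [this, inv_mul_cancel₀ hlam, C_1, one_mul]
    have hcP : (cP d s m lam ν p q).comp (C lam * X + C ν) =
        C s * (C lam * pc d q m + C ν * pc d (p - C m * q) m) := by
      unfold cP
      simp only [mul_comp, C_comp, add_comp, comp_assoc, hLc, comp_X]
    have hcQ : (cQ d s m lam ν p q).comp (C lam * X + C ν) =
        C s * pc d (p - C m * q) m := by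
      unfold cQ
      simp only [mul_comp, C_comp, comp_assoc, hLc, comp_X]
    simp only [add_comp, mul_comp, C_comp, X_comp, hcP, hcQ] at h1
    have e1 : C a * (C lam * X + C ν) + C b = C (a * lam) * X + C (a * ν + b) := by
      simp only [C_mul, C_add]
      ring
    have e2 : C c * (C lam * X + C ν) + C e = C (c * lam) * X + C (c * ν + e) := by
      simp only [C_mul, C_add]
      ring
    rw [e1, e2] at h1
    have hsC : (C s : Polynomial K) ≠ 0 := C_ne_zero.mpr hs
    apply mul_left_cancel₀ hsC
    simp only [C_mul, C_add] at h1 ⊢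
    linear_combination h1

/-- constant conjugates and ring homomorphisms -/
lemma conjConst_frob (p : ℕ) [Fact p.Prime] [CharP k p] [CharP K p] [ExpChar k p] [ExpChar K p]
    {d : ℕ} {P Q : Polynomial K} (h : ConjConst k P Q d) :
    ConjConst k (P.map (frobenius K p)) (Q.map (frobenius K p)) d := by
  obtain ⟨a, b, c, e, hdet, u, w, hne, hu, hw, hid⟩ := h
  set φ := frobenius K p with hφ
  refine ⟨φ a, φ b, φ c, φ e, ?_, u.map (frobenius k p), w.map (frobenius k p), ?_,
    natDegree_map_le.trans hu, natDegree_map_le.trans hw, ?_⟩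
  · rw [← map_mul, ← map_mul, ← map_sub]
    exact (map_ne_zero φ).mpr hdet
  · rcases hne with h | h
    · left
      exact (Polynomial.map_ne_zero_iff (frobenius k p).injective).mpr h
    · right
      exact (Polynomial.map_ne_zero_iff (frobenius k p).injective).mpr h
  · have h1 := congrArg (fun g : Polynomial K => g.map φ) hid
    simp only [Polynomial.map_mul] at h1
    have hcomm : φ.comp (algebraMap k K) = (algebraMap k K).comp (frobenius k p) := by
      ext x
      simp [hφ, frobenius_def]
    have e1 : ∀ g : Polynomial k, (g.map (frobenius k p)).map (algebraMap k K) =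
        (g.map (algebraMap k K)).map φ := by
      intro g
      rw [Polynomial.map_map, Polynomial.map_map, hcomm]
    rw [e1, e1]
    rw [← hc_map, ← hc_map] at h1
    simp only [Polynomial.map_add, Polynomial.map_mul, map_C, map_X] at h1
    exact h1

end Pool.Agent.TH951.P
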