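import Pool.Agent.TH951.P.Asm

/-!
# The compositum with an algebraic closure of the constant field
-/

namespace Pool.Agent.TH951.P

open Pool.Agent.TH951.W.UB Pool.Agent.TH951.W.UG Pool.Agent.TH951.W.UH Finset Polynomial
open IntermediateField

universe u v

section

variable (k : Type v) (K : Type u) [Field k] [Field K] [Algebra k K]

/-- the constants -/
noncomputable abbrev EE : IntermediateField k (AlgebraicClosure K) := algebraicClosure k (AlgebraicClosure K)

/-- the compositum -/
noncomputable abbrev LL : IntermediateField (EE k K) (AlgebraicClosure K) :=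
  IntermediateField.adjoin (EE k K) (Set.range (algebraMap K (AlgebraicClosure K)))

/-- the inclusion -/
noncomputable def phi : K →+* LL k K :=
  (algebraMap K (AlgebraicClosure K)).codRestrict (LL k K).toSubfield fun x =>
    IntermediateField.subset_adjoin _ _ ⟨x, rfl⟩

lemma phi_val (x : K) : ((phi k K x : LL k K) : AlgebraicClosure K) =
    algebraMap K (AlgebraicClosure K) x := rfl

lemma phi_alg (c : k) : phi k K (algebraMap k K c) =
    algebraMap (EE k K) (LL k K) (algebraMap k (EE k K) c) := by
  apply Subtype.ext
  rw [phi_val]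
  exact (IsScalarTower.algebraMap_apply k K (AlgebraicClosure K) c).symm

lemma adjoin_phi : IntermediateField.adjoin (EE k K) (Set.range (phi k K)) = ⊤ := by
  apply IntermediateField.lift_injective
  rw [IntermediateField.lift_adjoin, IntermediateField.lift_top]
  congr 1
  ext y
  constructor
  · rintro ⟨_, ⟨x, rfl⟩, rfl⟩
    exact ⟨x, rfl⟩
  · rintro ⟨x, rfl⟩
    exact ⟨phi k K x, ⟨x, rfl⟩, rfl⟩

/-- elements of `K` mapped into an intermediate field -/
noncomputable def cmp (M : IntermediateField (EE k K) (LL k K)) : IntermediateField k K :=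
  { (M.toSubfield.comap (phi k K)) with
    algebraMap_mem' := by
      intro c
      show phi k K (algebraMap k K c) ∈ M
      rw [phi_alg]
      exact M.algebraMap_mem _ }

lemma mem_cmp (M : IntermediateField (EE k K) (LL k K)) (x : K) :
    x ∈ cmp k K M ↔ phi k K x ∈ M := Iff.rfl

lemma gen_top (S : Set K) (hS : IntermediateField.adjoin k S = ⊤)
    (M : IntermediateField (EE k K) (LL k K)) (hM : ∀ x ∈ S, phi k K x ∈ M) : M = ⊤ := by
  rw [eq_top_iff, ← adjoin_phi k K, IntermediateField.adjoin_le_iff]
  rintro _ ⟨x, rfl⟩
  have h1 : IntermediateField.adjoin k S ≤ cmp k K M := by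
    rw [IntermediateField.adjoin_le_iff]
    intro y hy
    exact hM y hy
  rw [hS] at h1
  exact h1 IntermediateField.mem_top

lemma LL_fg (hFG : (⊤ : IntermediateField k K).FG) :
    (⊤ : IntermediateField (EE k K) (LL k K)).FG := by
  classical
  obtain ⟨T, hT⟩ := hFG
  refine ⟨T.image (phi k K), ?_⟩
  apply gen_top k K (T : Set K) hT
  intro x hx
  apply IntermediateField.subset_adjoin
  rw [Finset.coe_image]
  exact ⟨x, hx, rfl⟩

lemma LL_rat (h : ∃ t : K, IntermediateField.adjoin k {t} = ⊤) :
    ∃ t : LL k K, IntermediateField.adjoin (EE k K) {t} = ⊤ := by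
  obtain ⟨t, ht⟩ := h
  refine ⟨phi k K t, gen_top k K {t} ht _ ?_⟩
  intro x hx
  rw [Set.mem_singleton_iff] at hx
  rw [hx]
  exact IntermediateField.mem_adjoin_simple_self _ _

lemma LL_trans (hx : ∃ x : K, Transcendental k x ∧
      Algebra.IsAlgebraic (IntermediateField.adjoin k {x}) K) :
    ∃ x : LL k K, Transcendental (EE k K) x ∧
      Algebra.IsAlgebraic (IntermediateField.adjoin (EE k K) {x}) (LL k K) := by
  obtain ⟨x, hxt, hxa⟩ := hx
  refine ⟨phi k K x, ?_, ?_⟩
  · intro h
    apply hxt
    have h1 : IsAlgebraic (EE k K) (algebraMap (LL k K) (AlgebraicClosure K) (phi k K x)) :=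
      h.algebraMap
    have h2 : IsAlgebraic k (algebraMap K (AlgebraicClosure K) x) := by
      have h3 : algebraMap (LL k K) (AlgebraicClosure K) (phi k K x) =
        algebraMap K (AlgebraicClosure K) x := rfl
      rw [h3] at h1
      exact h1.restrictScalars k
    exact (isAlgebraic_algebraMap_iff (algebraMap K (AlgebraicClosure K)).injective).mp h2
  · set F := IntermediateField.adjoin (EE k K) {phi k K x} with hF
    -- the homomorphism from `k(x)` to `F`
    have hle : IntermediateField.adjoin k {x} ≤ cmp k K F := by
      rw [IntermediateField.adjoin_le_iff]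
      intro y hy
      rw [Set.mem_singleton_iff] at hy
      rw [hy]
      exact IntermediateField.mem_adjoin_simple_self _ _
    let j : IntermediateField.adjoin k {x} →+* F :=
      ((phi k K).comp (algebraMap (IntermediateField.adjoin k {x}) K)).codRestrict F.toSubfield
        fun z => hle z.2
    have hj : ∀ z : IntermediateField.adjoin k {x}, algebraMap F (LL k K) (j z) =
        phi k K (algebraMap (IntermediateField.adjoin k {x}) K z) := fun z => rfl
    have halg : ∀ y : K, IsAlgebraic F (phi k K y) := by
      intro y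
      obtain ⟨g, hg0, hg⟩ := hxa.isAlgebraic y
      refine ⟨g.map j, (Polynomial.map_ne_zero_iff j.injective).mpr hg0, ?_⟩
      have h1 : (algebraMap F (LL k K)).comp j =
          (phi k K).comp (algebraMap (IntermediateField.adjoin k {x}) K) := by
        ext z
        rw [RingHom.comp_apply, hj]
        rfl
      rw [aeval_def, eval₂_map, h1, ← hom_eval₂]
      rw [aeval_def] at hg
      rw [hg, map_zero]
    have htop : (algebraicClosure F (LL k K)).restrictScalars (EE k K) = ⊤ := by
      apply gen_top k K Set.univ (by
        rw [eq_top_iff]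
        intro y _
        exact IntermediateField.subset_adjoin _ _ (Set.mem_univ y))
      intro y _
      rw [IntermediateField.mem_restrictScalars]
      exact mem_algebraicClosure_iff.mpr (halg y)
    refine ⟨fun z => ?_⟩
    have h1 : z ∈ (algebraicClosure F (LL k K)).restrictScalars (EE k K) := by
      rw [htop]
      exact IntermediateField.mem_top
    rw [IntermediateField.mem_restrictScalars] at h1
    exact mem_algebraicClosure_iff.mp h1

end

/-- isotriviality over the algebraic closure, with denominators cleared -/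
def IsoBar (k : Type*) {K : Type*} [Field k] [Field K] [Algebra k K] (p q : K[X]) (d : ℕ) : Prop :=
  ∃ a b c e : K, a * e - b * c ≠ 0 ∧ ∃ u w : K[X], (u ≠ 0 ∨ w ≠ 0) ∧
    u.natDegree ≤ d ∧ w.natDegree ≤ d ∧ (∀ n, IsAlgebraic k (u.coeff n)) ∧
    (∀ n, IsAlgebraic k (w.coeff n)) ∧
    (C a * p + C b * q) * ∑ i ∈ Finset.range (d + 1),
      C (w.coeff i) * (C a * X + C b) ^ i * (C c * X + C e) ^ (d - i) =
    (C c * p + C e * q) * ∑ i ∈ Finset.range (d + 1),
      C (u.coeff i) * (C a * X + C b) ^ i * (C c * X + C e) ^ (d - i)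

theorem isoBar_of_conj (k : Type v) (K : Type u) [Field k] [Field K] [Algebra k K] (p q : K[X])
    (d : ℕ) (h : ConjConst (EE k K) (p.map (phi k K)) (q.map (phi k K)) d) :
    IsoBar k (p.map (algebraMap K (AlgebraicClosure K)))
      (q.map (algebraMap K (AlgebraicClosure K))) d := by
  obtain ⟨a, b, c, e, hdet, u, w, hne, hu, hw, hid⟩ := h
  have hinj := (algebraMap (EE k K) (AlgebraicClosure K)).injective
  set ψ := algebraMap (LL k K) (AlgebraicClosure K) with hψ
  have hpm : ∀ g : K[X], (g.map (phi k K)).map ψ = g.map (algebraMap K (AlgebraicClosure K)) := by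
    intro g
    rw [Polynomial.map_map]
    rfl
  have hum : ∀ g : Polynomial (EE k K), (g.map (algebraMap (EE k K) (LL k K))).map ψ =
      g.map (algebraMap (EE k K) (AlgebraicClosure K)) := by
    intro g
    rw [Polynomial.map_map]
    rfl
  refine ⟨ψ a, ψ b, ψ c, ψ e, ?_, u.map (algebraMap _ _), w.map (algebraMap _ _), ?_,
    natDegree_map_le.trans hu, natDegree_map_le.trans hw, fun n => ?_, fun n => ?_, ?_⟩
  · rw [← map_mul, ← map_mul, ← map_sub]
    exact (map_ne_zero ψ).mpr hdet
  · rcases hne with h | h
    · exact Or.inl ((Polynomial.map_ne_zero_iff hinj).mpr h)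
    · exact Or.inr ((Polynomial.map_ne_zero_iff hinj).mpr h)
  · rw [coeff_map]
    exact mem_algebraicClosure_iff.mp (u.coeff n).2
  · rw [coeff_map]
    exact mem_algebraicClosure_iff.mp (w.coeff n).2
  · have h1 := congrArg (fun g => g.map ψ) hid
    simp only [Polynomial.map_mul] at h1
    rw [← hc_map, ← hc_map, hum, hum] at h1
    simp only [Polynomial.map_add, Polynomial.map_mul, map_C, map_X, hpm] at h1
    unfold hc hev at h1
    simp only [coeff_map (f := (C : AlgebraicClosure K →+* _))] at h1
    exact h1

end Pool.Agent.TH951.P
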