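import Pool.Agent.TH951.P.LD2
import Pool.Agent.TH951.P.Ker

/-!
# Derivative bounds in Frobenius coordinates
-/

namespace Pool.Agent.TH951.P

open Pool.Agent.TH951.W.UB Pool.Agent.TH951.W.UG Pool.Agent.TH951.W.UH Finset Polynomial

universe u

variable {k : Type*} {K : Type u} [Field k] [Field K] [Algebra k K]

lemma giK_one (U V : K × K) (z : K) : giK U V (z, 1) =
    ((wd U V)⁻¹ * (z * V.2 - V.1), (wd U V)⁻¹ * (U.1 - U.2 * z)) := by
  unfold giK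
  congr 2 <;> unfold wd <;> ring

/-- derivative and Wronskian -/
lemma D_eq_wr {D : Derivation k K K} {U V : K × K} (hUV : wd U V ≠ 0) (hU1 : D U.1 = 0)
    (hU2 : D U.2 = 0) (hV1 : D V.1 = 0) (hV2 : D V.2 = 0) (y : K) :
    D y = -(wd U V * ((giK U V (y, 1)).1 * D (giK U V (y, 1)).2 -
      (giK U V (y, 1)).2 * D (giK U V (y, 1)).1)) := by
  have hW : D (wd U V) = 0 := by
    unfold wd
    simp [Derivation.leibniz, hU1, hU2, hV1, hV2]
  have hWi : D (wd U V)⁻¹ = 0 := by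
    have h1 := D.leibniz (wd U V) (wd U V)⁻¹
    rw [mul_inv_cancel₀ hUV, Derivation.map_one_eq_zero, hW, smul_zero, add_zero, smul_eq_mul] at h1
    rcases mul_eq_zero.mp h1.symm with h | h
    · exact absurd h hUV
    · exact h
  rw [giK_one]
  simp only [Derivation.leibniz, map_sub, hU1, hU2, hV1, hV2, hWi, smul_eq_mul, mul_zero, zero_add,
    sub_zero, add_zero, zero_sub]
  have h' : wd U V = U.1 * V.2 - U.2 * V.1 := rfl
  have h2 : wd U V * (wd U V)⁻¹ = 1 := mul_inv_cancel₀ hUV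
  set w := (wd U V)⁻¹ with hw
  have key : ∀ W w u1 u2 v1 v2 y y' : K, W = u1 * v2 - u2 * v1 → W * w = 1 →
      y' = -(W * (w * (y * v2 - v1) * (w * -(u2 * y')) - w * (u1 - u2 * y) * (w * (v2 * y')))) := by
    intro W w u1 u2 v1 v2 y y' e1 e2
    have e3 : -(W * (w * (y * v2 - v1) * (w * -(u2 * y')) - w * (u1 - u2 * y) * (w * (v2 * y')))) =
        (W * w) * w * (u1 * v2 - u2 * v1) * y' := by ring
    rw [e3, ← e1, e2, one_mul, mul_comm w W, e2, one_mul]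
  exact key _ _ _ _ _ _ _ _ h' h2

lemma wr1 {Q : PlaceData k K} {v : Q.Pl} {Z : K × K} {m : ℤ} (hZ : Mo Q v Z m) :
    Q.G v (2 * m - Q.loss v) (Z.1 * Q.D Z.2 - Z.2 * Q.D Z.1) := by
  obtain ⟨h1, h2, h3⟩ := hZ
  have key : ∀ x y : K, x ≠ 0 → Q.ord v x = m → Q.G v m y →
      Q.G v (2 * m - Q.loss v) (x * Q.D y - y * Q.D x) := by
    intro x y hx hm hy
    have hr : Q.G v 0 (y / x) := by
      intro h
      have hy0 : y ≠ 0 := by
        rintro rfl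
        simp at h
      rw [PlaceData.ord_div hy0 hx]
      have := hy hy0
      omega
    have h4 := PlaceData.G_D' (Q := Q) 1 hr
    have h5 : x * Q.D y - y * Q.D x = x ^ 2 * Q.D (y / x) := by
      have h6 : y = x * (y / x) := by field_simp
      conv_lhs => rw [h6]
      simp only [Derivation.leibniz, smul_eq_mul]
      ring
    rw [h5]
    have h6 : Q.G v (2 * m) (x ^ 2) := by
      have := PlaceData.G_pow (PlaceData.G_self (Q := Q) (v := v) (x := x)) 2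
      rw [hm] at this
      exact_mod_cast this
    have h7 := PlaceData.G_mul h6 h4
    refine PlaceData.G_mono h7 ?_
    push_cast
    linarith
  rcases h3 with ⟨h4, h5⟩ | ⟨h4, h5⟩
  · exact key _ _ h4 h5 h2
  · have h6 := PlaceData.G_neg (key _ _ h4 h5 h1)
    have h7 : -(Z.2 * Q.D Z.1 - Z.1 * Q.D Z.2) = Z.1 * Q.D Z.2 - Z.2 * Q.D Z.1 := by ring
    rwa [h7] at h6

lemma wr2 {Q : PlaceData k K} {v : Q.Pl} {Z Y : K × K} {m n s : ℤ} (hZ : Mo Q v Z m)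
    (hY : Mo Q v Y n) (hY1 : Q.D Y.1 = 0) (hY2 : Q.D Y.2 = 0) (hs : Q.G v s (wd Z Y)) :
    Q.G v (m + s - n - 1 - Q.loss v) (Z.1 * Q.D Z.2 - Z.2 * Q.D Z.1) := by
  obtain ⟨h1, h2, h3⟩ := hZ
  obtain ⟨g1, g2, g3⟩ := hY
  have hD : ∀ (r : ℤ) (x : K), Q.G v r x → Q.G v (r - 1 - Q.loss v) (Q.D x) := by
    intro r x hx
    have := PlaceData.G_D 1 hx
    refine PlaceData.G_mono this ?_
    push_cast
    linarith
  have hDδ : Q.D (wd Z Y) = Y.2 * Q.D Z.1 - Y.1 * Q.D Z.2 := by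
    unfold wd
    simp only [map_sub, Derivation.leibniz, smul_eq_mul, hY1, hY2]
    ring
  have hδ : wd Z Y = Z.1 * Y.2 - Z.2 * Y.1 := rfl
  have hd2 := hD _ _ hs
  have hdiv : ∀ (x y : K) (r : ℤ), y ≠ 0 → Q.ord v y = n → Q.G v r (y * x) → Q.G v (r - n) x := by
    intro x y r hy hn h hx
    have := h (mul_ne_zero hy hx)
    rw [Q.ord_mul v _ _ hy hx, hn] at this
    linarith
  rcases g3 with ⟨h4, h5⟩ | ⟨h4, h5⟩
  · have e1 : Y.1 * (Z.1 * Q.D Z.2 - Z.2 * Q.D Z.1) = wd Z Y * Q.D Z.1 - Z.1 * Q.D (wd Z Y) := by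
      rw [hDδ, hδ]
      ring
    have e2 : Q.G v (m + s - 1 - Q.loss v) (Y.1 * (Z.1 * Q.D Z.2 - Z.2 * Q.D Z.1)) := by
      rw [e1]
      apply PlaceData.G_sub
      · exact PlaceData.G_mono (PlaceData.G_mul hs (hD _ _ h1)) (by linarith)
      · exact PlaceData.G_mono (PlaceData.G_mul h1 hd2) (by linarith)
    exact PlaceData.G_mono (hdiv _ _ _ h4 h5 e2) (by linarith)
  · have e1 : Y.2 * (Z.1 * Q.D Z.2 - Z.2 * Q.D Z.1) = wd Z Y * Q.D Z.2 - Z.2 * Q.D (wd Z Y) := by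
      rw [hDδ, hδ]
      ring
    have e2 : Q.G v (m + s - 1 - Q.loss v) (Y.2 * (Z.1 * Q.D Z.2 - Z.2 * Q.D Z.1)) := by
      rw [e1]
      apply PlaceData.G_sub
      · exact PlaceData.G_mono (PlaceData.G_mul hs (hD _ _ h2)) (by linarith)
      · exact PlaceData.G_mono (PlaceData.G_mul h2 hd2) (by linarith)
    exact PlaceData.G_mono (hdiv _ _ _ h4 h5 e2) (by linarith)

variable (p : ℕ) [hp : Fact p.Prime] [CharP K p]

omit hp in
lemma ord_frob [ExpChar K p] (Q : PlaceData k K) (v : Q.Pl) (i : ℕ) (x : K) (hx : x ≠ 0) :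
    Q.ord v (iterateFrobenius K p i x) = (p ^ i : ℕ) * Q.ord v x := by
  rw [iterateFrobenius_def, PlaceData.ord_pow hx]

lemma Mo_fr [ExpChar K p] {Q : PlaceData k K} {v : Q.Pl} {i : ℕ} {Z : K × K} {n : ℤ}
    (h : Mo Q v (fr (iterateFrobenius K p i) Z) n) : ∃ m, n = (p ^ i : ℕ) * m ∧ Mo Q v Z m := by
  obtain ⟨h1, h2, h3⟩ := h
  have hpos : (0 : ℤ) < ((p ^ i : ℕ) : ℤ) := by
    exact_mod_cast pow_pos hp.out.pos i
  have key : ∀ (x : K) (m : ℤ), n = (p ^ i : ℕ) * m → Q.G v n (iterateFrobenius K p i x) →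
      Q.G v m x := by
    intro x m hm hx h0
    have h4 := hx ((_root_.map_ne_zero _).mpr h0)
    rw [ord_frob p Q v i x h0, hm] at h4
    exact le_of_mul_le_mul_left h4 hpos
  rcases h3 with ⟨h4, h5⟩ | ⟨h4, h5⟩
  · have h6 : Z.1 ≠ 0 := fun h => h4 (by show iterateFrobenius K p i Z.1 = 0; rw [h, map_zero])
    have h7 : n = (p ^ i : ℕ) * Q.ord v Z.1 := by
      rw [← h5]
      exact ord_frob p Q v i _ h6
    exact ⟨_, h7, key _ _ h7 h1, key _ _ h7 h2, Or.inl ⟨h6, rfl⟩⟩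
  · have h6 : Z.2 ≠ 0 := fun h => h4 (by show iterateFrobenius K p i Z.2 = 0; rw [h, map_zero])
    have h7 : n = (p ^ i : ℕ) * Q.ord v Z.2 := by
      rw [← h5]
      exact ord_frob p Q v i _ h6
    exact ⟨_, h7, key _ _ h7 h1, key _ _ h7 h2, Or.inr ⟨h6, rfl⟩⟩

omit hp [CharP K p] in
lemma giK_fr (ψ : K →+* K) (U V : K × K) (x : K) :
    giK (fr ψ U) (fr ψ V) (ψ x, 1) = fr ψ (giK U V (x, 1)) := by
  rw [giK_one, giK_one, wd_fr]
  unfold fr
  simp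

/-- **Derivative bounds.** -/
theorem der_bounds [ExpChar K p] [DecidableEq K] {Q : PlaceData k K} {v : Q.Pl} {e d : ℕ}
    {P P₁ : Finset K}
    {a : K → ℝ} {ρ : ℝ} (L : LD2 Q v (iterateFrobenius K p e) (p ^ e) d P P₁ a ρ) (i : ℕ)
    (hi : i < e) (x' : K) (hx' : Q.D x' ≠ 0) :
    (2 * L.nz (x' ^ p ^ i) + (p ^ e : ℕ) * Q.ord v (wd L.U L.V) - (p ^ i : ℕ) * Q.loss v ≤
      (p ^ i : ℕ) * Q.ord v (Q.D x')) ∧
    ∀ z' : K, x' ^ p ^ i ≠ z' ^ p ^ (i + 1) →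
      L.nz (x' ^ p ^ i) - L.nz (z' ^ p ^ (i + 1)) + Q.ord v (x' ^ p ^ i - z' ^ p ^ (i + 1)) -
        (p ^ i : ℕ) - (p ^ i : ℕ) * Q.loss v ≤ (p ^ i : ℕ) * Q.ord v (Q.D x') := by
  have hpos : (0 : ℤ) < ((p ^ i : ℕ) : ℤ) := by
    exact_mod_cast pow_pos hp.out.pos i
  obtain ⟨j, rfl⟩ : ∃ j, e = i + (j + 1) := ⟨e - i - 1, by omega⟩
  set ψ := iterateFrobenius K p (j + 1) with hψ
  set φi := iterateFrobenius K p i with hφi
  have hcomp : ∀ x, iterateFrobenius K p (i + (j + 1)) x = φi (ψ x) := by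
    intro x
    rw [hφi, hψ, iterateFrobenius_def, iterateFrobenius_def, iterateFrobenius_def, ← pow_mul,
      pow_add, mul_comm (p ^ i)]
  have hDψ : ∀ x, Q.D (ψ x) = 0 := by
    intro x
    rw [hψ, iterateFrobenius_def, pow_succ, pow_mul]
    exact D_pow_char p Q.D _
  have hfr : ∀ X : K × K, fr (iterateFrobenius K p (i + (j + 1))) X = fr φi (fr ψ X) := by
    intro X
    unfold fr
    rw [hcomp, hcomp]
  have hW' : wd (fr ψ L.U) (fr ψ L.V) ≠ 0 := by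
    rw [wd_fr]
    exact (_root_.map_ne_zero ψ).mpr L.hW
  have hordW : (p ^ i : ℕ) * Q.ord v (wd (fr ψ L.U) (fr ψ L.V)) =
      (p ^ (i + (j + 1)) : ℕ) * Q.ord v (wd L.U L.V) := by
    rw [wd_fr, hψ, ord_frob p Q v _ _ L.hW, ← mul_assoc]
    congr 1
    push_cast
    rw [← pow_add]
  have hgi : ∀ y : K, giK (fr (iterateFrobenius K p (i + (j + 1))) L.U)
      (fr (iterateFrobenius K p (i + (j + 1))) L.V) (y ^ p ^ i, 1) =
      fr φi (giK (fr ψ L.U) (fr ψ L.V) (y, 1)) := by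
    intro y
    rw [hfr, hfr]
    have h1 := giK_fr φi (fr ψ L.U) (fr ψ L.V) y
    rw [hφi, iterateFrobenius_def] at h1
    rw [hφi]
    exact h1
  set Z := giK (fr ψ L.U) (fr ψ L.V) (x', 1) with hZ
  have hMx := L.hnz (x' ^ p ^ i)
  rw [hgi, ← hZ] at hMx
  obtain ⟨m, hm, hMZ⟩ := Mo_fr p hMx
  have hDx := D_eq_wr hW' (hDψ _) (hDψ _) (hDψ _) (hDψ _) x'
  rw [← hZ] at hDx
  set Wr := Z.1 * Q.D Z.2 - Z.2 * Q.D Z.1 with hWr
  have hWr0 : Wr ≠ 0 := by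
    intro h
    rw [h, mul_zero, neg_zero] at hDx
    exact hx' hDx
  have hordD : Q.ord v (Q.D x') = Q.ord v (wd (fr ψ L.U) (fr ψ L.V)) + Q.ord v Wr := by
    rw [hDx, PlaceData.ord_neg (mul_ne_zero hW' hWr0), Q.ord_mul v _ _ hW' hWr0]
  constructor
  · have h1 := wr1 hMZ hWr0
    rw [← hWr] at h1
    rw [hordD, hm, ← hordW]
    nlinarith [mul_le_mul_of_nonneg_left h1 hpos.le]
  · intro z' hne
    set Y := giK (fr ψ L.U) (fr ψ L.V) (z' ^ p, 1) with hY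
    have hzp : z' ^ p ^ (i + 1) = (z' ^ p) ^ p ^ i := by
      rw [← pow_mul, pow_succ, mul_comm]
    rw [hzp] at hne ⊢
    have hMz := L.hnz ((z' ^ p) ^ p ^ i)
    rw [hgi, ← hY] at hMz
    obtain ⟨n, hn, hMY⟩ := Mo_fr p hMz
    have hDW : Q.D (wd (fr ψ L.U) (fr ψ L.V)) = 0 := by
      rw [wd_fr]
      exact hDψ _
    have hWi : Q.D (wd (fr ψ L.U) (fr ψ L.V))⁻¹ = 0 := by
      rw [wd_fr, ← map_inv₀]
      exact hDψ _
    have hDz : Q.D (z' ^ p) = 0 := D_pow_char p Q.D z'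
    have hU1 : Q.D (fr ψ L.U).1 = 0 := hDψ _
    have hU2 : Q.D (fr ψ L.U).2 = 0 := hDψ _
    have hV1 : Q.D (fr ψ L.V).1 = 0 := hDψ _
    have hV2 : Q.D (fr ψ L.V).2 = 0 := hDψ _
    have hY1 : Q.D Y.1 = 0 := by
      rw [hY, giK_one]
      simp [Derivation.leibniz, hWi, hDz, hV1, hV2]
    have hY2 : Q.D Y.2 = 0 := by
      rw [hY, giK_one]
      simp [Derivation.leibniz, hWi, hDz, hU1, hU2]
    have hxz : x' - z' ^ p = wd (fr ψ L.U) (fr ψ L.V) * wd Z Y := by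
      rw [← wd_gmK, hZ, hY, gmK_giK hW', gmK_giK hW']
      unfold wd
      ring
    have hxz0 : x' - z' ^ p ≠ 0 := by
      intro h
      apply hne
      rw [sub_eq_zero.mp h]
    have hδ : wd Z Y ≠ 0 := by
      intro h
      rw [h, mul_zero] at hxz
      exact hxz0 hxz
    have h1 := wr2 hMZ hMY hY1 hY2 (PlaceData.G_self (Q := Q) (v := v) (x := wd Z Y)) hWr0
    rw [← hWr] at h1
    have h2 : Q.ord v (x' ^ p ^ i - (z' ^ p) ^ p ^ i) = (p ^ i : ℕ) *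
        (Q.ord v (wd (fr ψ L.U) (fr ψ L.V)) + Q.ord v (wd Z Y)) := by
      have e1 : x' ^ p ^ i - (z' ^ p) ^ p ^ i = φi (x' - z' ^ p) := by
        rw [hφi, map_sub, iterateFrobenius_def, iterateFrobenius_def]
      rw [e1, hφi, ord_frob p Q v i _ hxz0, hxz, Q.ord_mul v _ _ hW' hδ]
    rw [h2, hordD, hm, hn]
    nlinarith [mul_le_mul_of_nonneg_left h1 hpos.le]

end Pool.Agent.TH951.P
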