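import Pool.Agent.TH951.P.Chain

/-!
# The bound for finite stable sets in positive characteristic
-/

namespace Pool.Agent.TH951.P

open Pool.Agent.TH951.W.UB Pool.Agent.TH951.W.UG Pool.Agent.TH951.W.UH Finset Polynomial

universe u v w

lemma ord_bound {k : Type*} {K : Type*} [Field k] [Field K] [Algebra k K] (Q : PlaceData k K)
    (x : K) (hx : x ≠ 0) : ∃ n : ℕ, ∀ v, (Q.ord v x).natAbs ≤ n := by
  refine ⟨(Q.fin x hx).toFinset.sup fun v => (Q.ord v x).natAbs, fun v => ?_⟩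
  by_cases h : Q.ord v x = 0
  · rw [h]
    simp
  · exact Finset.le_sup (f := fun v => (Q.ord v x).natAbs) ((Set.Finite.mem_toFinset _).mpr h)

lemma ord_bound_fin {k : Type*} {K : Type*} [Field k] [Field K] [Algebra k K] (Q : PlaceData k K)
    (X : Finset K) : ∃ n : ℕ, ∀ x ∈ X, x ≠ 0 → ∀ v, (Q.ord v x).natAbs ≤ n := by
  classical
  choose! f hf using fun x (hx : x ≠ 0) => ord_bound Q x hx
  exact ⟨X.sup f, fun x hx hx0 v => (hf x hx0 v).trans (Finset.le_sup hx)⟩

lemma lev_zero {K : Type*} [Field K] (p : ℕ) [ExpChar K p] (S : Finset K) : lev p S 0 = S := by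
  ext x
  rw [mem_lev]
  constructor
  · exact fun h => h.1
  · intro h
    refine ⟨h, x, ?_⟩
    rw [iterateFrobenius_zero]
    rfl

lemma lev_succ_sub {K : Type*} [Field K] (p : ℕ) [ExpChar K p] (S : Finset K) (i : ℕ) :
    lev p S (i + 1) ⊆ lev p S i := by
  intro x hx
  rw [mem_lev] at hx ⊢
  obtain ⟨h, y, hy⟩ := hx
  refine ⟨h, y ^ p, ?_⟩
  rw [← hy]
  rw [iterateFrobenius_def, iterateFrobenius_def, ← pow_mul, pow_succ, mul_comm]

lemma halving (f : ℕ → ℕ) (e : ℕ) (h : ∀ i < e, f i ≤ 2 * f (i + 1)) :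
    f 0 ≤ 2 ^ ((Finset.range e).filter fun i => f i ≠ f (i + 1)).card * f e := by
  induction e with
  | zero => simp
  | succ e ih =>
    have h1 := ih fun i hi => h i (by omega)
    rw [Finset.range_add_one, Finset.filter_insert]
    by_cases hne : f e ≠ f (e + 1)
    · rw [if_pos hne, Finset.card_insert_of_notMem (by simp)]
      calc f 0 ≤ 2 ^ ((Finset.range e).filter fun i => f i ≠ f (i + 1)).card * f e := h1
        _ ≤ 2 ^ ((Finset.range e).filter fun i => f i ≠ f (i + 1)).card * (2 * f (e + 1)) :=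
            Nat.mul_le_mul_left _ (h e (by omega))
        _ = _ := by rw [pow_succ]; ring
    · rw [if_neg hne]
      have hee : f e = f (e + 1) := not_not.mp hne
      rw [← hee]
      exact h1

/-- **Uniform boundedness for finite stable sets, characteristic `p`.** -/
theorem card_stable_p (d : ℕ) (hd : 2 ≤ d) : ∃ N : ℕ → ℕ,
    ∀ (k : Type v) (K : Type u) [Field k] [Infinite k] [Field K] [Algebra k K] [DecidableEq K]
    (p : ℕ) [Fact p.Prime] [CharP k p] [CharP K p]
    (Q : PlaceData.{w} k K), (∀ x, Q.D x = 0 → ∃ y, y ^ p = x) →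
    ∀ P₀ R₀ : Polynomial K, P₀.natDegree ≤ d → R₀.natDegree = d → IsCoprime P₀ R₀ →
    ∀ S₀ : Finset K, (∀ z ∈ S₀, R₀.eval z ≠ 0 ∧ P₀.eval z / R₀.eval z ∈ S₀) →
    ¬ ConjConst k P₀ R₀ d → S₀.card ≤ N Q.lossT.toNat := by
  classical
  obtain ⟨B, hB⟩ := card_stableU.{u, v, w} d hd
  refine ⟨fun ℓ => 2 ^ (nn d + nn d * (ℓ + 1)) *
    max (max B ((q₀ d) ^ (48 * d * (d + 1) * ℓ))) (2 * N₃ d + 2), ?_⟩
  intro k K _ _ _ _ _ p hpf _ _ Q hker P₀ R₀ hP₀ hR₀ hco₀ S₀ hS₀ hiso
  haveI : ExpChar k p := ExpChar.prime hpf.out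
  haveI : ExpChar K p := ExpChar.prime hpf.out
  haveI : Infinite K := Infinite.of_injective _ (algebraMap k K).injective
  set ℓ := Q.lossT.toNat with hℓ
  set B₁ := max (max B ((q₀ d) ^ (48 * d * (d + 1) * ℓ))) (2 * N₃ d + 2) with hB₁
  have hB₁a : max B ((q₀ d) ^ (48 * d * (d + 1) * ℓ)) ≤ B₁ := le_max_left _ _
  have hB₁b : 2 * N₃ d + 2 ≤ B₁ := le_max_right _ _
  set a₀ := nn d * (ℓ + 1) with ha₀
  by_contra hcon
  push Not at hcon
  have hbig : B₁ < S₀.card := by
    refine lt_of_le_of_lt ?_ hcon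
    exact Nat.le_mul_of_pos_left _ (by positivity)
  -- cross ratios
  set X : Finset K := ((S₀ ×ˢ S₀) ×ˢ (S₀ ×ˢ S₀)).image fun t => cr t.1.1 t.1.2 t.2.1 t.2.2 with hX
  obtain ⟨n₀, hn₀⟩ := ord_bound_fin Q X
  have hG0 : Good k p d P₀ R₀ S₀.card (X : Set K) 0 P₀ R₀ S₀ S₀ := by
    refine ⟨hP₀, hR₀, hco₀, hS₀, ?_, ?_, fun i hi => absurd hi (by omega), rfl, id, ?_⟩
    · rw [iterateFrobenius_zero, Polynomial.map_id, Polynomial.map_id]
      exact hS₀
    · intro y
      rw [iterateFrobenius_zero]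
      rfl
    · intro x0 h0 x1 h1 x2 h2 x h _ _
      rw [hX, Finset.mem_coe, Finset.mem_image]
      exact ⟨((x0, x1), (x2, x)), Finset.mem_product.mpr ⟨Finset.mem_product.mpr ⟨h0, h1⟩,
        Finset.mem_product.mpr ⟨h2, h⟩⟩, rfl⟩
  have hloop : ∀ e : ℕ, (∃ (e' : ℕ) (P R : Polynomial K) (S S' : Finset K),
      Good k p d P₀ R₀ S₀.card (X : Set K) e' P R S S' ∧ S'.card ≤ B₁ ∧ B₁ < 2 * S'.card) ∨
      ∃ (P R : Polynomial K) (S S' : Finset K),
      Good k p d P₀ R₀ S₀.card (X : Set K) e P R S S' ∧ B₁ < S'.card := by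
    intro e
    induction e with
    | zero => exact Or.inr ⟨P₀, R₀, S₀, S₀, hG0, hbig⟩
    | succ e ih =>
      rcases ih with h | ⟨P, R, S, S', G, hc⟩
      · exact Or.inl h
      · have hnc : ¬ ConjConst k P R d := fun h => hiso (G.hconj h)
        have hna : ¬ ∀ T ⊆ S', ∀ α β γ : K, (∀ x ∈ T, Q.D x = α * x ^ 2 + β * x + γ) →
            S'.card < (d + 1) * (S' \ T).card + (3 * d + 4) := by
          intro hna
          have h1 := hB k K Q P R G.hP G.hR G.hco S' G.hS' hna hnc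
          rw [← hℓ] at h1
          exact absurd (h1.trans hB₁a) (not_le.mpr hc)
        push Not at hna
        obtain ⟨T, hTS, α, β, γ, hT, hTc⟩ := hna
        obtain ⟨P₁, R₁, S₁, S₁', G₁, hc₁⟩ := good_step p Q hker d hd G T hTS α β γ hT hTc
        by_cases hle : S₁'.card ≤ B₁
        · exact Or.inl ⟨e + 1, P₁, R₁, S₁, S₁', G₁, hle, by omega⟩
        · exact Or.inr ⟨P₁, R₁, S₁, S₁', G₁, by omega⟩
  have hterm : ∃ (e : ℕ) (P R : Polynomial K) (S S' : Finset K),
      Good k p d P₀ R₀ S₀.card (X : Set K) e P R S S' ∧ S'.card ≤ B₁ ∧ B₁ < 2 * S'.card := by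
    rcases hloop n₀ with h | ⟨P, R, S, S', G, hc⟩
    · exact h
    · exfalso
      apply hiso
      apply G.hconj
      have hp2 : n₀ < p ^ n₀ :=
        lt_of_lt_of_le (Nat.lt_two_pow_self) (Nat.pow_le_pow_left hpf.out.two_le _)
      apply conj_of_cross P R d G.hP G.hR hd G.hco S' G.hS' S' (Finset.Subset.refl _)
      · intro x0 h0 x1 h1 x2 h2 x hx h01 h02 h12 hx2 hx0
        have n1 := sub_ne_zero.mpr hx0
        have n2 := sub_ne_zero.mpr h12
        have n3 := sub_ne_zero.mpr hx2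
        have n4 := sub_ne_zero.mpr h01.symm
        have hc0 : cr x0 x1 x2 x ≠ 0 := div_ne_zero (mul_ne_zero n1 n2) (mul_ne_zero n3 n4)
        apply Q.const _ hc0
        intro v
        set φ := iterateFrobenius K p n₀ with hφ
        have hmem := G.hcr _ ((G.hSS x0).mp h0) _ ((G.hSS x1).mp h1) _ ((G.hSS x2).mp h2) _
          ((G.hSS x).mp hx) (fun h => hx2 (φ.injective h)) (fun h => h01.symm (φ.injective h))
        rw [← hφ] at hmem
        have hcrφ : cr (φ x0) (φ x1) (φ x2) (φ x) = φ (cr x0 x1 x2 x) := by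
          unfold cr
          simp only [map_div₀, map_mul, map_sub]
        rw [hcrφ] at hmem
        have h3 := hn₀ _ hmem ((_root_.map_ne_zero φ).mpr hc0) v
        rw [hφ, ord_frob p Q v n₀ _ hc0, Int.natAbs_mul, Int.natAbs_natCast] at h3
        have h4 : (Q.ord v (cr x0 x1 x2 x)).natAbs = 0 := by
          by_contra hne
          have h5 : 1 ≤ (Q.ord v (cr x0 x1 x2 x)).natAbs := Nat.one_le_iff_ne_zero.mpr hne
          have h6 : p ^ n₀ ≤ p ^ n₀ * (Q.ord v (cr x0 x1 x2 x)).natAbs :=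
            Nat.le_mul_of_pos_right _ h5
          omega
        have h5 : Q.ord v (cr x0 x1 x2 x) = 0 := Int.natAbs_eq_zero.mp h4
        exact h5.ge
      · rw [Finset.sdiff_self, Finset.card_empty, mul_zero, zero_add]
        unfold N₃ at hB₁b
        omega
  obtain ⟨e, P, R, S, S', G, hc1, hc2⟩ := hterm
  have hN₃ : N₃ d ≤ S'.card := by omega
  have hnc : ¬ ConjConst k P R d := fun h => hiso (G.hconj h)
  set f : ℕ → ℕ := fun i => (lev p S i).card with hf
  have hhalf := halving f e G.hlev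
  have hf0 : f 0 = S₀.card := by
    simp only [hf]
    rw [lev_zero, G.hcard]
  have hfe : f e = S'.card := card_lev_eq G.hSS
  set Bad := (Finset.range e).filter fun i => f i ≠ f (i + 1) with hBad
  have hBadc : (Bad.filter fun i => i + a₀ ≤ e).card < nn d := by
    by_contra hge
    push Not at hge
    obtain ⟨T, hTB, hTc⟩ := Finset.exists_subset_card_eq hge
    apply hnc
    let ii : Fin (nn d) → ℕ := fun j => T.orderEmbOfFin hTc (Fin.rev j)
    have hiT : ∀ j, ii j ∈ T := fun j => Finset.orderEmbOfFin_mem T hTc _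
    have hex : ∀ j, ∃ y : K, Q.D y ≠ 0 ∧ y ^ p ^ ii j ∈ S := by
      intro j
      have h1 := hTB (hiT j)
      rw [Finset.mem_filter, hBad, Finset.mem_filter] at h1
      have hne : f (ii j) ≠ f (ii j + 1) := h1.1.2
      have hsub := lev_succ_sub p S (ii j)
      have h2 : ∃ x ∈ lev p S (ii j), x ∉ lev p S (ii j + 1) := by
        by_contra hcon2
        push Not at hcon2
        have h3 : lev p S (ii j) = lev p S (ii j + 1) := Finset.Subset.antisymm hcon2 hsub
        exact hne (by simp only [hf]; rw [← h3])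
      obtain ⟨x, hx1, hx2⟩ := h2
      rw [mem_lev] at hx1 hx2
      obtain ⟨hxS, y, hy⟩ := hx1
      rw [iterateFrobenius_def] at hy
      refine ⟨y, ?_, by rw [hy]; exact hxS⟩
      intro hD
      obtain ⟨z, hz⟩ := hker y hD
      apply hx2
      refine ⟨hxS, z, ?_⟩
      rw [iterateFrobenius_def, ← hy, ← hz, ← pow_mul, pow_succ, mul_comm]
    choose x' hx'1 hx'2 using hex
    have ha₀' : nn d * (Q.lossT.toNat + 1) < p ^ a₀ := by
      rw [← hℓ, ← ha₀]
      exact lt_of_lt_of_le (Nat.lt_two_pow_self) (Nat.pow_le_pow_left hpf.out.two_le _)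
    refine chain_conj p Q d hd e a₀ ha₀' P R G.hP G.hR G.hco S S' G.hS G.hS'
      (fun y hy => (G.hSS y).mp hy) hN₃ ii x' ?_ ?_ hx'1 hx'2
    · intro j
      have h1 := hTB (hiT j)
      rw [Finset.mem_filter] at h1
      exact h1.2
    · intro j j' hjj
      exact (T.orderEmbOfFin hTc).strictMono (Fin.rev_lt_rev.mpr hjj)
  have hBadt : Bad.card ≤ nn d + a₀ := by
    have h1 := Finset.card_filter_add_card_filter_not (s := Bad) (fun i => i + a₀ ≤ e)
    have h2 : (Bad.filter fun i => ¬ i + a₀ ≤ e).card ≤ a₀ := by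
      have h3 : (Bad.filter fun i => ¬ i + a₀ ≤ e) ⊆ Finset.Ico (e - a₀) e := by
        intro i hi
        rw [Finset.mem_filter, hBad, Finset.mem_filter, Finset.mem_range] at hi
        rw [Finset.mem_Ico]
        omega
      refine (Finset.card_le_card h3).trans ?_
      rw [Nat.card_Ico]
      omega
    omega
  rw [hf0, hfe] at hhalf
  have h1 : 2 ^ Bad.card * S'.card ≤ 2 ^ (nn d + a₀) * B₁ :=
    Nat.mul_le_mul (Nat.pow_le_pow_right (by norm_num) hBadt) hc1
  exact absurd (hhalf.trans h1) (not_le.mpr hcon)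

end Pool.Agent.TH951.P
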