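import Pool.Agent.TH951.P.Loc3
import Pool.Agent.TH951.W.UH.G1

/-!
# Local data of a Frobenius pair at a place
-/

namespace Pool.Agent.TH951.P

open Pool.Agent.TH951.W.UB Pool.Agent.TH951.W.UG Pool.Agent.TH951.W.UH Finset Polynomial

universe u

variable {k : Type*} {K : Type u} [Field k] [Field K] [Algebra k K]

/-- `n` is the order of the vector `Z` at `v` -/
def Mo (Q : PlaceData k K) (v : Q.Pl) (Z : K × K) (n : ℤ) : Prop :=
  Q.G v n Z.1 ∧ Q.G v n Z.2 ∧ ((Z.1 ≠ 0 ∧ Q.ord v Z.1 = n) ∨ (Z.2 ≠ 0 ∧ Q.ord v Z.2 = n))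

lemma giK_gmK {U V : K × K} (h : wd U V ≠ 0) (X : K × K) : giK U V (gmK U V X) = X := by
  have h' : U.1 * V.2 - U.2 * V.1 ≠ 0 := h
  unfold gmK giK wd
  ext
  · simp only [Prod.fst_add, Prod.smul_fst, Prod.snd_add, Prod.smul_snd, smul_eq_mul]
    field_simp
    ring
  · simp only [Prod.fst_add, Prod.smul_fst, Prod.snd_add, Prod.smul_snd, smul_eq_mul]
    field_simp
    ring

/-- local data at a place -/
structure LD2 [DecidableEq K] (Q : PlaceData k K) (v : Q.Pl) (φ : K →+* K) (m d : ℕ)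
    (P P₁ : Finset K) (a : K → ℝ) (ρ : ℝ) where
  U : K × K
  V : K × K
  nz : K → ℤ
  σ : ℝ
  R : ℕ
  hW : wd U V ≠ 0
  hdvd : m ∣ R
  hR : (R : ℝ) / (d * ((d : ℝ) - 1)) = ρ + m * Q.ord v (wd U V) + 2 * σ
  hnz : ∀ z, Mo Q v (giK (fr φ U) (fr φ V) (z, 1)) (nz z)
  hA : ∀ z ∈ P, 0 ≤ a z - nz z + σ ∧ a z - nz z + σ ≤ R / ((d : ℝ) - 1)
  hE : ∀ n : ℕ, (d : ℝ) ^ (2 * n) ≤ P₁.card → -(4 * (P₁.card : ℝ) ^ 2 * R / (d : ℝ) ^ n) ≤
    ∑ y ∈ P₁, ∑ y' ∈ P₁, if y = y' then 0 else GG Q v a ρ (φ y) (φ y')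
  hC0 : 1 ≤ R → ∃ χ : K → Fin (q₀ d), ∀ y ∈ P₁, ∀ y' ∈ P₁, y ≠ y' → χ y = χ y' →
    (R : ℝ) / (8 * d * (d + 1)) ≤ GG Q v a ρ (φ y) (φ y')
  hC : 1 ≤ R → 2 * q₀ d ≤ P₁.card → (∑ y ∈ P₁, ∑ y' ∈ P₁, if y = y' then 0 else
      GG Q v a ρ (φ y) (φ y')) < R / (8 * d * (d + 1)) * (P₁.card : ℝ) ^ 2 / (4 * q₀ d) →
    ∃ χ : K → Fin (q₁ d), ∀ z ∈ P, ∀ z' ∈ P, z ≠ z' → χ z = χ z' →
      κ₂ d * R ≤ ((Q.ord v (z - z') : ℝ) - nz z - nz z' - m * Q.ord v (wd U V)) -
        2 * (a z - nz z + σ) + (R : ℝ) / (d * ((d : ℝ) - 1))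

theorem exists_LD2 [Infinite k] [DecidableEq K] (Q : PlaceData k K) (v : Q.Pl)
    (φ : K →+* K) (m : ℕ) (hφ : ∀ x, x ≠ 0 → Q.ord v (φ x) = m * Q.ord v x)
    (d : ℕ) (hd : 2 ≤ d) (p q : Polynomial K)
    (hp : p.natDegree ≤ d) (hq : q.natDegree = d) (hco : IsCoprime p q) (P P₁ : Finset K)
    (hP : ∀ z ∈ P, (q.map φ).eval z ≠ 0 ∧ (p.map φ).eval z / (q.map φ).eval z ∈ P)
    (hP₁ : ∀ z ∈ P₁, q.eval z ≠ 0 ∧ p.eval z / q.eval z ∈ P₁)
    (hPP : ∀ y ∈ P₁, φ y ∈ P) (a : K → ℝ)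
    (ha : ∀ z ∈ P, (d : ℝ) * a z = Q.ord v ((q.map φ).eval z) +
      a ((p.map φ).eval z / (q.map φ).eval z)) (ρ : ℝ)
    (hρ : ρ = (Q.ord v (resultant (q.map φ) (p.map φ) d d) : ℝ) / (d * ((d : ℝ) - 1))) :
    Nonempty (LD2 Q v φ m d P P₁ a ρ) := by
  classical
  have hres := res_ne d p q hp hq (by omega) hco
  by_cases hπ : ∃ π : K, π ≠ 0 ∧ Q.ord v π ≠ 0
  · obtain ⟨π, hπ0, hπ1⟩ := hπ
    obtain ⟨Ω, _, _, _, ι, hι⟩ := exists_ext Q v π hπ0 hπ1
    let e : ℕ ↪ k := Infinite.natEmbedding k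
    have hone : ∀ c : k, c ≠ 0 → ‖ι (φ (algebraMap k K c))‖ = 1 := by
      intro c hc
      have hc' : algebraMap k K c ≠ 0 := (_root_.map_ne_zero _).mpr hc
      rw [hι _ ((_root_.map_ne_zero φ).mpr hc'), hφ _ hc', Q.ord_alg v c hc]
      simp
    have hnat : (∀ i, ‖ι (φ (algebraMap k K (e i)))‖ ≤ 1) ∧ ∀ i j, i ≠ j →
        ‖ι (φ (algebraMap k K (e i))) - ι (φ (algebraMap k K (e j)))‖ = 1 := by
      constructor
      · intro i
        by_cases h : e i = 0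
        · rw [h]
          simp
        · exact (hone _ h).le
      · intro i j hij
        rw [← map_sub, ← map_sub, ← map_sub]
        exact hone _ (sub_ne_zero.mpr fun h => hij (e.injective h))
    obtain ⟨U, V, σ, R, t, X, h1, h2, h3, h4, h5, h6, h7, h8⟩ :=
      two_field ι (Q.ord v) hι φ m hφ (c := fun i => algebraMap k K (e i)) hnat d hd p q hp hq hco
        hres P P₁ hP hP₁ hPP a ha ρ hρ
    have hUV' : wd (fr φ U) (fr φ V) ≠ 0 := by
      rw [wd_fr]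
      exact (_root_.map_ne_zero φ).mpr h1
    refine ⟨⟨U, V, fun z => Q.ord v (t z), σ, R, h1, h2, h3, ?_, h5, h6, h7, h8⟩⟩
    intro z
    obtain ⟨ht, hX, hg⟩ := h4 z
    have hZ : giK (fr φ U) (fr φ V) (z, 1) = t z • X z := by
      have e1 : t z • gmK (fr φ U) (fr φ V) (X z) = gmK (fr φ U) (fr φ V) (t z • X z) :=
        (gmK_smul _ _ _ _).symm
      rw [← hg, e1, giK_gmK hUV']
    rw [hZ]
    have hint : ∀ x : K, x ≠ 0 → ‖ι x‖ ≤ 1 → 0 ≤ Q.ord v x := by
      intro x hx h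
      rw [hι x hx, ← Real.exp_zero] at h
      have h4 := Real.exp_le_exp.mp h
      have h5 : (0 : ℝ) ≤ Q.ord v x := by linarith
      exact_mod_cast h5
    have hunit : ∀ x : K, x ≠ 0 → ‖ι x‖ = 1 → Q.ord v x = 0 := by
      intro x hx h
      rw [hι x hx, ← Real.exp_zero] at h
      have h4 := Real.exp_injective h
      have h5 : (Q.ord v x : ℝ) = 0 := by linarith
      exact_mod_cast h5
    have hn1 : ‖ι (X z).1‖ ≤ 1 := by
      have := norm_fst_le (vm ι (X z))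
      rw [hX] at this
      exact this
    have hn2 : ‖ι (X z).2‖ ≤ 1 := by
      have := norm_snd_le (vm ι (X z))
      rw [hX] at this
      exact this
    have hmax : ‖ι (X z).1‖ = 1 ∨ ‖ι (X z).2‖ = 1 := by
      rw [Prod.norm_def] at hX
      rcases max_choice ‖(vm ι (X z)).1‖ ‖(vm ι (X z)).2‖ with h | h
      · left
        rw [h] at hX
        exact hX
      · right
        rw [h] at hX
        exact hX
    refine ⟨?_, ?_, ?_⟩
    · intro h
      have h' : t z * (X z).1 ≠ 0 := h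
      have hx : (X z).1 ≠ 0 := right_ne_zero_of_mul h'
      show _ ≤ Q.ord v (t z * (X z).1)
      rw [Q.ord_mul v _ _ ht hx]
      have := hint _ hx hn1
      linarith
    · intro h
      have h' : t z * (X z).2 ≠ 0 := h
      have hx : (X z).2 ≠ 0 := right_ne_zero_of_mul h'
      show _ ≤ Q.ord v (t z * (X z).2)
      rw [Q.ord_mul v _ _ ht hx]
      have := hint _ hx hn2
      linarith
    · rcases hmax with h | h
      · left
        have hx : (X z).1 ≠ 0 := by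
          intro h0
          rw [h0, map_zero, norm_zero] at h
          exact zero_ne_one h
        refine ⟨mul_ne_zero ht hx, ?_⟩
        show Q.ord v (t z * (X z).1) = _
        rw [Q.ord_mul v _ _ ht hx, hunit _ hx h, add_zero]
      · right
        have hx : (X z).2 ≠ 0 := by
          intro h0
          rw [h0, map_zero, norm_zero] at h
          exact zero_ne_one h
        refine ⟨mul_ne_zero ht hx, ?_⟩
        show Q.ord v (t z * (X z).2) = _
        rw [Q.ord_mul v _ _ ht hx, hunit _ hx h, add_zero]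
  · push Not at hπ
    have hres' : resultant (q.map φ) (p.map φ) d d ≠ 0 := by
      rw [resultant_map_map]
      exact (_root_.map_ne_zero φ).mpr hres
    have hρ0 : ρ = 0 := by
      rw [hρ, hπ _ hres']
      simp
    have ha0 : ∀ z ∈ P, a z = 0 := by
      apply stable_zero d hd P (fun z => (p.map φ).eval z / (q.map φ).eval z)
        (fun z hz => (hP z hz).2) a
      intro z hz
      rw [ha z hz, hπ _ (hP z hz).1]
      simp
    have hgi : ∀ z : K, giK (fr φ ((1 : K), (0 : K))) (fr φ ((0 : K), (1 : K))) (z, 1) = (z, 1) := by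
      intro z
      unfold giK fr wd
      simp
    have hGG : ∀ y ∈ P₁, ∀ y' ∈ P₁, y ≠ y' → GG Q v a ρ (φ y) (φ y') = 0 := by
      intro y hy y' hy' hne
      unfold GG
      rw [hπ _ (sub_ne_zero.mpr fun h => hne (φ.injective h)), ha0 _ (hPP y hy), ha0 _ (hPP y' hy'),
        hρ0]
      simp
    have hw1 : wd ((1 : K), (0 : K)) ((0 : K), (1 : K)) = 1 := by
      unfold wd
      simp
    refine ⟨⟨((1 : K), (0 : K)), ((0 : K), (1 : K)), fun _ => 0, 0, 0, ?_, dvd_zero _, ?_, ?_, ?_,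
      ?_, ?_, ?_⟩⟩
    · rw [hw1]
      exact one_ne_zero
    · rw [hρ0, hw1, PlaceData.ord_one]
      simp
    · intro z
      rw [hgi z]
      refine ⟨fun h => (hπ _ h).ge, fun h => (hπ _ h).ge, Or.inr ⟨one_ne_zero, ?_⟩⟩
      exact PlaceData.ord_one
    · intro z hz
      rw [ha0 z hz]
      simp
    · intro n _
      have h1 : ∑ y ∈ P₁, ∑ y' ∈ P₁, (if y = y' then 0 else GG Q v a ρ (φ y) (φ y')) = 0 := by
        apply Finset.sum_eq_zero
        intro z hz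
        apply Finset.sum_eq_zero
        intro z' hz'
        split_ifs with h
        · rfl
        · exact hGG z hz z' hz' h
      rw [h1]
      simp
    · intro h
      omega
    · intro h
      omega

end Pool.Agent.TH951.P
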