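import Pool.Agent.TH951.P.DerB

/-!
# The inequality at one place
-/

namespace Pool.Agent.TH951.P

open Pool.Agent.TH951.W.UB Pool.Agent.TH951.W.UG Pool.Agent.TH951.W.UH Finset Polynomial

universe u

variable {k : Type*} {K : Type u} [Field k] [Field K] [Algebra k K] [DecidableEq K]

lemma LD2.o_nonneg {Q : PlaceData k K} {v : Q.Pl} {φ : K →+* K} {m d : ℕ}
    {P P₁ : Finset K} {a : K → ℝ} {ρ : ℝ} (L : LD2 Q v φ m d P P₁ a ρ)
    (hφ : ∀ x, x ≠ 0 → Q.ord v (φ x) = m * Q.ord v x) {z z' : K} (hne : z ≠ z') :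
    (0 : ℤ) ≤ Q.ord v (z - z') - L.nz z - L.nz z' - m * Q.ord v (wd L.U L.V) := by
  have hW' : wd (fr φ L.U) (fr φ L.V) ≠ 0 := by
    rw [wd_fr]
    exact (_root_.map_ne_zero φ).mpr L.hW
  set Z := giK (fr φ L.U) (fr φ L.V) (z, 1) with hZ
  set Z' := giK (fr φ L.U) (fr φ L.V) (z', 1) with hZ'
  have hzz : z - z' = wd (fr φ L.U) (fr φ L.V) * wd Z Z' := by
    rw [← wd_gmK, hZ, hZ', gmK_giK hW', gmK_giK hW']
    unfold wd
    ring
  have hδ : wd Z Z' ≠ 0 := by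
    intro h
    rw [h, mul_zero] at hzz
    exact hne (sub_eq_zero.mp hzz)
  obtain ⟨h1, h2, _⟩ := L.hnz z
  obtain ⟨h3, h4, _⟩ := L.hnz z'
  rw [← hZ] at h1 h2
  rw [← hZ'] at h3 h4
  have h5 : Q.G v (L.nz z + L.nz z') (wd Z Z') := by
    unfold wd
    apply PlaceData.G_sub
    · exact PlaceData.G_mul h1 h4
    · exact PlaceData.G_mul h2 h3
  have h6 := h5 hδ
  rw [hzz, Q.ord_mul v _ _ hW' hδ, wd_fr, hφ _ L.hW]
  linarith

lemma LD2.GG_good {Q : PlaceData k K} {v : Q.Pl} {φ : K →+* K} {m d : ℕ}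
    {P P₁ : Finset K} {a : K → ℝ} {ρ : ℝ} (L : LD2 Q v φ m d P P₁ a ρ)
    (hφ : ∀ x, x ≠ 0 → Q.ord v (φ x) = m * Q.ord v x) (hR : L.R = 0) {z z' : K} (hz : z ∈ P)
    (hz' : z' ∈ P) (hne : z ≠ z') : 0 ≤ GG Q v a ρ z z' := by
  have h1 : ((0 : ℤ) : ℝ) ≤ ((Q.ord v (z - z') - L.nz z - L.nz z' -
    m * Q.ord v (wd L.U L.V) : ℤ) : ℝ) := by
    exact_mod_cast L.o_nonneg hφ hne
  push_cast at h1
  have h2 := L.hA z hz
  have h3 := L.hA z' hz'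
  have h4 := L.hR
  rw [hR] at h2 h3 h4
  simp only [Nat.cast_zero, zero_div] at h2 h3 h4
  unfold GG
  linarith [h2.1, h2.2, h3.1, h3.2]

/-- the weight-zero quantity -/
noncomputable def Ev (Q : PlaceData k K) (v : Q.Pl) (a : K → ℝ) (ρ : ℝ) (p i : ℕ) (x' : K) : ℝ :=
  (p ^ i : ℕ) * Q.ord v (Q.D x') - 2 * a (x' ^ p ^ i) + ρ

variable (p : ℕ) [hp : Fact p.Prime] [CharP K p] [ExpChar K p]

lemma Ev_lower1 {Q : PlaceData k K} {v : Q.Pl} {e d : ℕ} (hd : 2 ≤ d) {P P₁ : Finset K}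
    {a : K → ℝ} {ρ : ℝ} (L : LD2 Q v (iterateFrobenius K p e) (p ^ e) d P P₁ a ρ) (i : ℕ)
    (hi : i < e) (x' : K) (hx' : Q.D x' ≠ 0) (hxP : x' ^ p ^ i ∈ P) :
    -((p ^ i : ℕ) * (Q.loss v : ℝ)) - 2 * L.R ≤ Ev Q v a ρ p i x' := by
  have hdR : (2 : ℝ) ≤ d := by exact_mod_cast hd
  have hd1 : (0 : ℝ) < (d : ℝ) - 1 := by linarith
  have h1 := (der_bounds p L i hi x' hx').1
  have h2 : ((2 * L.nz (x' ^ p ^ i) + (p ^ e : ℕ) * Q.ord v (wd L.U L.V) -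
    (p ^ i : ℕ) * Q.loss v : ℤ) : ℝ) ≤ (((p ^ i : ℕ) * Q.ord v (Q.D x') : ℤ) : ℝ) := by
    exact_mod_cast h1
  have h3 := L.hA _ hxP
  have h4 := L.hR
  have hR0 : (0 : ℝ) ≤ L.R := Nat.cast_nonneg _
  have h5 : (L.R : ℝ) / ((d : ℝ) - 1) ≤ L.R := by
    rw [div_le_iff₀ hd1]
    nlinarith
  have h6 : 0 ≤ (L.R : ℝ) / (d * ((d : ℝ) - 1)) := by positivity
  push_cast at h2 h4
  unfold Ev
  push_cast
  linarith [h3.1, h3.2]

lemma Ev_lower2 {Q : PlaceData k K} {v : Q.Pl} {e d : ℕ} {P P₁ : Finset K}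
    {a : K → ℝ} {ρ : ℝ} (L : LD2 Q v (iterateFrobenius K p e) (p ^ e) d P P₁ a ρ) (i : ℕ)
    (hi : i < e) (x' : K) (hx' : Q.D x' ≠ 0) (z' : K)
    (hne : x' ^ p ^ i ≠ z' ^ p ^ (i + 1)) (κ : ℝ)
    (hκ : κ ≤ ((Q.ord v (x' ^ p ^ i - z' ^ p ^ (i + 1)) : ℝ) - L.nz (x' ^ p ^ i) -
      L.nz (z' ^ p ^ (i + 1)) - (p ^ e : ℕ) * Q.ord v (wd L.U L.V)) -
        2 * (a (x' ^ p ^ i) - L.nz (x' ^ p ^ i) + L.σ) + (L.R : ℝ) / (d * ((d : ℝ) - 1))) :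
    κ - (p ^ i : ℕ) - ((p ^ i : ℕ) * (Q.loss v : ℝ)) ≤ Ev Q v a ρ p i x' := by
  have h1 := (der_bounds p L i hi x' hx').2 z' hne
  have h2 : ((L.nz (x' ^ p ^ i) - L.nz (z' ^ p ^ (i + 1)) +
      Q.ord v (x' ^ p ^ i - z' ^ p ^ (i + 1)) -
        (p ^ i : ℕ) - (p ^ i : ℕ) * Q.loss v : ℤ) : ℝ) ≤
        (((p ^ i : ℕ) * Q.ord v (Q.D x') : ℤ) : ℝ) := by
    exact_mod_cast h1
  have h4 := L.hR
  push_cast at h2 h4 hκ
  unfold Ev
  push_cast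
  linarith

omit [DecidableEq K] [Field K] in
/-- first occurrences of colours -/
lemma card_first {n q : ℕ} (col : Fin n → Fin q) :
    (Finset.univ.filter fun j : Fin n => ¬ ∃ j' < j, col j' = col j).card ≤ q := by
  have h1 : (Finset.univ.filter fun j : Fin n => ¬ ∃ j' < j, col j' = col j).card ≤
      (Finset.univ : Finset (Fin q)).card := by
    apply Finset.card_le_card_of_injOn col (fun _ _ => Finset.mem_univ _)
    intro j hj j' hj' h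
    rw [Finset.coe_filter, Set.mem_ofPred_eq] at hj hj'
    by_contra hne
    rcases lt_or_gt_of_ne hne with h2 | h2
    · exact hj'.2 ⟨j, h2, h⟩
    · exact hj.2 ⟨j', h2, h.symm⟩
  rwa [Finset.card_univ, Fintype.card_fin] at h1

/-- number of levels -/
noncomputable def nn (d : ℕ) : ℕ := q₁ d + ⌈(2 * (q₁ d : ℝ) + 2) / κ₂ d⌉₊

/-- **The inequality at an honest place.** -/
theorem honest_ineq {Q : PlaceData k K} {v : Q.Pl} {e d : ℕ} (hd : 2 ≤ d) {P P₁ : Finset K}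
    {a : K → ℝ} {ρ : ℝ} (L : LD2 Q v (iterateFrobenius K p e) (p ^ e) d P P₁ a ρ)
    (χ : K → Fin (q₁ d)) (hχ : ∀ z ∈ P, ∀ z' ∈ P, z ≠ z' → χ z = χ z' →
      κ₂ d * L.R ≤ ((Q.ord v (z - z') : ℝ) - L.nz z - L.nz z' -
        (p ^ e : ℕ) * Q.ord v (wd L.U L.V)) -
        2 * (a z - L.nz z + L.σ) + (L.R : ℝ) / (d * ((d : ℝ) - 1)))
    (i : Fin (nn d) → ℕ) (x' : Fin (nn d) → K) (B : ℝ)
    (hB : ∀ j, ((p ^ i j : ℕ) : ℝ) ≤ B) (hi : ∀ j, i j < e)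
    (hij : ∀ j j', j' < j → i j < i j') (hx' : ∀ j, Q.D (x' j) ≠ 0)
    (hxP : ∀ j, x' j ^ p ^ i j ∈ P) :
    2 * (L.R : ℝ) - nn d * B * (Q.loss v + 1) ≤ ∑ j, Ev Q v a ρ p (i j) (x' j) := by
  classical
  have hR0 : (0 : ℝ) ≤ L.R := Nat.cast_nonneg _
  have hl0 : (0 : ℝ) ≤ Q.loss v := by exact_mod_cast Q.loss_nonneg v
  have hdpos : (0 : ℝ) < d := by
    have : 0 < d := by omega
    exact_mod_cast this
  have hq0 : (0 : ℝ) < q₀ d := by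
    have : 0 < q₀ d := by
      unfold q₀
      positivity
    exact_mod_cast this
  have hκ : 0 < κ₂ d := by
    unfold κ₂
    positivity
  have hppos : ∀ j, (0 : ℝ) ≤ ((p ^ i j : ℕ) : ℝ) := fun j => Nat.cast_nonneg _
  set F := Finset.univ.filter fun j : Fin (nn d) => ∃ j' < j,
    χ (x' j' ^ p ^ i j') = χ (x' j ^ p ^ i j) with hF
  have hFc : (Finset.univ.filter fun j : Fin (nn d) => ¬ ∃ j' < j,
    χ (x' j' ^ p ^ i j') = χ (x' j ^ p ^ i j)).card ≤ q₁ d :=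
    card_first fun j => χ (x' j ^ p ^ i j)
  have hcard := Finset.card_filter_add_card_filter_not (s := (Finset.univ : Finset (Fin (nn d))))
    (fun j => ∃ j' < j, χ (x' j' ^ p ^ i j') = χ (x' j ^ p ^ i j))
  rw [Finset.card_univ, Fintype.card_fin, ← hF] at hcard
  have h1 : ∀ j ∈ F, κ₂ d * L.R - B - B * Q.loss v ≤ Ev Q v a ρ p (i j) (x' j) := by
    intro j hj
    obtain ⟨_, j', hj', hc⟩ := Finset.mem_filter.mp hj
    have hlt := hij j j' hj'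
    obtain ⟨r, hr⟩ : ∃ r, i j' = i j + 1 + r := ⟨i j' - (i j + 1), by omega⟩
    have hz : (x' j' ^ p ^ r) ^ p ^ (i j + 1) = x' j' ^ p ^ i j' := by
      rw [← pow_mul, ← pow_add, hr]
      congr 2
      ring
    have hne : x' j ^ p ^ i j ≠ (x' j' ^ p ^ r) ^ p ^ (i j + 1) := by
      intro h
      have h2 : x' j = (x' j' ^ p ^ r) ^ p := by
        have h3 : (x' j' ^ p ^ r) ^ p ^ (i j + 1) = ((x' j' ^ p ^ r) ^ p) ^ p ^ i j := by
          rw [← pow_mul (x' j' ^ p ^ r), pow_succ p (i j), mul_comm (p ^ i j) p]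
        rw [h3] at h
        have h4 : iterateFrobenius K p (i j) (x' j) =
            iterateFrobenius K p (i j) ((x' j' ^ p ^ r) ^ p) := by
          rw [iterateFrobenius_def, iterateFrobenius_def]
          exact h
        exact (iterateFrobenius K p (i j)).injective h4
      apply hx' j
      rw [h2]
      exact D_pow_char p Q.D _
    have h2 := hχ (x' j ^ p ^ i j) (hxP j) ((x' j' ^ p ^ r) ^ p ^ (i j + 1))
      (by rw [hz]; exact hxP j') hne (by rw [hz]; exact hc.symm)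
    have h3 := Ev_lower2 p L (i j) (hi j) (x' j) (hx' j) (x' j' ^ p ^ r) hne _ h2
    have h4 := hB j
    have h5 : ((p ^ i j : ℕ) : ℝ) * Q.loss v ≤ B * Q.loss v := mul_le_mul_of_nonneg_right h4 hl0
    linarith
  have h2 : ∀ j, -(B * Q.loss v) - 2 * L.R ≤ Ev Q v a ρ p (i j) (x' j) := by
    intro j
    have h3 := Ev_lower1 p hd L (i j) (hi j) (x' j) (hx' j) (hxP j)
    have h5 : ((p ^ i j : ℕ) : ℝ) * Q.loss v ≤ B * Q.loss v := mul_le_mul_of_nonneg_right (hB j) hl0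
    linarith
  rw [← Finset.sum_filter_add_sum_filter_not Finset.univ
    (fun j => ∃ j' < j, χ (x' j' ^ p ^ i j') = χ (x' j ^ p ^ i j)), ← hF]
  set Fc := Finset.univ.filter fun j : Fin (nn d) => ¬ ∃ j' < j,
    χ (x' j' ^ p ^ i j') = χ (x' j ^ p ^ i j) with hFcdef
  have h3 : (F.card : ℝ) * (κ₂ d * L.R - B - B * Q.loss v) ≤ ∑ j ∈ F, Ev Q v a ρ p (i j) (x' j) := by
    rw [← nsmul_eq_mul]
    exact Finset.card_nsmul_le_sum _ _ _ h1
  have h4 : (Fc.card : ℝ) * (-(B * Q.loss v) - 2 * L.R) ≤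
      ∑ j ∈ Fc, Ev Q v a ρ p (i j) (x' j) := by
    rw [← nsmul_eq_mul]
    exact Finset.card_nsmul_le_sum _ _ _ fun j _ => h2 j
  have hcR : (F.card : ℝ) + Fc.card = nn d := by exact_mod_cast hcard
  have hFcR : (Fc.card : ℝ) ≤ q₁ d := by exact_mod_cast hFc
  have hFn : (0 : ℝ) ≤ F.card := Nat.cast_nonneg _
  have hFcn : (0 : ℝ) ≤ Fc.card := Nat.cast_nonneg _
  have hnnpos : 0 < nn d := by
    unfold nn
    have : 0 < ⌈(2 * (q₁ d : ℝ) + 2) / κ₂ d⌉₊ := Nat.ceil_pos.mpr (by positivity)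
    omega
  have hB0 : 0 ≤ B := by
    have := hB ⟨0, hnnpos⟩
    have := hppos ⟨0, hnnpos⟩
    linarith
  have hnn : (2 * (q₁ d : ℝ) + 2) ≤ ((nn d : ℝ) - q₁ d) * κ₂ d := by
    have h5 := Nat.le_ceil ((2 * (q₁ d : ℝ) + 2) / κ₂ d)
    rw [div_le_iff₀ hκ] at h5
    have h6 : (nn d : ℝ) - q₁ d = (⌈(2 * (q₁ d : ℝ) + 2) / κ₂ d⌉₊ : ℝ) := by
      unfold nn
      push_cast
      ring
    rw [h6]
    exact h5
  have h5 : (2 * (q₁ d : ℝ) + 2) * L.R ≤ ((nn d : ℝ) - q₁ d) * κ₂ d * L.R :=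
    mul_le_mul_of_nonneg_right hnn hR0
  have h6 : ((nn d : ℝ) - q₁ d) * (κ₂ d * L.R) ≤ F.card * (κ₂ d * L.R) := by
    apply mul_le_mul_of_nonneg_right _ (by positivity)
    linarith
  have h7 : (Fc.card : ℝ) * L.R ≤ q₁ d * L.R := mul_le_mul_of_nonneg_right hFcR hR0
  have h8 : (F.card : ℝ) * B ≤ nn d * B := by
    apply mul_le_mul_of_nonneg_right _ hB0
    linarith
  have h9 : (F.card : ℝ) * (B * Q.loss v) + Fc.card * (B * Q.loss v) = nn d * (B * Q.loss v) := by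
    rw [← add_mul, hcR]
  linarith

end Pool.Agent.TH951.P
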