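import Pool.Agent.TH951.W.UH.L9

/-!
# Local coordinates without minimality
-/

namespace Pool.Agent.TH951.P

open Pool.Agent.TH951.W.UB Pool.Agent.TH951.W.UG Pool.Agent.TH951.W.UH Finset Polynomial

variable {Ω : Type*} [NormedField Ω] [IsUltrametricDist Ω] {K : Type*} [Field K]

/-- unit vectors and local Green functions in any rational coordinate -/
theorem loc_struct (ι : K →+* Ω) (ord : K → ℤ)
    (hι : ∀ x : K, x ≠ 0 → ‖ι x‖ = Real.exp (-(ord x : ℝ)))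
    {c : ℕ → K} (hnat : (∀ i, ‖ι (c i)‖ ≤ 1) ∧ ∀ i j, i ≠ j → ‖ι (c i) - ι (c j)‖ = 1)
    (d : ℕ) (hd : 2 ≤ d) (p q : Polynomial K)
    (hp : p.natDegree ≤ d) (hq : q.natDegree = d) (P : Finset K)
    (hP : ∀ z ∈ P, q.eval z ≠ 0 ∧ p.eval z / q.eval z ∈ P) (a : K → ℝ)
    (ha : ∀ z ∈ P, (d : ℝ) * a z = ord (q.eval z) + a (p.eval z / q.eval z))
    (S₀ S : HS Ω) (hF₀ : S₀.F = bF d (p.map ι) (q.map ι)) (hd₀ : S₀.d = d)
    (U V : K × K) (s : K) (hUV : wd U V ≠ 0) (hs : s ≠ 0) (hdS : S.d = S₀.d)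
    (hF : ∀ X, S.F X = ι s • gi (vm ι U) (vm ι V) (S₀.F (gm (vm ι U) (vm ι V) X)))
    (hgs : S.gs = 1) :
    ∃ (t : K → K) (X : K → K × K) (A : K → ℝ),
      (∀ z, t z ≠ 0 ∧ ‖vm ι (X z)‖ = 1 ∧ t z • gmK U V (X z) = (z, 1) ∧
        A z = a z - ord (t z) + ord s / ((d : ℝ) - 1)) ∧
      (∀ z ∈ P, 0 ≤ A z ∧ A z ≤ S.Res / ((d : ℝ) - 1)) ∧
      (∀ n : ℕ, ∀ z ∈ P, ∃ z' ∈ P, ∃ μ : Ω, S.F^[n] (vm ι (X z)) = μ • vm ι (X z') ∧
        μ ≠ 0 ∧ (d : ℝ) ^ n * A z = -Real.log ‖μ‖ + A z') := by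
  classical
  have hdR : (2 : ℝ) ≤ d := by exact_mod_cast hd
  have hd1 : (0 : ℝ) < (d : ℝ) - 1 := by linarith
  have hlog : ∀ x : K, x ≠ 0 → -Real.log ‖ι x‖ = ord x := by
    intro x hx
    rw [hι x hx, Real.log_exp, neg_neg]
  rw [hd₀] at hdS
  obtain ⟨B, hB⟩ := exists_famK ι hnat
  have hUVΩ : wd (vm ι U) (vm ι V) ≠ 0 := by
    rw [vm_wd]
    exact (map_ne_zero ι).mpr hUV
  have hz1 : ∀ z : K, giK U V (z, 1) ≠ 0 := by
    intro z h
    have h1 := gmK_giK hUV (z, 1)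
    rw [h] at h1
    unfold gmK at h1
    have := congrArg Prod.snd h1
    simp at this
  choose t X ht hX htX using fun z : K => exists_unitK ι (giK U V (z, 1)) (hz1 z)
  have hgX : ∀ z, t z • gmK U V (X z) = (z, 1) := by
    intro z
    rw [← gmK_smul, ← htX, gmK_giK hUV]
  set fz : K → K := fun z => p.eval z / q.eval z with hfz
  -- the action of F
  have hFX : ∀ z ∈ P, S.F (vm ι (X z)) =
      ι (s * (t z)⁻¹ ^ d * q.eval z * t (fz z)) • vm ι (X (fz z)) := by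
    intro z hz
    obtain ⟨hqz, _⟩ := hP z hz
    have e1 : gmK U V (X z) = (t z)⁻¹ • ((z, 1) : K × K) := by
      rw [← hgX z, smul_smul, inv_mul_cancel₀ (ht z), one_smul]
    have e2 : S₀.F (vm ι ((z, 1) : K × K)) = vm ι (q.eval z • ((fz z, 1) : K × K)) := by
      rw [hF₀]
      unfold bF
      rw [hev_map, hev_map, hev_one d p hp, hev_one d q hq.le]
      unfold vm
      simp only [hfz, Prod.smul_fst, Prod.smul_snd, smul_eq_mul, mul_one]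
      rw [mul_div_cancel₀ _ hqz]
    rw [hF, vm_gm, e1, vm_smul, S₀.hom, e2, vm_smul, gi_smul, gi_smul, vm_gi, htX (fz z), vm_smul,
      smul_smul, smul_smul, smul_smul, hd₀]
    congr 1
    rw [map_mul, map_mul, map_mul, map_pow]
  have hlam0 : ∀ z ∈ P, s * (t z)⁻¹ ^ d * q.eval z * t (fz z) ≠ 0 := by
    intro z hz
    exact mul_ne_zero (mul_ne_zero (mul_ne_zero hs (pow_ne_zero _ (inv_ne_zero (ht z))))
      (hP z hz).1) (ht _)
  -- additivity of ord through the norm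
  have hord_mul : ∀ x y : K, x ≠ 0 → y ≠ 0 → (ord (x * y) : ℝ) = ord x + ord y := by
    intro x y hx hy
    rw [← hlog _ (mul_ne_zero hx hy), ← hlog x hx, ← hlog y hy, map_mul, norm_mul,
      Real.log_mul (norm_ne_zero_iff.mpr ((map_ne_zero ι).mpr hx))
        (norm_ne_zero_iff.mpr ((map_ne_zero ι).mpr hy))]
    ring
  have hord_inv_pow : ∀ (x : K) (n : ℕ), x ≠ 0 → (ord (x⁻¹ ^ n) : ℝ) = -(n * ord x) := by
    intro x n hx
    rw [← hlog _ (pow_ne_zero _ (inv_ne_zero hx)), ← hlog x hx, map_pow, norm_pow, Real.log_pow,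
      map_inv₀, norm_inv, Real.log_inv]
    try ring
  set A : K → ℝ := fun z => a z - ord (t z) + ord s / ((d : ℝ) - 1) with hA
  have hA1 : ∀ z ∈ P, (d : ℝ) * A z = -Real.log ‖S.F (vm ι (X z))‖ + A (fz z) := by
    intro z hz
    rw [hFX z hz, norm_smul, hX, mul_one, hlog _ (hlam0 z hz),
      hord_mul _ _ (mul_ne_zero (mul_ne_zero hs (pow_ne_zero _ (inv_ne_zero (ht z))))
      (hP z hz).1) (ht _), hord_mul _ _ (mul_ne_zero hs (pow_ne_zero _ (inv_ne_zero (ht z))))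
      (hP z hz).1, hord_mul _ _ hs (pow_ne_zero _ (inv_ne_zero (ht z))), hord_inv_pow _ _ (ht z)]
    have h1 := ha z hz
    simp only [hA]
    have e1 : (d : ℝ) * (a z - ord (t z) + ord s / ((d : ℝ) - 1)) =
        (d : ℝ) * a z - d * ord (t z) + ord s + ord s / ((d : ℝ) - 1) := by
      field_simp
      ring
    rw [e1, h1]
    ring
  have hfP : ∀ z ∈ P, fz z ∈ P := fun z hz => (hP z hz).2
  -- iteration
  have hiter : ∀ (n : ℕ), ∀ z ∈ P, ∃ z' ∈ P, ∃ μ : Ω, S.F^[n] (vm ι (X z)) = μ • vm ι (X z') ∧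
      μ ≠ 0 ∧ (d : ℝ) ^ n * A z = -Real.log ‖μ‖ + A z' := by
    intro n
    induction n with
    | zero =>
      intro z hz
      exact ⟨z, hz, 1, by simp, one_ne_zero, by simp⟩
    | succ n ih =>
      intro z hz
      obtain ⟨z', hz', μ, h1, h2, h3⟩ := ih z hz
      have hl0 : ι (s * (t z')⁻¹ ^ d * q.eval z' * t (fz z')) ≠ 0 :=
        (map_ne_zero ι).mpr (hlam0 z' hz')
      refine ⟨fz z', hfP z' hz', μ ^ d * ι (s * (t z')⁻¹ ^ d * q.eval z' * t (fz z')), ?_,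
        mul_ne_zero (pow_ne_zero _ h2) hl0, ?_⟩
      · rw [Function.iterate_succ_apply', h1, S.hom, hFX z' hz', smul_smul, hdS]
      · rw [norm_mul, norm_pow, Real.log_mul (pow_ne_zero _ (norm_ne_zero_iff.mpr h2))
          (norm_ne_zero_iff.mpr hl0), Real.log_pow]
        have h4 := hA1 z' hz'
        rw [hFX z' hz', norm_smul, hX, mul_one] at h4
        rw [pow_succ]
        have : (d : ℝ) ^ n * d * A z = d * ((d : ℝ) ^ n * A z) := by ring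
        rw [this, h3]
        linarith
  -- bounds
  have hSF1 : ∀ z, 0 ≤ -Real.log ‖S.F (vm ι (X z))‖ ∧ -Real.log ‖S.F (vm ι (X z))‖ ≤ S.Res := by
    intro z
    constructor
    · have h1 := HS.le_gs (S := S) (hX z).le
      rw [hgs] at h1
      have := Real.log_nonpos (norm_nonneg _) h1
      linarith
    · have h1 := HS.lower B hgs.le (hX z)
      have h2 := Real.log_le_log (Real.exp_pos _) h1
      rw [Real.log_exp] at h2
      linarith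
  have hAb : ∀ z ∈ P, 0 ≤ A z ∧ A z ≤ S.Res / ((d : ℝ) - 1) := by
    intro z hz
    have hne : P.Nonempty := ⟨z, hz⟩
    constructor
    · obtain ⟨z₀, hz₀, hm⟩ := Finset.exists_min_image P A hne
      have h1 := hA1 z₀ hz₀
      have h2 := hm _ (hfP z₀ hz₀)
      have h3 := (hSF1 z₀).1
      have h4 := hm z hz
      nlinarith
    · obtain ⟨z₀, hz₀, hm⟩ := Finset.exists_max_image P A hne
      have h1 := hA1 z₀ hz₀
      have h2 := hm _ (hfP z₀ hz₀)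
      have h3 := (hSF1 z₀).2
      have h4 := hm z hz
      refine h4.trans ?_
      rw [le_div_iff₀ hd1]
      nlinarith
  exact ⟨t, X, A, fun z => ⟨ht z, hX z, hgX z, rfl⟩, hAb, hiter⟩

omit [IsUltrametricDist Ω] in
lemma wd_ne_of_ne (ι : K →+* Ω) {U V : K × K} {t : K → K} {X : K → K × K}
    (hgX : ∀ z, t z • gmK U V (X z) = (z, 1)) {z z' : K} (hne : z ≠ z') :
    wd (vm ι (X z)) (vm ι (X z')) ≠ 0 := by
  intro h
  rw [vm_wd, map_eq_zero] at h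
  have h1 := wd_gmK U V (X z) (X z')
  rw [h, mul_zero] at h1
  have h2 : wd (t z • gmK U V (X z)) (t z' • gmK U V (X z')) = 0 := by
    rw [wd_smul_left, wd_smul_right, h1, mul_zero, mul_zero]
  rw [hgX, hgX] at h2
  unfold wd at h2
  simp only [mul_one, one_mul] at h2
  exact hne (sub_eq_zero.mp h2)

/-- number of colours -/
def qJ (d J : ℕ) : ℕ := (d ^ J + d ^ J) * (J + 1)

/-- **Colours and close pairs in any rational coordinate.** -/
theorem colour_struct [IsAlgClosed Ω] (ι : K →+* Ω) {c : ℕ → K}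
    (hnat : (∀ i, ‖ι (c i)‖ ≤ 1) ∧ ∀ i j, i ≠ j → ‖ι (c i) - ι (c j)‖ = 1)
    (d : ℕ) (hd : 2 ≤ d) (P : Finset K)
    (S₀ S : HS Ω) (hrat : ∀ X : K × K, ∃ Y : K × K, S₀.F (vm ι X) = vm ι Y)
    (hK : Kr ι S₀ S) (hdS : S.d = d) (hgs : S.gs = 1)
    (U V : K × K) (t : K → K) (X : K → K × K) (A : K → ℝ) (hX : ∀ z, ‖vm ι (X z)‖ = 1)
    (hgX : ∀ z, t z • gmK U V (X z) = (z, 1))
    (hAb : ∀ z ∈ P, 0 ≤ A z ∧ A z ≤ S.Res / ((d : ℝ) - 1))
    (hiter : ∀ n : ℕ, ∀ z ∈ P, ∃ z' ∈ P, ∃ μ : Ω, S.F^[n] (vm ι (X z)) = μ • vm ι (X z') ∧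
        μ ≠ 0 ∧ (d : ℝ) ^ n * A z = -Real.log ‖μ‖ + A z') (hR1' : 0 < S.Res) (J : ℕ)
        (hJ : 1 ≤ J) :
    ∃ χ : K → Fin (qJ d J), ∀ z ∈ P, ∀ z' ∈ P, z ≠ z' → χ z = χ z' →
      ∃ S' : HS Ω, Kr ι S₀ S' ∧ S'.gs = 1 ∧ S'.Res / (2 * d * (d + 1)) -
        2 * S.Res / (((d : ℝ) - 1) * (d : ℝ) ^ J) - 2 * S.Res / J ≤
        -Real.log ‖wd (vm ι (X z)) (vm ι (X z'))‖ - 2 * A z + S.Res / (d * ((d : ℝ) - 1)) := by
  classical
  have hdR : (2 : ℝ) ≤ d := by exact_mod_cast hd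
  have hd1 : (0 : ℝ) < (d : ℝ) - 1 := by linarith
  obtain ⟨B, hB⟩ := exists_famK ι hnat
  have hww : ∀ z z' : K, z ≠ z' → wd (vm ι (X z)) (vm ι (X z')) ≠ 0 := fun z z' h =>
    wd_ne_of_ne ι hgX h
  set R : ℝ := S.Res with hRdef
  obtain ⟨c₁, η₁, h₁⟩ := (S.iter J).roots (0, 1) norm_e2
  obtain ⟨c₂, η₂, h₂⟩ := (S.iter J).roots (1, 0) norm_e1
  have hHd : (S.iter J).d = d ^ J := by rw [HS.iter_d, hdS]
  have hdpos : 0 < (S.iter J).d := (S.iter J).hd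
  haveI : Nonempty (Fin (S.iter J).d) := ⟨⟨0, hdpos⟩⟩
  have hnear : ∀ z : K, ∃ i : Fin (S.iter J).d ⊕ Fin (S.iter J).d,
      ∀ j, ‖wd (vm ι (X z)) (Sum.elim η₁ η₂ i)‖ ≤ ‖wd (vm ι (X z)) (Sum.elim η₁ η₂ j)‖ := by
    intro z
    obtain ⟨i, _, hi⟩ := Finset.exists_min_image
      (Finset.univ : Finset (Fin (S.iter J).d ⊕ Fin (S.iter J).d))
      (fun i => ‖wd (vm ι (X z)) (Sum.elim η₁ η₂ i)‖) Finset.univ_nonempty
    exact ⟨i, fun j => hi j (Finset.mem_univ j)⟩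
  choose χ₁ hχ₁ using hnear
  have hJR : (1 : ℝ) ≤ J := by exact_mod_cast hJ
  set wb : ℝ := R / J with hwb
  have hwbpos : 0 < wb := by positivity
  set χ' : K → (Fin (S.iter J).d ⊕ Fin (S.iter J).d) × Fin (J + 1) := fun z =>
    (χ₁ z, ⟨min ⌊A z / wb⌋₊ J, by omega⟩) with hχ'
  have hcard : Fintype.card ((Fin (S.iter J).d ⊕ Fin (S.iter J).d) × Fin (J + 1)) = qJ d J := by
    simp only [Fintype.card_prod, Fintype.card_sum, Fintype.card_fin]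
    rw [hHd]
    rfl
  refine ⟨fun z => Fintype.equivFinOfCardEq hcard (χ' z), ?_⟩
  intro z hz z' hz' hne hχ
  have hχe : χ' z = χ' z' := (Fintype.equivFinOfCardEq hcard).injective hχ
  have hc1 : χ₁ z = χ₁ z' := congrArg Prod.fst hχe
  have hc2 : min ⌊A z / wb⌋₊ J = min ⌊A z' / wb⌋₊ J := by
    have := congrArg Prod.snd hχe
    exact congrArg Fin.val this
  have hfl : ∀ y ∈ P, ⌊A y / wb⌋₊ ≤ J := by
    intro y hy
    have h1 : A y / wb ≤ (J : ℝ) := by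
      rw [div_le_iff₀ hwbpos, hwb]
      have h2 := (hAb y hy).2
      have h3 : R / ((d : ℝ) - 1) ≤ R := by
        rw [div_le_iff₀ hd1]
        nlinarith
      have h4 : (J : ℝ) * (R / J) = R := by field_simp
      rw [h4]
      linarith
    calc ⌊A y / wb⌋₊ ≤ ⌊(J : ℝ)⌋₊ := Nat.floor_mono h1
      _ = _ := Nat.floor_natCast _
  rw [min_eq_left (hfl z hz), min_eq_left (hfl z' hz')] at hc2
  have hAA : ∀ y y', y ∈ P → y' ∈ P → ⌊A y / wb⌋₊ = ⌊A y' / wb⌋₊ → A y - A y' ≤ wb := by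
    intro y y' hy hy' h
    have h1 := Nat.floor_le (div_nonneg (hAb y' hy').1 hwbpos.le)
    have h2 := Nat.lt_floor_add_one (A y / wb)
    rw [← h] at h1
    rw [le_div_iff₀ hwbpos] at h1
    rw [div_lt_iff₀ hwbpos] at h2
    nlinarith
  have hpair : ∀ y y', y ∈ P → y' ∈ P → y ≠ y' → χ₁ y = χ₁ y' →
      ‖wd (vm ι (X y')) (Sum.elim η₁ η₂ (χ₁ y))‖ ≤ ‖wd (vm ι (X y)) (Sum.elim η₁ η₂ (χ₁ y))‖ →
      ∃ S' : HS Ω, Kr ι S₀ S' ∧ S'.gs = 1 ∧ S'.Res / (2 * d * (d + 1)) -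
        2 * S.Res / (((d : ℝ) - 1) * (d : ℝ) ^ J) ≤
        -Real.log ‖wd (vm ι (X y)) (vm ι (X y'))‖ - 2 * A y + R / (d * ((d : ℝ) - 1)) := by
    intro y y' hy hy' hyy hχy hle
    have hw := hww y y' hyy
    have hroot1 : ∀ i, ‖Sum.elim η₁ η₂ i‖ = 1 := by
      rintro (i | i)
      · exact h₁.2.1 i
      · exact h₂.2.1 i
    have hmaxw : ‖wd (vm ι (X y)) (vm ι (X y'))‖ ≤
        ‖wd (vm ι (X y)) (Sum.elim η₁ η₂ (χ₁ y))‖ := by
      refine (wd_ultra (hX y) (hX y') (hroot1 (χ₁ y))).trans (max_le le_rfl ?_)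
      rw [wd_comm, norm_neg]
      exact hle
    obtain ⟨s₂, hs₂, hg₂⟩ := exists_scale hnat hrat hK hw
    obtain ⟨y'', hy'', μ, hμ1, hμ2, hμ3⟩ := hiter J y hy
    have hcp := HS.close_pair' B hgs (by rw [hdS]; exact hd) J (c₁ := c₁) (c₂ := c₂) h₁ h₂ (hX y)
      (hX y') hw (fun l => hmaxw.trans (hχ₁ y (Sum.inl l)))
      (fun l => hmaxw.trans (hχ₁ y (Sum.inr l))) (ι s₂) hs₂ hg₂ (A y) (A y'') (by
        rw [hdS, hμ1, norm_smul, hX, mul_one]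
        exact hμ3) (by
        rw [hdS]
        exact (hAb y'' hy'').2)
    rw [hdS] at hcp
    refine ⟨_, Kr_conj hK hw s₂ hs₂, hg₂, le_trans (le_of_eq ?_) hcp⟩
    congr 1
    field_simp
  rcases le_total ‖wd (vm ι (X z')) (Sum.elim η₁ η₂ (χ₁ z))‖
    ‖wd (vm ι (X z)) (Sum.elim η₁ η₂ (χ₁ z))‖ with hle | hle
  · obtain ⟨S', k1, k2, k3⟩ := hpair z z' hz hz' hne hc1 hle
    refine ⟨S', k1, k2, ?_⟩
    have e8 : 0 ≤ 2 * R / J := by positivity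
    linarith
  · obtain ⟨S', k1, k2, k3⟩ := hpair z' z hz' hz (Ne.symm hne) hc1.symm (by rw [← hc1]; exact hle)
    refine ⟨S', k1, k2, ?_⟩
    rw [wd_comm, norm_neg] at k3
    have h2 := hAA z z' hz hz' hc2
    have e8 : 2 * R / J = 2 * wb := by
      rw [hwb]
      ring
    rw [e8]
    linarith

end Pool.Agent.TH951.P
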