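import Pool.Agent.TH951.P.Loc1

/-!
# The two-field local theorem
-/

namespace Pool.Agent.TH951.P

open Pool.Agent.TH951.W.UB Pool.Agent.TH951.W.UG Pool.Agent.TH951.W.UH Finset Polynomial

/-- Many pairs of the same colour. -/
lemma sum_lower {K : Type*} [DecidableEq K] (P : Finset K) (G : K → K → ℝ) (q : ℕ) (χ : K → Fin q)
    (κ L : ℝ) (hκ : 0 ≤ κ) (hL : 0 ≤ L)
    (hG' : ∀ y ∈ P, ∀ y' ∈ P, y ≠ y' → -L ≤ G y y')
    (hGc : ∀ y ∈ P, ∀ y' ∈ P, y ≠ y' → χ y = χ y' → κ ≤ G y y')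
    (hP : 2 * q ≤ P.card) (hq : 1 ≤ q) :
    κ * (P.card : ℝ) ^ 2 / (2 * q) - L * (P.card : ℝ) ^ 2 ≤
      ∑ y ∈ P, ∑ y' ∈ P, if y = y' then 0 else G y y' := by
  set n : ℝ := (P.card : ℝ) with hn
  have hqR : (1 : ℝ) ≤ q := by exact_mod_cast hq
  have hPR : 2 * (q : ℝ) ≤ n := by
    rw [hn]
    exact_mod_cast hP
  have h1 : ∀ y ∈ P, ∀ y' ∈ P, κ * (if χ y = χ y' then 1 else 0) - L - (if y = y' then κ else 0) ≤
      if y = y' then 0 else G y y' := by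
    intro y hy y' hy'
    by_cases h : y = y'
    · subst h
      simp only [if_true]
      linarith
    · rw [if_neg h, if_neg h]
      by_cases hc : χ y = χ y'
      · rw [if_pos hc]
        have := hGc y hy y' hy' h hc
        linarith
      · rw [if_neg hc]
        have := hG' y hy y' hy' h
        linarith
  have h2 : ∑ y ∈ P, ∑ y' ∈ P, (κ * (if χ y = χ y' then 1 else 0) - L -
      (if y = y' then κ else 0)) ≤ ∑ y ∈ P, ∑ y' ∈ P, if y = y' then 0 else G y y' :=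
    Finset.sum_le_sum fun y hy => Finset.sum_le_sum fun y' hy' => h1 y hy y' hy'
  refine le_trans ?_ h2
  have h3 : ∑ y ∈ P, ∑ y' ∈ P, (κ * (if χ y = χ y' then 1 else 0) - L -
      (if y = y' then κ else 0)) = κ * (∑ y ∈ P, ∑ y' ∈ P, if χ y = χ y' then (1 : ℝ) else 0) -
        L * n ^ 2 - κ * n := by
    simp only [Finset.sum_sub_distrib, Finset.sum_const, nsmul_eq_mul, ← hn, ← Finset.mul_sum]
    have e1 : ∑ y ∈ P, ∑ y' ∈ P, (if y = y' then κ else 0) = κ * n := by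
      rw [Finset.sum_congr rfl fun y hy => by rw [Finset.sum_ite_eq, if_pos hy], Finset.sum_const,
        nsmul_eq_mul, hn]
      ring
    rw [e1]
    ring
  rw [h3]
  have h4 : ∑ y ∈ P, ∑ y' ∈ P, (if χ y = χ y' then (1 : ℝ) else 0) =
      ∑ c : Fin q, (∑ y ∈ P, if χ y = c then (1 : ℝ) else 0) ^ 2 := by
    have e1 : ∀ y y' : K, (if χ y = χ y' then (1 : ℝ) else 0) =
        ∑ c : Fin q, (if χ y = c then (1 : ℝ) else 0) * (if χ y' = c then (1 : ℝ) else 0) := by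
      intro y y'
      simp only [ite_mul, one_mul, zero_mul, Finset.sum_ite_eq, Finset.mem_univ, if_true]
      by_cases h : χ y = χ y'
      · rw [if_pos h, if_pos h.symm]
      · rw [if_neg h, if_neg (Ne.symm h)]
    simp_rw [e1, sq, Finset.sum_mul_sum]
    rw [Finset.sum_comm' (s := P) (t := fun _ => P) (t' := P) (s' := fun _ => P)
      (by intro x y; exact ⟨fun h => ⟨h.1, h.2⟩, fun h => ⟨h.1, h.2⟩⟩)]
    rw [Finset.sum_comm]
    rw [show (∑ y ∈ P, ∑ x ∈ P, ∑ c : Fin q, (if χ y = c then (1 : ℝ) else 0) *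
      (if χ x = c then (1 : ℝ) else 0)) = ∑ y ∈ P, ∑ c : Fin q, ∑ x ∈ P,
        (if χ y = c then (1 : ℝ) else 0) * (if χ x = c then (1 : ℝ) else 0) from
      Finset.sum_congr rfl fun y _ => Finset.sum_comm]
    rw [Finset.sum_comm]
  have h5 : n ^ 2 ≤ q * ∑ c : Fin q, (∑ y ∈ P, if χ y = c then (1 : ℝ) else 0) ^ 2 := by
    have e1 := sq_sum_le_card_mul_sum_sq (s := (Finset.univ : Finset (Fin q)))
      (f := fun c => ∑ y ∈ P, if χ y = c then (1 : ℝ) else 0)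
    rw [Finset.card_univ, Fintype.card_fin] at e1
    have e2 : ∑ c : Fin q, ∑ y ∈ P, (if χ y = c then (1 : ℝ) else 0) = n := by
      rw [Finset.sum_comm]
      simp only [Finset.sum_ite_eq, Finset.mem_univ, if_true, Finset.sum_const, nsmul_eq_mul,
        mul_one, hn]
    rw [e2] at e1
    exact e1
  rw [h4]
  set T := ∑ c : Fin q, (∑ y ∈ P, if χ y = c then (1 : ℝ) else 0) ^ 2 with hT
  have h6 : κ * n ^ 2 / (2 * q) ≤ κ * T - κ * n := by
    rw [div_le_iff₀ (by positivity)]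
    have e1 : κ * n ^ 2 ≤ κ * (q * T) := mul_le_mul_of_nonneg_left h5 hκ
    have e2 : κ * (2 * q * n) ≤ κ * (n * n) := by
      apply mul_le_mul_of_nonneg_left _ hκ
      exact mul_le_mul_of_nonneg_right hPR (by linarith)
    nlinarith
  linarith


variable {Ω : Type*} [NormedField Ω] [IsUltrametricDist Ω] {K : Type*} [Field K]

/-- the semilinear map on vectors -/
def fr (φ : K →+* K) (X : K × K) : K × K := (φ X.1, φ X.2)

lemma wd_fr (φ : K →+* K) (X Y : K × K) : wd (fr φ X) (fr φ Y) = φ (wd X Y) := by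
  unfold wd fr
  simp

lemma gmK_fr (φ : K →+* K) (U V X : K × K) : gmK (fr φ U) (fr φ V) (fr φ X) = fr φ (gmK U V X) := by
  unfold gmK fr
  ext <;> simp

omit [IsUltrametricDist Ω] in
lemma log_wd (ι : K →+* Ω) (ord : K → ℤ)
    (hι : ∀ x : K, x ≠ 0 → ‖ι x‖ = Real.exp (-(ord x : ℝ))) {U V : K × K} (hUV : wd U V ≠ 0)
    {t : K → K} {X : K → K × K} (ht : ∀ z, t z ≠ 0) (hgX : ∀ z, t z • gmK U V (X z) = (z, 1))
    {z z' : K} (hne : z ≠ z') :
    -Real.log ‖wd (vm ι (X z)) (vm ι (X z'))‖ =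
      (ord (z - z') : ℝ) - ord (t z) - ord (t z') - ord (wd U V) := by
  have hlog : ∀ x : K, x ≠ 0 → -Real.log ‖ι x‖ = ord x := by
    intro x hx
    rw [hι x hx, Real.log_exp, neg_neg]
  have hzz : z - z' = t z * (t z' * (wd U V * wd (X z) (X z'))) := by
    have h2 : wd (t z • gmK U V (X z)) (t z' • gmK U V (X z')) =
        t z * (t z' * (wd U V * wd (X z) (X z'))) := by
      rw [wd_smul_left, wd_smul_right, wd_gmK]
    rw [hgX, hgX] at h2
    rw [← h2]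
    unfold wd
    ring
  have hw : wd (X z) (X z') ≠ 0 := by
    intro h
    rw [h, mul_zero, mul_zero, mul_zero] at hzz
    exact hne (sub_eq_zero.mp hzz)
  have h1 := congrArg (fun x => -Real.log ‖ι x‖) hzz
  simp only [map_mul, norm_mul] at h1
  rw [hlog _ (sub_ne_zero.mpr hne), Real.log_mul (norm_ne_zero_iff.mpr ((map_ne_zero ι).mpr (ht z)))
    (mul_ne_zero (norm_ne_zero_iff.mpr ((map_ne_zero ι).mpr (ht z')))
      (mul_ne_zero (norm_ne_zero_iff.mpr ((map_ne_zero ι).mpr hUV))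
        (norm_ne_zero_iff.mpr ((map_ne_zero ι).mpr hw)))),
    Real.log_mul (norm_ne_zero_iff.mpr ((map_ne_zero ι).mpr (ht z')))
      (mul_ne_zero (norm_ne_zero_iff.mpr ((map_ne_zero ι).mpr hUV))
        (norm_ne_zero_iff.mpr ((map_ne_zero ι).mpr hw))),
    Real.log_mul (norm_ne_zero_iff.mpr ((map_ne_zero ι).mpr hUV))
        (norm_ne_zero_iff.mpr ((map_ne_zero ι).mpr hw))] at h1
  have e1 := hlog _ (ht z)
  have e2 := hlog _ (ht z')
  have e3 := hlog _ hUV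
  rw [vm_wd]
  linarith

/-- The Green function is bounded below by any resultant. -/
lemma GG_lower (ι : K →+* Ω) (ord : K → ℤ)
    (hι : ∀ x : K, x ≠ 0 → ‖ι x‖ = Real.exp (-(ord x : ℝ)))
    {c : ℕ → K} (hnat : (∀ i, ‖ι (c i)‖ ≤ 1) ∧ ∀ i j, i ≠ j → ‖ι (c i) - ι (c j)‖ = 1)
    (d : ℕ) (hd : 2 ≤ d) (p q : Polynomial K)
    (hp : p.natDegree ≤ d) (hq : q.natDegree = d) (P : Finset K)
    (hP : ∀ z ∈ P, q.eval z ≠ 0 ∧ p.eval z / q.eval z ∈ P) (a : K → ℝ)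
    (ha : ∀ z ∈ P, (d : ℝ) * a z = ord (q.eval z) + a (p.eval z / q.eval z))
    (S₀ S : HS Ω) (hF₀ : S₀.F = bF d (p.map ι) (q.map ι)) (hd₀ : S₀.d = d) (ρ : ℝ)
    (hρ : S₀.Res = ρ * (d * ((d : ℝ) - 1))) (hK : Kr ι S₀ S) (hgs : S.gs = 1) :
    0 ≤ S.Res ∧ ∀ z ∈ P, ∀ z' ∈ P, z ≠ z' → -(2 * S.Res) ≤ (ord (z - z') : ℝ) - a z - a z' + ρ := by
  obtain ⟨B, hB⟩ := exists_famK ι hnat
  have hR0 : 0 ≤ S.Res := HS.Res_nonneg B hgs.le
  refine ⟨hR0, ?_⟩
  have hlog : ∀ x : K, x ≠ 0 → -Real.log ‖ι x‖ = ord x := by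
    intro x hx
    rw [hι x hx, Real.log_exp, neg_neg]
  have hdR : (2 : ℝ) ≤ d := by exact_mod_cast hd
  have hd1 : (0 : ℝ) < (d : ℝ) - 1 := by linarith
  obtain ⟨U, V, s, hUV, hs, hdS, hF, hRes⟩ := hK
  obtain ⟨t, X, A, h1, h2, _⟩ := loc_struct ι ord hι hnat d hd p q hp hq P hP a ha S₀ S hF₀ hd₀
    U V s hUV hs hdS hF hgs
  intro z hz z' hz' hne
  have h3 := log_wd ι ord hι hUV (fun z => (h1 z).1) (fun z => (h1 z).2.2.1) hne
  have h4 : 0 ≤ -Real.log ‖wd (vm ι (X z)) (vm ι (X z'))‖ := by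
    have h5 := norm_wd_le (vm ι (X z)) (vm ι (X z'))
    rw [(h1 z).2.1, (h1 z').2.1, one_mul] at h5
    have := Real.log_nonpos (norm_nonneg _) h5
    linarith
  have h5 := (h2 z hz).2
  have h6 := (h2 z' hz').2
  rw [(h1 z).2.2.2] at h5
  rw [(h1 z').2.2.2] at h6
  have h7 : S.Res / ((d : ℝ) - 1) ≤ S.Res := by
    rw [div_le_iff₀ hd1]
    nlinarith
  have e1 := hlog _ hUV
  have e2 := hlog _ hs
  have e1' : Real.log ‖ι (wd U V)‖ = -(ord (wd U V) : ℝ) := by linarith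
  have e2' : Real.log ‖ι s‖ = -(ord s : ℝ) := by linarith
  rw [e1', e2', hd₀, hρ] at hRes
  have h8 : S.Res / (d * ((d : ℝ) - 1)) = ρ + ord (wd U V) + 2 * (ord s / ((d : ℝ) - 1)) := by
    rw [hRes]
    field_simp
    ring
  have h9 : 0 ≤ S.Res / (d * ((d : ℝ) - 1)) := by positivity
  linarith

end Pool.Agent.TH951.P
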