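import Pool.Agent.TH951.P.Loc2

/-!
# The two-field local theorem
-/

namespace Pool.Agent.TH951.P

open Pool.Agent.TH951.W.UB Pool.Agent.TH951.W.UG Pool.Agent.TH951.W.UH Finset Polynomial

variable {Ω : Type*} [NormedField Ω] [IsUltrametricDist Ω] {K : Type*} [Field K]

/-- the depth used for the colours -/
def J₀ (d : ℕ) : ℕ := 1024 * d ^ 2 * (d + 1) ^ 2 * q₀ d

/-- number of colours -/
def q₁ (d : ℕ) : ℕ := qJ d (J₀ d)

/-- the constant in the lower bound for close pairs -/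
noncomputable def κ₂ (d : ℕ) : ℝ := 1 / (256 * d ^ 2 * (d + 1) ^ 2 * q₀ d)

theorem two_field [IsAlgClosed Ω] [DecidableEq K] (ι : K →+* Ω) (ord : K → ℤ)
    (hι : ∀ x : K, x ≠ 0 → ‖ι x‖ = Real.exp (-(ord x : ℝ)))
    (φ : K →+* K) (m : ℕ) (hφ : ∀ x, x ≠ 0 → ord (φ x) = m * ord x)
    {c : ℕ → K}
    (hnat : (∀ i, ‖ι (φ (c i))‖ ≤ 1) ∧ ∀ i j, i ≠ j → ‖ι (φ (c i)) - ι (φ (c j))‖ = 1)
    (d : ℕ) (hd : 2 ≤ d) (p q : Polynomial K)
    (hp : p.natDegree ≤ d) (hq : q.natDegree = d) (hco : IsCoprime p q)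
    (hres : resultant q p d d ≠ 0) (P P₁ : Finset K)
    (hP : ∀ z ∈ P, (q.map φ).eval z ≠ 0 ∧ (p.map φ).eval z / (q.map φ).eval z ∈ P)
    (hP₁ : ∀ z ∈ P₁, q.eval z ≠ 0 ∧ p.eval z / q.eval z ∈ P₁)
    (hPP : ∀ y ∈ P₁, φ y ∈ P) (a : K → ℝ)
    (ha : ∀ z ∈ P, (d : ℝ) * a z = ord ((q.map φ).eval z) +
      a ((p.map φ).eval z / (q.map φ).eval z)) (ρ : ℝ)
    (hρ : ρ = (ord (resultant (q.map φ) (p.map φ) d d) : ℝ) / (d * ((d : ℝ) - 1))) :
    ∃ (U V : K × K) (σ : ℝ) (R : ℕ) (t : K → K) (X : K → K × K),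
      wd U V ≠ 0 ∧ m ∣ R ∧
      (R : ℝ) / (d * ((d : ℝ) - 1)) = ρ + m * ord (wd U V) + 2 * σ ∧
      (∀ z, t z ≠ 0 ∧ ‖vm ι (X z)‖ = 1 ∧ t z • gmK (fr φ U) (fr φ V) (X z) = (z, 1)) ∧
      (∀ z ∈ P, 0 ≤ a z - ord (t z) + σ ∧ a z - ord (t z) + σ ≤ R / ((d : ℝ) - 1)) ∧
      (∀ n : ℕ, (d : ℝ) ^ (2 * n) ≤ P₁.card → -(4 * (P₁.card : ℝ) ^ 2 * R / (d : ℝ) ^ n) ≤
        ∑ y ∈ P₁, ∑ y' ∈ P₁, if y = y' then 0 else
          ((ord (φ y - φ y') : ℝ) - a (φ y) - a (φ y') + ρ)) ∧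
      (1 ≤ R → ∃ χ : K → Fin (q₀ d), ∀ y ∈ P₁, ∀ y' ∈ P₁, y ≠ y' → χ y = χ y' →
        (R : ℝ) / (8 * d * (d + 1)) ≤ (ord (φ y - φ y') : ℝ) - a (φ y) - a (φ y') + ρ) ∧
      (1 ≤ R → 2 * q₀ d ≤ P₁.card → (∑ y ∈ P₁, ∑ y' ∈ P₁, if y = y' then 0 else
          ((ord (φ y - φ y') : ℝ) - a (φ y) - a (φ y') + ρ)) <
            R / (8 * d * (d + 1)) * (P₁.card : ℝ) ^ 2 / (4 * q₀ d) →
        ∃ χ : K → Fin (q₁ d), ∀ z ∈ P, ∀ z' ∈ P, z ≠ z' → χ z = χ z' →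
          κ₂ d * R ≤ ((ord (z - z') : ℝ) - ord (t z) - ord (t z') - m * ord (wd U V)) -
            2 * (a z - ord (t z) + σ) + (R : ℝ) / (d * ((d : ℝ) - 1))) := by
  classical
  have hdR : (2 : ℝ) ≤ d := by exact_mod_cast hd
  have hd1 : (0 : ℝ) < (d : ℝ) - 1 := by linarith
  have hlog : ∀ x : K, x ≠ 0 → -Real.log ‖ι x‖ = ord x := by
    intro x hx
    rw [hι x hx, Real.log_exp, neg_neg]
  set ι' : K →+* Ω := ι.comp φ with hι'def
  have hι' : ∀ x : K, x ≠ 0 → ‖ι' x‖ = Real.exp (-(((m * ord x : ℤ)) : ℝ)) := by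
    intro x hx
    have h1 : ι' x = ι (φ x) := rfl
    rw [h1, hι _ ((map_ne_zero φ).mpr hx), hφ x hx]
  have hnat' : (∀ i, ‖ι' (c i)‖ ≤ 1) ∧ ∀ i j, i ≠ j → ‖ι' (c i) - ι' (c j)‖ = 1 := hnat
  have ha' : ∀ z ∈ P₁, (d : ℝ) * a (φ z) = ((m * ord (q.eval z) : ℤ) : ℝ) +
      a (φ (p.eval z / q.eval z)) := by
    intro z hz
    have h1 := ha (φ z) (hPP z hz)
    rw [eval_map_apply, eval_map_apply, hφ _ (hP₁ z hz).1, ← map_div₀] at h1
    exact h1
  obtain ⟨S₀, S, U, V, s, R, t', X', A', ⟨hF₀, hd₀, hRes₀, hdS, hgs, hSR, hF⟩, hUV, hs, hR, hX',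
    hAb', hE, hC⟩ := local_vec' ι' (fun x => m * ord x) hι' hnat' d hd p q hp hq hco P₁ hP₁
      (fun z => a (φ z)) ha'
  have hF₀' : S₀.F = bF d ((p.map φ).map ι) ((q.map φ).map ι) := by
    rw [hF₀, Polynomial.map_map, Polynomial.map_map]
  have hUV' : wd (fr φ U) (fr φ V) ≠ 0 := by
    rw [wd_fr]
    exact (map_ne_zero φ).mpr hUV
  have hs' : φ s ≠ 0 := (map_ne_zero φ).mpr hs
  have hF' : ∀ X, S.F X = ι (φ s) • gi (vm ι (fr φ U)) (vm ι (fr φ V))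
      (S₀.F (gm (vm ι (fr φ U)) (vm ι (fr φ V)) X)) := hF
  have hp' : (p.map φ).natDegree ≤ d := natDegree_map_le.trans hp
  have hq' : (q.map φ).natDegree = d := by rw [natDegree_map, hq]
  have hnat1 : (∀ i, ‖ι ((φ ∘ c) i)‖ ≤ 1) ∧ ∀ i j, i ≠ j →
      ‖ι ((φ ∘ c) i) - ι ((φ ∘ c) j)‖ = 1 := hnat
  obtain ⟨t, X, A, hX, hAb, hiter⟩ := loc_struct ι ord hι hnat1 d hd (p.map φ) (q.map φ) hp' hq' P
    hP a ha S₀ S hF₀' hd₀ (fr φ U) (fr φ V) (φ s) hUV' hs' hdS hF' hgs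
  have hordw : ord (wd (fr φ U) (fr φ V)) = m * ord (wd U V) := by
    rw [wd_fr, hφ _ hUV]
  have hords : ord (φ s) = m * ord s := hφ _ hs
  have hordres : ord (resultant (q.map φ) (p.map φ) d d) = m * ord (resultant q p d d) := by
    rw [resultant_map_map, hφ _ hres]
  push_cast at hR hRes₀
  set σ : ℝ := m * ord s / ((d : ℝ) - 1) with hσ
  have hρ' : ρ = (m * ord (resultant q p d d) : ℝ) / (d * ((d : ℝ) - 1)) := by
    rw [hρ, hordres]
    push_cast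
    rfl
  have hR' : (R : ℝ) / (d * ((d : ℝ) - 1)) = ρ + m * ord (wd U V) + 2 * σ := by
    rw [hR, hρ', hσ]
    ring
  have hAeq : ∀ z, A z = a z - ord (t z) + σ := by
    intro z
    rw [(hX z).2.2.2, hords, hσ]
    push_cast
    ring
  have hGG' : ∀ y y', y ≠ y' → -Real.log ‖wd (vm ι' (X' y)) (vm ι' (X' y'))‖ - A' y - A' y' +
      (R : ℝ) / (d * ((d : ℝ) - 1)) = (ord (φ y - φ y') : ℝ) - a (φ y) - a (φ y') + ρ := by
    intro y y' hne
    have h1 := log_wd ι' (fun x => m * ord x) hι' hUV (fun z => (hX' z).1)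
      (fun z => (hX' z).2.2.1) hne
    push_cast at h1
    have h2 : ord (φ y - φ y') = m * ord (y - y') := by
      rw [← map_sub, hφ _ (sub_ne_zero.mpr hne)]
    rw [h1, h2, (hX' y).2.2.2, (hX' y').2.2.2, hR', hσ]
    push_cast
    ring
  have hE' : ∀ n : ℕ, (d : ℝ) ^ (2 * n) ≤ P₁.card → -(4 * (P₁.card : ℝ) ^ 2 * R / (d : ℝ) ^ n) ≤
        ∑ y ∈ P₁, ∑ y' ∈ P₁, if y = y' then 0 else
          ((ord (φ y - φ y') : ℝ) - a (φ y) - a (φ y') + ρ) := by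
    intro n hn
    refine (hE n hn).trans (le_of_eq ?_)
    apply Finset.sum_congr rfl
    intro z _
    apply Finset.sum_congr rfl
    intro z' _
    by_cases h : z = z'
    · simp [h]
    · rw [if_neg h, if_neg h, hGG' z z' h]
  have hC0 : 1 ≤ R → ∃ χ : K → Fin (q₀ d), ∀ y ∈ P₁, ∀ y' ∈ P₁, y ≠ y' → χ y = χ y' →
        (R : ℝ) / (8 * d * (d + 1)) ≤ (ord (φ y - φ y') : ℝ) - a (φ y) - a (φ y') + ρ := by
    intro hR1
    obtain ⟨χ, hχ⟩ := hC hR1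
    refine ⟨χ, fun y hy y' hy' hne hc => ?_⟩
    have h1 := hχ y hy y' hy' hne hc
    have h2 := hχ y' hy' y hy hne.symm hc.symm
    rw [wd_comm, norm_neg] at h2
    have h3 := hGG' y y' hne
    linarith
  refine ⟨U, V, σ, R, t, X, hUV, ?_, hR', fun z => ⟨(hX z).1, (hX z).2.1, (hX z).2.2.1⟩, ?_, hE',
    hC0, ?_⟩
  · -- divisibility
    have h1 : (R : ℝ) = m * (ord (resultant q p d d) + d * ((d : ℝ) - 1) * ord (wd U V) +
        2 * d * ord s) := by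
      have h2 : (R : ℝ) = (R : ℝ) / (d * ((d : ℝ) - 1)) * (d * ((d : ℝ) - 1)) := by
        field_simp
      rw [h2, hR', hρ', hσ]
      field_simp
    have h2 : (R : ℤ) = m * (ord (resultant q p d d) + d * ((d : ℤ) - 1) * ord (wd U V) +
        2 * d * ord s) := by exact_mod_cast h1
    exact Int.natCast_dvd_natCast.mp ⟨_, h2⟩
  · intro z hz
    rw [← hAeq z, ← hSR]
    exact hAb z hz
  · -- honest places
    intro hR1 hcard hsmall
    have hRR : (1 : ℝ) ≤ R := by exact_mod_cast hR1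
    obtain ⟨χ₀, hχ₀⟩ := hC0 hR1
    have hRS : 0 < S.Res := by
      rw [hSR]
      linarith
    have hq0 : 1 ≤ q₀ d := by
      unfold q₀
      have : 0 < d ^ 6 := by positivity
      apply Nat.one_le_iff_ne_zero.mpr
      positivity
    have hJ1 : 1 ≤ J₀ d := by
      unfold J₀
      apply Nat.one_le_iff_ne_zero.mpr
      positivity
    have hrat : ∀ X : K × K, ∃ Y : K × K, S₀.F (vm ι X) = vm ι Y := by
      intro X
      refine ⟨(hev d (p.map φ) X, hev d (q.map φ) X), ?_⟩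
      rw [hF₀']
      unfold bF
      rw [hev_map, hev_map]
      rfl
    have hKr : Kr ι S₀ S := by
      refine ⟨fr φ U, fr φ V, φ s, hUV', hs', hdS, hF', ?_⟩
      have e1 := hlog _ hUV'
      have e2 := hlog _ hs'
      have e1' : Real.log ‖ι (wd (fr φ U) (fr φ V))‖ = -(m * ord (wd U V) : ℝ) := by
        rw [hordw] at e1
        push_cast at e1
        linarith
      have e2' : Real.log ‖ι (φ s)‖ = -(m * ord s : ℝ) := by
        rw [hords] at e2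
        push_cast at e2
        linarith
      rw [e1', e2', hd₀, hSR, hRes₀]
      have h2 : (R : ℝ) = (R : ℝ) / (d * ((d : ℝ) - 1)) * (d * ((d : ℝ) - 1)) := by
        field_simp
      rw [h2, hR', hρ', hσ]
      field_simp
      ring
    obtain ⟨χ, hχ⟩ := colour_struct ι hnat1 d hd P S₀ S hrat hKr (by rw [hdS, hd₀]) hgs (fr φ U)
      (fr φ V) t X A (fun z => (hX z).2.1) (fun z => (hX z).2.2.1) hAb hiter hRS (J₀ d) hJ1
    refine ⟨χ, fun z hz z' hz' hne hc => ?_⟩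
    obtain ⟨S', hK', hgs', hineq⟩ := hχ z hz z' hz' hne hc
    obtain ⟨hR'0, hlow⟩ := GG_lower ι ord hι hnat1 d hd (p.map φ) (q.map φ) hp' hq' P hP a ha S₀ S'
      hF₀' hd₀ ρ (by
        rw [hRes₀, hρ']
        field_simp) hK' hgs'
    have hsl := sum_lower P₁ (fun y y' => (ord (φ y - φ y') : ℝ) - a (φ y) - a (φ y') + ρ) (q₀ d) χ₀
      ((R : ℝ) / (8 * d * (d + 1))) (2 * S'.Res) (by positivity) (by positivity)
      (fun y hy y' hy' hyy => hlow (φ y) (hPP y hy) (φ y') (hPP y' hy')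
        (fun h => hyy (φ.injective h))) hχ₀ hcard hq0
    have hnpos : (0 : ℝ) < P₁.card := by
      have : 0 < P₁.card := by omega
      exact_mod_cast this
    have hq0R : (1 : ℝ) ≤ q₀ d := by exact_mod_cast hq0
    set n : ℝ := (P₁.card : ℝ) with hn
    set Q0 : ℝ := (q₀ d : ℝ) with hQ0
    -- the resultant of S' is large
    have hbig : (R : ℝ) / (8 * d * (d + 1)) / (8 * Q0) ≤ S'.Res := by
      have h1 : (R : ℝ) / (8 * d * (d + 1)) * n ^ 2 / (2 * Q0) - 2 * S'.Res * n ^ 2 <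
          R / (8 * d * (d + 1)) * n ^ 2 / (4 * Q0) := lt_of_le_of_lt hsl hsmall
      have h2 : ((R : ℝ) / (8 * d * (d + 1)) / (2 * Q0) - 2 * S'.Res) * n ^ 2 <
          R / (8 * d * (d + 1)) / (4 * Q0) * n ^ 2 := by
        have e1 : ((R : ℝ) / (8 * d * (d + 1)) / (2 * Q0) - 2 * S'.Res) * n ^ 2 =
          (R : ℝ) / (8 * d * (d + 1)) * n ^ 2 / (2 * Q0) - 2 * S'.Res * n ^ 2 := by ring
        have e2 : (R : ℝ) / (8 * d * (d + 1)) / (4 * Q0) * n ^ 2 =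
          R / (8 * d * (d + 1)) * n ^ 2 / (4 * Q0) := by ring
        rw [e1, e2]
        exact h1
      have h3 := lt_of_mul_lt_mul_right h2 (sq_nonneg n)
      have e1 : (R : ℝ) / (8 * d * (d + 1)) / (2 * Q0) = 4 * (R / (8 * d * (d + 1)) / (8 * Q0)) := by
        field_simp
        ring
      have e2 : (R : ℝ) / (8 * d * (d + 1)) / (4 * Q0) = 2 * (R / (8 * d * (d + 1)) / (8 * Q0)) := by
        field_simp
        ring
      rw [e1, e2] at h3
      linarith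
    -- conclusion
    have hlw := log_wd ι ord hι hUV' (fun z => (hX z).1) (fun z => (hX z).2.2.1) hne
    rw [hordw] at hlw
    push_cast at hlw
    rw [hlw, hAeq z, hSR] at hineq
    refine le_trans ?_ hineq
    have hJ1R : (1 : ℝ) ≤ J₀ d := by exact_mod_cast hJ1
    have hJR : (J₀ d : ℝ) = 1024 * d ^ 2 * (d + 1) ^ 2 * Q0 := by
      unfold J₀
      push_cast
      rfl
    have hJpow : (J₀ d : ℝ) ≤ (d : ℝ) ^ (J₀ d) := by
      have h10 : J₀ d < d ^ (J₀ d) := Nat.lt_pow_self (by omega)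
      exact_mod_cast h10.le
    have h5 : 2 * (R : ℝ) / (((d : ℝ) - 1) * (d : ℝ) ^ (J₀ d)) ≤ 2 * R / J₀ d := by
      apply div_le_div_of_nonneg_left (by positivity) (by linarith)
      have h6 : (1 : ℝ) ≤ (d : ℝ) - 1 := by linarith
      have h7 : 0 < (d : ℝ) ^ (J₀ d) := by positivity
      nlinarith
    have h6 : 2 * (R : ℝ) / J₀ d = κ₂ d * R / 2 := by
      rw [hJR]
      unfold κ₂
      rw [← hQ0]
      field_simp
      ring
    have h7 : 2 * (κ₂ d * R) ≤ S'.Res / (2 * d * (d + 1)) := by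
      have e1 : 2 * (κ₂ d * R) = (R : ℝ) / (8 * d * (d + 1)) / (8 * Q0) / (2 * d * (d + 1)) := by
        unfold κ₂
        rw [← hQ0]
        field_simp
        ring
      rw [e1]
      exact div_le_div_of_nonneg_right hbig (by positivity)
    linarith

end Pool.Agent.TH951.P
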