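import Pool.Agent.TH951.P.Cj
import Pool.Agent.TH951.P.Ker

/-!
# Frobenius descent
-/

namespace Pool.Agent.TH951.P

open Pool.Agent.TH951.W.UB Pool.Agent.TH951.W.UG Pool.Agent.TH951.W.UH Finset Polynomial

variable {k K : Type*} [Field k] [Field K] [Algebra k K]

/-- the derivation on coefficients -/
noncomputable def cD (D : Derivation k K K) (d : ℕ) (g : Polynomial K) : Polynomial K :=
  ∑ i ∈ Finset.range (d + 1), monomial i (D (g.coeff i))

lemma cD_coeff (D : Derivation k K K) {d n : ℕ} (g : Polynomial K) (hn : n ≤ d) :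
    (cD D d g).coeff n = D (g.coeff n) := by
  unfold cD
  rw [finsetSum_coeff, Finset.sum_eq_single n]
  · rw [coeff_monomial, if_pos rfl]
  · intro i _ hi
    rw [coeff_monomial, if_neg hi]
  · intro h
    exact absurd (Finset.mem_range.mpr (by omega)) h

lemma cD_degree (D : Derivation k K K) (d : ℕ) (g : Polynomial K) : (cD D d g).natDegree ≤ d := by
  unfold cD
  apply natDegree_sum_le_of_forall_le
  intro i hi
  rw [Finset.mem_range] at hi
  exact (natDegree_monomial_le _).trans (by omega)

lemma cD_eval (D : Derivation k K K) {d : ℕ} {g : Polynomial K} (hg : g.natDegree ≤ d) {x : K}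
    (hx : D x = 0) : (cD D d g).eval x = D (g.eval x) := by
  unfold cD
  rw [eval_finsetSum, eval_eq_sum_range' (n := d + 1) (by omega), map_sum]
  apply Finset.sum_congr rfl
  intro i _
  rw [eval_monomial, Derivation.leibniz, Derivation.leibniz_pow, hx]
  simp only [smul_zero, smul_eq_mul, zero_add]
  ring

/-- A rational function with many constant values at constants has constant coefficients. -/
lemma coeffs_const (D : Derivation k K K) {d : ℕ} {P Q : Polynomial K}
    (hP : P.natDegree ≤ d) (hQ : Q.Monic) (hQd : Q.natDegree = d) (hco : IsCoprime P Q)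
    (T : Finset K) (hT : 2 * d + 1 ≤ T.card)
    (h : ∀ x ∈ T, D x = 0 ∧ Q.eval x ≠ 0 ∧ D (P.eval x / Q.eval x) = 0) (n : ℕ) :
    D (P.coeff n) = 0 ∧ D (Q.coeff n) = 0 := by
  have hG : cD D d P * Q - P * cD D d Q = 0 := by
    apply eq_zero_of_natDegree_lt_card_of_eval_eq_zero' _ T
    · intro x hx
      obtain ⟨h1, h2, h3⟩ := h x hx
      rw [eval_sub, eval_mul, eval_mul, cD_eval D hP h1, cD_eval D hQd.le h1]
      rw [Derivation.leibniz_div] at h3
      simp only [smul_eq_mul] at h3
      have h4 := (mul_eq_zero.mp h3).resolve_left (pow_ne_zero _ (inv_ne_zero h2))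
      linear_combination h4
    · have h1 : (cD D d P * Q).natDegree ≤ 2 * d := natDegree_mul_le.trans (by
        have := cD_degree D d P
        omega)
      have h2 : (P * cD D d Q).natDegree ≤ 2 * d := natDegree_mul_le.trans (by
        have := cD_degree D d Q
        omega)
      exact lt_of_le_of_lt ((natDegree_sub_le _ _).trans (max_le h1 h2)) (by omega)
  have hdvd : Q ∣ cD D d Q := by
    apply hco.symm.dvd_of_dvd_mul_left
    exact ⟨cD D d P, by rw [← sub_eq_zero.mp hG]; ring⟩
  have hcQ : cD D d Q = 0 := by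
    by_contra hne
    have h1 := natDegree_le_of_dvd hdvd hne
    have h2 := cD_degree D d Q
    have h3 : (cD D d Q).natDegree = d := by omega
    have h4 : (cD D d Q).leadingCoeff ≠ 0 := leadingCoeff_ne_zero.mpr hne
    apply h4
    unfold Polynomial.leadingCoeff
    rw [h3, cD_coeff D Q le_rfl]
    have h5 : Q.coeff d = 1 := by
      rw [← hQd]
      exact hQ
    rw [h5, Derivation.map_one_eq_zero]
  have hcP : cD D d P = 0 := by
    rw [hcQ, mul_zero, sub_zero] at hG
    exact (mul_eq_zero.mp hG).resolve_right hQ.ne_zero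
  by_cases hn : n ≤ d
  · rw [← cD_coeff D P hn, ← cD_coeff D Q hn, hcP, hcQ]
    simp
  · rw [coeff_eq_zero_of_natDegree_lt (by omega), coeff_eq_zero_of_natDegree_lt (by omega)]
    simp

lemma frob_lift (p : ℕ) [Fact p.Prime] [CharP K p] [ExpChar K p] (g : Polynomial K)
    (h : ∀ n, ∃ y, y ^ p = g.coeff n) : ∃ g₁ : Polynomial K, g = g₁.map (frobenius K p) := by
  have h1 : g ∈ lifts (frobenius K p) := by
    rw [lifts_iff_coeff_lifts]
    intro n
    obtain ⟨y, hy⟩ := h n
    exact ⟨y, hy⟩
  obtain ⟨g₁, hg⟩ := (mem_lifts g).mp h1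
  exact ⟨g₁, hg.symm⟩

/-- **Frobenius descent.** -/
theorem frob_step [DecidableEq K] [Infinite K] (p : ℕ) [Fact p.Prime] [CharP K p] [ExpChar K p]
    (Q : PlaceData k K) (hker : ∀ x, Q.D x = 0 → ∃ y, y ^ p = x) (d : ℕ) (hd : 2 ≤ d)
    (P R : Polynomial K) (hP : P.natDegree ≤ d) (hR : R.natDegree = d) (hco : IsCoprime P R)
    (S : Finset K) (hS : ∀ z ∈ S, R.eval z ≠ 0 ∧ P.eval z / R.eval z ∈ S) (T : Finset K)
    (hTS : T ⊆ S) (α β γ : K) (hT : ∀ x ∈ T, Q.D x = α * x ^ 2 + β * x + γ)
    (hcard : (d + 1) * (S \ T).card + (3 * d + 4) ≤ S.card) :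
    ∃ (s m lam ν : K) (P₁ R₁ : Polynomial K), s ≠ 0 ∧ lam ≠ 0 ∧ m ∉ S ∧
      P.eval m ≠ m * R.eval m ∧ cP d s m lam ν P R = P₁.map (frobenius K p) ∧
      cQ d s m lam ν P R = R₁.map (frobenius K p) ∧ ∀ x ∈ T, ∃ y, y ^ p = mb m lam ν x := by
  have hTc : (S \ T).card + T.card = S.card := by
    rw [Finset.card_sdiff_of_subset hTS]
    have := Finset.card_le_card hTS
    omega
  have h1 : (S \ T).card ≤ (d + 1) * (S \ T).card := Nat.le_mul_of_pos_left _ (by omega)
  obtain ⟨x0, hx0, x1, hx1, x2, hx2, h01, h02, h12⟩ := Finset.two_lt_card.mp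
    (show 2 < T.card by omega)
  have hα1 : x1 - x2 ≠ 0 := sub_ne_zero.mpr h12
  have hβ1 : x1 - x0 ≠ 0 := sub_ne_zero.mpr h01.symm
  set a1 := x1 - x2 with ha1
  set b1 := x1 - x0 with hb1
  have hPX : P - X * R ≠ 0 := by
    intro h
    have h2 : P = X * R := sub_eq_zero.mp h
    have hR0 : R ≠ 0 := by
      rintro rfl
      rw [natDegree_zero] at hR
      omega
    have h3 : (X * R).natDegree = d + 1 := by
      rw [natDegree_mul X_ne_zero hR0, natDegree_X, hR]
      ring
    rw [← h2] at h3
    omega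
  set Z : Finset K := S ∪ (P - X * R).roots.toFinset with hZ
  set bad : Finset K := insert (a1 / b1) (Z.image fun z => a1 * (z - x0) / (b1 * (z - x2)))
    with hbad
  have hinj : Function.Injective fun c : K => c ^ p := (frobenius K p).injective
  obtain ⟨c', hc'⟩ := Infinite.exists_notMem_finset (bad.preimage (fun c : K => c ^ p)
    (hinj.injOn))
  rw [Finset.mem_preimage] at hc'
  set c : K := c' ^ p with hc
  have hA : a1 - c * b1 ≠ 0 := by
    intro h
    apply hc'
    rw [hbad, Finset.mem_insert]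
    left
    rw [eq_div_iff hβ1]
    linear_combination -h
  set A : K := a1 - c * b1 with hAdef
  set B : K := x0 * a1 - c * x2 * b1 with hBdef
  have hAB : ∀ z, A * z - B = a1 * (z - x0) - c * b1 * (z - x2) := by
    intro z
    rw [hAdef, hBdef]
    ring
  have hABne : ∀ z ∈ Z, A * z ≠ B := by
    intro z hz h
    have h2 := hAB z
    rw [h, sub_self] at h2
    by_cases hzx : z = x2
    · rw [hzx, sub_self, mul_zero, sub_zero] at h2
      exact mul_ne_zero hα1 (sub_ne_zero.mpr h02.symm) h2.symm
    · apply hc'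
      rw [hbad, Finset.mem_insert]
      right
      rw [Finset.mem_image]
      refine ⟨z, hz, ?_⟩
      rw [div_eq_iff (mul_ne_zero hβ1 (sub_ne_zero.mpr hzx))]
      linear_combination -h2
  set m : K := B / A with hm
  have hAm : A * m = B := by
    rw [hm]
    field_simp
  have hmZ : m ∉ Z := fun h => hABne m h hAm
  have hmS : m ∉ S := fun h => hmZ (Finset.mem_union_left _ h)
  have hmf : P.eval m ≠ m * R.eval m := by
    intro h
    apply hmZ
    rw [hZ, Finset.mem_union]
    right
    rw [Multiset.mem_toFinset, mem_roots hPX, IsRoot.def, eval_sub, eval_mul, eval_X, h, sub_self]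
  have hmx2 : m ≠ x2 := by
    intro h
    apply hmS
    rw [h]
    exact hTS hx2
  set lam : K := b1 * (m - x2) / A with hlam
  set ν : K := b1 / A with hν
  have hlam0 : lam ≠ 0 := div_ne_zero (mul_ne_zero hβ1 (sub_ne_zero.mpr hmx2)) hA
  have hmbx : ∀ x, x ≠ m → mb m lam ν x = b1 * (x - x2) / (A * x - B) := by
    intro x hx
    have hx0 : x - m ≠ 0 := sub_ne_zero.mpr hx
    have h2 : A * x - B = A * (x - m) := by
      rw [mul_sub, hAm]
    rw [h2]
    unfold mb
    rw [hlam, hν]
    field_simp
    ring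
  have hTp : ∀ x ∈ T, ∃ y, y ^ p = mb m lam ν x := by
    intro x hx
    have hxm : x ≠ m := fun h => hmS (h ▸ hTS hx)
    rw [hmbx x hxm]
    by_cases hxx : x = x2
    · refine ⟨0, ?_⟩
      rw [hxx, sub_self, mul_zero, zero_div, zero_pow (Fact.out : p.Prime).ne_zero]
    · have h2 := cross_of_quad Q T α β γ hT x0 x1 x2 x hx0 hx1 hx2 hx
      obtain ⟨y, hy⟩ := hker _ h2
      refine ⟨(y - c')⁻¹, ?_⟩
      rw [inv_pow, sub_pow_char, hy, ← hc, hAB]
      have hx20 : x - x2 ≠ 0 := sub_ne_zero.mpr hxx
      have h3 : (x - x0) * (x1 - x2) / ((x - x2) * (x1 - x0)) - c =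
          (a1 * (x - x0) - c * b1 * (x - x2)) / (b1 * (x - x2)) := by
        rw [← ha1, ← hb1]
        field_simp
      rw [h3, inv_div]
  -- many points with constant image
  set fz : K → K := fun x => P.eval x / R.eval x with hfz
  set U := T.filter fun x => fz x ∈ T with hU
  have hUS : U ⊆ S := (Finset.filter_subset _ _).trans hTS
  have hUc : (S \ U).card ≤ (S \ T).card + d * (S \ T).card := by
    have h2 : S \ U ⊆ (S \ T) ∪ S.filter fun x => fz x ∈ S \ T := by
      intro x hx
      rw [Finset.mem_sdiff] at hx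
      rw [Finset.mem_union]
      by_cases hxT : x ∈ T
      · right
        rw [Finset.mem_filter, Finset.mem_sdiff]
        refine ⟨hx.1, (hS x hx.1).2, fun h => hx.2 ?_⟩
        rw [hU, Finset.mem_filter]
        exact ⟨hxT, h⟩
      · left
        rw [Finset.mem_sdiff]
        exact ⟨hx.1, hxT⟩
    refine (Finset.card_le_card h2).trans ((Finset.card_union_le _ _).trans ?_)
    apply Nat.add_le_add_left
    apply Finset.card_le_mul_card_image_of_maps_to (f := fz)
    · intro x hx
      exact (Finset.mem_filter.mp hx).2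
    · intro y _
      have hfy : P - C y * R ≠ 0 := by
        intro h0
        have h3 : P = C y * R := sub_eq_zero.mp h0
        rw [h3] at hco
        have h4 : IsUnit R := by
          obtain ⟨a, b, hab⟩ := hco
          apply IsUnit.of_mul_eq_one (a * C y + b)
          rw [← hab]
          ring
        have := natDegree_eq_zero_of_isUnit h4
        omega
      have h3 : ((S.filter fun x => fz x ∈ S \ T).filter fun x => fz x = y) ⊆
          (P - C y * R).roots.toFinset := by
        intro x hx
        rw [Finset.mem_filter, Finset.mem_filter] at hx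
        rw [Multiset.mem_toFinset, mem_roots hfy, IsRoot.def, eval_sub, eval_mul, eval_C]
        have h4 := (hS x hx.1.1).1
        have h5 : P.eval x / R.eval x = y := hx.2
        rw [div_eq_iff h4] at h5
        rw [h5, sub_self]
      refine (Finset.card_le_card h3).trans ((Multiset.toFinset_card_le _).trans ?_)
      refine (card_roots' _).trans ?_
      refine (natDegree_sub_le _ _).trans (max_le hP ?_)
      exact (natDegree_C_mul_le _ _).trans hR.le
  have hUc2 : (S \ U).card + U.card = S.card := by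
    rw [Finset.card_sdiff_of_subset hUS]
    have := Finset.card_le_card hUS
    omega
  have hUcard : 2 * d + 1 ≤ U.card := by
    have h4 : (S \ T).card + d * (S \ T).card = (d + 1) * (S \ T).card := by ring
    rw [h4] at hUc
    omega
  -- make it monic
  set s : K := ((cQ d 1 m lam ν P R).leadingCoeff)⁻¹ with hs
  have hcQ1 : (cQ d 1 m lam ν P R).natDegree = d :=
    cQ_degree hP hR.le one_ne_zero hlam0 hmf
  have hcQ10 : cQ d 1 m lam ν P R ≠ 0 := by
    intro h
    rw [h, natDegree_zero] at hcQ1
    omega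
  have hs0 : s ≠ 0 := inv_ne_zero (leadingCoeff_ne_zero.mpr hcQ10)
  have hcQs : cQ d s m lam ν P R = C s * cQ d 1 m lam ν P R := by
    unfold cQ
    rw [C_1, one_mul]
  have hmonic : (cQ d s m lam ν P R).Monic := by
    rw [hcQs, hs]
    unfold Polynomial.Monic
    rw [leadingCoeff_mul, leadingCoeff_C]
    exact inv_mul_cancel₀ (leadingCoeff_ne_zero.mpr hcQ10)
  have hco' := c_coprime (s := s) (m := m) (lam := lam) (ν := ν) (by omega : 1 ≤ d) hP hR hco hs0
    hlam0
  have hconst := coeffs_const Q.D (cP_degree hlam0) hmonic (cQ_degree hP hR.le hs0 hlam0 hmf) hco'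
    (U.image (mb m lam ν)) (by
      rw [Finset.card_image_of_injOn]
      · exact hUcard
      · intro x hx y hy hxy
        have hxS : x ∈ S := hUS hx
        have hyS : y ∈ S := hUS hy
        exact mb_inj hlam0 (fun h => hmS (by rw [← h]; exact hxS))
          (fun h => hmS (by rw [← h]; exact hyS)) hxy) (by
      intro y hy
      rw [Finset.mem_image] at hy
      obtain ⟨x, hx, rfl⟩ := hy
      have hxT := (Finset.mem_filter.mp hx).1
      have hfxT : fz x ∈ T := (Finset.mem_filter.mp hx).2
      have hxS := hTS hxT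
      obtain ⟨e1, e2⟩ := c_eval (d := d) (s := s) (m := m) (lam := lam) (ν := ν) hP hR.le hs0 hlam0
        (x := x) (fun h => hmS (h ▸ hxS)) (hS x hxS).1 (fun h => hmS (h ▸ (hS x hxS).2))
      obtain ⟨y1, hy1⟩ := hTp x hxT
      obtain ⟨y2, hy2⟩ := hTp _ hfxT
      refine ⟨?_, e1, ?_⟩
      · rw [← hy1]
        exact D_pow_char p Q.D y1
      · rw [e2]
        show Q.D (mb m lam ν (fz x)) = 0
        rw [← hy2]
        exact D_pow_char p Q.D y2)
  obtain ⟨P₁, hP₁⟩ := frob_lift p (cP d s m lam ν P R) fun n => hker _ (hconst n).1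
  obtain ⟨R₁, hR₁⟩ := frob_lift p (cQ d s m lam ν P R) fun n => hker _ (hconst n).2
  exact ⟨s, m, lam, ν, P₁, R₁, hs0, hlam0, hmS, hmf, hP₁, hR₁, hTp⟩

end Pool.Agent.TH951.P
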